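import Pool.Agent.MP_16e930_an.H98.Rep

set_option autoImplicit false
open scoped ENNReal RealInnerProductSpace Convolution
open Metric Filter Topology MeasureTheory ContinuousLinearMap

namespace Pool.Agent.MP_16e930_an.H98

/-- The hypotheses on the map. -/
structure QR (f : E → E) (Df : E → E →L[ℝ] E) (K : ℝ) : Prop where
  maps : ∀ x ∈ ball (0 : E) 1, f x ∈ ball (0 : E) 1
  cont : ContinuousOn f (ball 0 1)
  meas : AEStronglyMeasurable Df (volume.restrict (ball (0 : E) 1))
  loc : LocallyIntegrableOn (fun x => ‖Df x‖ ^ 3) (ball (0 : E) 1) volume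
  weak : ∀ φ : E → ℝ, ContDiff ℝ 1 φ → HasCompactSupport φ → tsupport φ ⊆ ball (0 : E) 1 →
    ∀ v : E, ∫ x, (fderiv ℝ φ x v) • f x = -∫ x, φ x • (Df x v)
  dist : ∀ᵐ x ∂(volume.restrict (ball (0 : E) 1)),
    ‖Df x‖ ^ 3 ≤ K * LinearMap.det (Df x).toLinearMap

theorem pratt {α : Type} [MeasurableSpace α] {μ : Measure α} {F H : ℕ → α → ℝ} {F0 H0 : α → ℝ}
    (hF : ∀ n, AEStronglyMeasurable (F n) μ) (hH : ∀ n, Integrable (H n) μ)
    (hH0 : Integrable H0 μ) (hb : ∀ n, ∀ᵐ x ∂μ, |F n x| ≤ H n x)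
    (h1 : ∀ᵐ x ∂μ, Tendsto (fun n => F n x) atTop (𝓝 (F0 x)))
    (h2 : ∀ᵐ x ∂μ, Tendsto (fun n => H n x) atTop (𝓝 (H0 x)))
    (h3 : ∀ n, ∫ x, H n x ∂μ = ∫ x, H0 x ∂μ) :
    Integrable F0 μ ∧ Tendsto (fun n => ∫ x, F n x ∂μ) atTop (𝓝 (∫ x, F0 x ∂μ)) := by
  have hb' := ae_all_iff.2 hb
  have hb0 : ∀ᵐ x ∂μ, |F0 x| ≤ H0 x := by
    filter_upwards [hb', h1, h2] with x a1 a2 a3
    exact le_of_tendsto_of_tendsto' a2.abs a3 a1
  have hm0 : AEStronglyMeasurable F0 μ := aestronglyMeasurable_of_tendsto_ae atTop hF h1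
  refine ⟨hH0.mono' hm0 hb0, ?_⟩
  have hFi : ∀ n, Integrable (F n) μ := fun n => (hH n).mono' (hF n) (hb n)
  have t1 : Tendsto (fun n => ∫ x, max (H0 x - H n x) 0 ∂μ) atTop (𝓝 (∫ _x, (0 : ℝ) ∂μ)) := by
    refine tendsto_integral_of_dominated_convergence H0
      (fun n => (hH0.sub (hH n)).pos_part.1) hH0 (fun n => ?_) ?_
    · filter_upwards [hb n, hb0] with x a1 a2
      rw [Real.norm_of_nonneg (le_max_right _ _)]
      exact max_le (by linarith [abs_nonneg (F n x)]) ((abs_nonneg _).trans a2)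
    · filter_upwards [h2] with x a1
      have := ((tendsto_const_nhds (x := H0 x)).sub a1).max (tendsto_const_nhds (x := (0 : ℝ)))
      simpa using this
  have t2 : ∀ n, ∫ x, max (H n x - H0 x) 0 ∂μ = ∫ x, max (H0 x - H n x) 0 ∂μ := by
    intro n
    have e1 : ∫ x, (max (H n x - H0 x) 0 - max (H0 x - H n x) 0) ∂μ =
        ∫ x, (H n x - H0 x) ∂μ := by
      refine integral_congr_ae (Eventually.of_forall fun x => ?_)
      have := max_zero_sub_max_neg_zero_eq_self (H n x - H0 x)
      rw [neg_sub] at this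
      exact this
    have j1 : Integrable (fun x => max (H n x - H0 x) 0) μ := ((hH n).sub hH0).pos_part
    have j2 : Integrable (fun x => max (H0 x - H n x) 0) μ := (hH0.sub (hH n)).pos_part
    rw [integral_sub j1 j2, integral_sub (hH n) hH0, h3 n] at e1
    linarith
  set G : ℕ → α → ℝ := fun n x => max (-H0 x) (min (H0 x) (F n x)) with hG
  have hGm : ∀ n, AEStronglyMeasurable (G n) μ := fun n =>
    (hH0.1.neg.aemeasurable.max (hH0.1.aemeasurable.min (hF n).aemeasurable)).aestronglyMeasurable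
  have hGb : ∀ n, ∀ᵐ x ∂μ, ‖G n x‖ ≤ H0 x := fun n => by
    filter_upwards [hb0] with x a2
    have := (abs_nonneg _).trans a2
    rw [Real.norm_eq_abs, abs_le]
    exact ⟨le_max_left _ _, max_le (by linarith) (min_le_left _ _)⟩
  have t3 : Tendsto (fun n => ∫ x, G n x ∂μ) atTop (𝓝 (∫ x, F0 x ∂μ)) := by
    refine tendsto_integral_of_dominated_convergence H0 hGm hH0 hGb ?_
    filter_upwards [h1, hb0] with x a1 a2
    have := (tendsto_const_nhds (x := -H0 x)).max ((tendsto_const_nhds (x := H0 x)).min a1)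
    rwa [min_eq_right (abs_le.1 a2).2, max_eq_right (abs_le.1 a2).1] at this
  have t4 : Tendsto (fun n => ∫ x, F n x ∂μ - ∫ x, G n x ∂μ) atTop (𝓝 0) := by
    rw [integral_zero] at t1
    refine squeeze_zero_norm (fun n => ?_) t1
    rw [← t2 n, ← integral_sub (hFi n) (hH0.mono' (hGm n) (hGb n))]
    refine norm_integral_le_of_norm_le ((hH n).sub hH0).pos_part ?_
    filter_upwards [hb n, hb0] with x a1 a2
    have a3 := (abs_nonneg _).trans a2
    have a4 := abs_le.1 a1
    rw [Real.norm_eq_abs, abs_le]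
    simp only [hG]
    have b1 := le_max_left (H n x - H0 x) 0
    have b2 := le_max_right (H n x - H0 x) 0
    constructor
    · have : max (-H0 x) (min (H0 x) (F n x)) ≤ F n x + max (H n x - H0 x) 0 :=
        max_le (by linarith) ((min_le_right _ _).trans (by linarith))
      linarith
    · have : F n x - max (H n x - H0 x) 0 ≤ max (-H0 x) (min (H0 x) (F n x)) :=
        le_trans (le_min (by linarith) (by linarith)) (le_max_right _ _)
      linarith
  simpa using t4.add t3

theorem jensen3 {V : Type} [NormedAddCommGroup V] [NormedSpace ℝ V] (φ : ContDiffBump (0 : E))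
    {D : E → V} (hD : Integrable D) (hD3 : Integrable fun x => ‖D x‖ ^ 3) (x : E) :
    ‖(φ.normed volume ⋆[lsmul ℝ ℝ, volume] D) x‖ ^ 3 ≤
      (φ.normed volume ⋆[lsmul ℝ ℝ, volume] fun y => ‖D y‖ ^ 3) x := by
  rw [convolution_lsmul_swap, convolution_lsmul_swap]
  set ρ : E → ℝ := fun t => φ.normed volume (x - t) with hρ
  have hρ0 : ∀ t, 0 ≤ ρ t := fun t => φ.nonneg_normed _
  have hρ1 : ∫ t, ρ t = 1 := by
    rw [hρ, integral_sub_left_eq_self (φ.normed volume) volume x]; exact φ.integral_normed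
  have hρi : Integrable ρ := φ.integrable_normed.comp_sub_left x
  have i1 : Integrable fun t => ρ t • ‖D t‖ :=
    (φ.hasCompactSupport_normed.convolutionExists_left (lsmul ℝ ℝ) φ.continuous_normed
      hD.norm.locallyIntegrable x).integrable_swap
  have i3 : Integrable fun t => ρ t • ‖D t‖ ^ 3 :=
    (φ.hasCompactSupport_normed.convolutionExists_left (lsmul ℝ ℝ) φ.continuous_normed
      hD3.locallyIntegrable x).integrable_swap
  set s := ∫ t, ρ t • ‖D t‖ with hs
  have h1 : ‖∫ t, ρ t • D t‖ ≤ s := by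
    refine norm_integral_le_of_norm_le i1 (Eventually.of_forall fun t => ?_)
    rw [norm_smul, Real.norm_of_nonneg (hρ0 t), smul_eq_mul]
  have hs0 : 0 ≤ s := (norm_nonneg _).trans h1
  have h2 : ∫ t, (3 * s ^ 2 * (ρ t • ‖D t‖) - 2 * s ^ 3 * ρ t) ≤ ∫ t, ρ t • ‖D t‖ ^ 3 := by
    refine integral_mono ((i1.const_mul _).sub (hρi.const_mul _)) i3 fun t => ?_
    simp only [smul_eq_mul]
    have a1 := norm_nonneg (D t)
    have a2 : 0 ≤ (‖D t‖ - s) ^ 2 * (‖D t‖ + 2 * s) := by positivity
    nlinarith [mul_nonneg (hρ0 t) a2]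
  rw [integral_sub (i1.const_mul _) (hρi.const_mul _), integral_const_mul, integral_const_mul,
    hρ1, ← hs] at h2
  calc ‖∫ t, ρ t • D t‖ ^ 3 ≤ s ^ 3 := by gcongr
    _ ≤ _ := by linarith

theorem QR.fderiv_conv {f : E → E} {Df : E → E →L[ℝ] E} {K : ℝ} (Q : QR f Df K) {r' : ℝ}
    (hr' : r' < 1) (φ : ContDiffBump (0 : E))
    (hf : Integrable ((closedBall (0 : E) r').indicator f))
    (hD : Integrable ((closedBall (0 : E) r').indicator Df)) {x : E}
    (hx : ‖x‖ + φ.rOut ≤ r') :
    fderiv ℝ (φ.normed volume ⋆[lsmul ℝ ℝ, volume] (closedBall (0 : E) r').indicator f) x =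
      (φ.normed volume ⋆[lsmul ℝ ℝ, volume] (closedBall (0 : E) r').indicator Df) x := by
  set ρ := φ.normed volume with hρ
  have hρ1 : ContDiff ℝ 1 ρ := φ.contDiff_normed
  have hρc : HasCompactSupport ρ := φ.hasCompactSupport_normed
  rw [(hρc.hasFDerivAt_convolution_left (lsmul ℝ ℝ) hρ1 hf.locallyIntegrable x).fderiv]
  ext1 v
  have i1 := ((hρc.fderiv ℝ).convolutionExists_left ((lsmul ℝ ℝ : ℝ →L[ℝ] E →L[ℝ] E).precompL E)
    (hρ1.continuous_fderiv one_ne_zero) hf.locallyIntegrable x).integrable_swap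
  have i2 := (hρc.convolutionExists_left (lsmul ℝ ℝ : ℝ →L[ℝ] (E →L[ℝ] E) →L[ℝ] (E →L[ℝ] E))
    hρ1.continuous hD.locallyIntegrable x).integrable_swap
  rw [convolution_eq_swap, convolution_eq_swap, integral_apply i1, integral_apply i2]
  set ψ : E → ℝ := fun t => ρ (x - t) with hψ
  have hψ1 : ContDiff ℝ 1 ψ := hρ1.comp (contDiff_const.sub contDiff_id)
  have hsub : tsupport ψ ⊆ closedBall x φ.rOut := by
    refine closure_minimal (fun t ht => ?_) isClosed_closedBall
    have : x - t ∈ Function.support ρ := ht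
    rw [hρ, φ.support_normed_eq, mem_ball_zero_iff] at this
    rw [mem_closedBall, dist_comm, dist_eq_norm]
    exact this.le
  have hsub' : closedBall x φ.rOut ⊆ closedBall 0 r' := fun t ht => by
    rw [mem_closedBall_zero_iff]
    have := norm_le_norm_add_norm_sub' t x
    rw [← dist_eq_norm] at this
    linarith [mem_closedBall.1 ht]
  have hψc : HasCompactSupport ψ :=
    (isCompact_closedBall x φ.rOut).of_isClosed_subset (isClosed_tsupport _) hsub
  have hw := Q.weak ψ hψ1 hψc ((hsub.trans hsub').trans (closedBall_subset_ball hr')) v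
  have hd : ∀ t, fderiv ℝ ψ t v = -fderiv ℝ ρ (x - t) v := fun t => by
    have h1 : HasFDerivAt (fun t : E => x - t) (-ContinuousLinearMap.id ℝ E) t :=
      (hasFDerivAt_id t).const_sub x
    have h2 := ((hρ1.differentiable one_ne_zero (x - t)).hasFDerivAt.comp t h1).fderiv
    have h3 : fderiv ℝ ψ t = (fderiv ℝ ρ (x - t)).comp (-ContinuousLinearMap.id ℝ E) := h2
    rw [h3]; simp
  have e1 : ∀ t, ((lsmul ℝ ℝ : ℝ →L[ℝ] E →L[ℝ] E).precompL E (fderiv ℝ ρ (x - t))
      ((closedBall (0 : E) r').indicator f t)) v = -(fderiv ℝ ψ t v • f t) := fun t => by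
    by_cases ht : t ∈ closedBall (0 : E) r'
    · rw [Set.indicator_of_mem ht, hd]; simp
    · rw [Set.indicator_of_notMem ht]
      have : fderiv ℝ ψ t = 0 := fderiv_of_notMem_tsupport ℝ fun h => ht (hsub' (hsub h))
      simp [this]
  have e2 : ∀ t, ((lsmul ℝ ℝ : ℝ →L[ℝ] (E →L[ℝ] E) →L[ℝ] (E →L[ℝ] E)) (ρ (x - t))
      ((closedBall (0 : E) r').indicator Df t)) v = ψ t • Df t v := fun t => by
    by_cases ht : t ∈ closedBall (0 : E) r'
    · rw [Set.indicator_of_mem ht]; simp [hψ]
    · rw [Set.indicator_of_notMem ht]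
      have : ψ t = 0 := image_eq_zero_of_notMem_tsupport fun h => ht (hsub' (hsub h))
      simp [this]
  simp only [e1, e2, integral_neg, hw, neg_neg]

theorem QR.approx {f : E → E} {Df : E → E →L[ℝ] E} {K : ℝ} (Q : QR f Df K) {r : ℝ}
    (hr : r < 1) : ∃ F : ℕ → E → E, (∀ n, ContDiff ℝ 2 (F n)) ∧
      TendstoUniformlyOn F f atTop (closedBall 0 r) ∧
      ∀ (Φ : E × E × (E →L[ℝ] E) → ℝ) (S : Set E) (C : ℝ), Continuous Φ → MeasurableSet S →
        S ⊆ closedBall 0 r → (∀ x ∈ S, ∀ y A, ‖y‖ ≤ 3 → |Φ (x, y, A)| ≤ C * (1 + ‖A‖ ^ 3)) →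
        IntegrableOn (fun x => Φ (x, f x, Df x)) S ∧
        Tendsto (fun n => ∫ x in S, Φ (x, F n x, fderiv ℝ (F n) x)) atTop
          (𝓝 (∫ x in S, Φ (x, f x, Df x))) := by
  set δ := (1 - r) / 2 with hδ
  have hδ0 : 0 < δ := by rw [hδ]; linarith
  set B' := closedBall (0 : E) (r + δ) with hB'
  have hr' : r + δ < 1 := by rw [hδ]; linarith
  have hB1 : B' ⊆ ball 0 1 := closedBall_subset_ball hr'
  have hBc : IsCompact B' := isCompact_closedBall _ _
  have hBm : MeasurableSet B' := measurableSet_closedBall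
  have hfc := Q.cont.mono hB1
  have hf : Integrable (B'.indicator f) :=
    (integrable_indicator_iff hBm).2 (hfc.integrableOn_compact hBc)
  have hG0 : IntegrableOn (fun x => ‖Df x‖ ^ 3) B' := Q.loc.integrableOn_compact_subset hB1 hBc
  have hone : IntegrableOn (fun _ : E => (1 : ℝ)) B' := continuousOn_const.integrableOn_compact hBc
  have hD : Integrable (B'.indicator Df) := by
    refine (integrable_indicator_iff hBm).2 ((hone.add hG0).mono'
      (Q.meas.mono_measure (Measure.restrict_mono hB1 le_rfl)) (Eventually.of_forall fun x => ?_))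
    have a1 := norm_nonneg (Df x)
    have a2 : 0 ≤ (‖Df x‖ - 1) ^ 2 * (‖Df x‖ + 2) := by positivity
    simp only [Pi.add_apply]
    nlinarith [pow_nonneg a1 3]
  have hG : Integrable fun x => ‖B'.indicator Df x‖ ^ 3 := by
    refine ((integrable_indicator_iff hBm).2 hG0).congr (Eventually.of_forall fun x => ?_)
    by_cases hx : x ∈ B' <;> simp [hx]
  let φ : ℕ → ContDiffBump (0 : E) := fun n =>
    ⟨δ / (n + 1) / 2, δ / (n + 1), by positivity, half_lt_self (by positivity)⟩
  have hφ1 : ∀ n, (φ n).rOut ≤ δ := fun n => div_le_self hδ0.le (by simp)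
  have hφ2 : Tendsto (fun n => (φ n).rOut) atTop (𝓝 0) := by
    have := tendsto_one_div_add_atTop_nhds_zero_nat (𝕜 := ℝ).const_mul δ
    simp only [mul_zero, mul_one_div] at this
    exact this
  have hφ3 : ∀ᶠ n in atTop, (φ n).rOut ≤ 2 * (φ n).rIn :=
    Eventually.of_forall fun n => by show δ / (n + 1) ≤ 2 * (δ / (n + 1) / 2); linarith
  set F : ℕ → E → E := fun n => (φ n).normed volume ⋆[lsmul ℝ ℝ, volume] B'.indicator f with hF
  have hFc : ∀ n, ContDiff ℝ 2 (F n) := fun n =>
    (φ n).hasCompactSupport_normed.contDiff_convolution_left _ (φ n).contDiff_normed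
      hf.locallyIntegrable
  have hsub : closedBall (0 : E) r ⊆ B' := closedBall_subset_closedBall (by linarith)
  have hU : TendstoUniformlyOn F f atTop (closedBall 0 r) := by
    rw [Metric.tendstoUniformlyOn_iff]
    intro ε hε
    obtain ⟨η, hη, hη'⟩ := Metric.uniformContinuousOn_iff.1
      (hBc.uniformContinuousOn_of_continuous hfc) (ε / 2) (by linarith)
    filter_upwards [hφ2.eventually (gt_mem_nhds hη)] with n hn x hx
    have h1 := (φ n).dist_normed_convolution_le (μ := volume) (x₀ := x) (ε := ε / 2) hf.1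
      (fun y hy => by
        have hy' : y ∈ B' := by
          rw [hB', mem_closedBall_zero_iff]
          have := norm_le_norm_add_norm_sub' y x
          rw [← dist_eq_norm] at this
          linarith [mem_ball.1 hy, hφ1 n, mem_closedBall_zero_iff.1 hx]
        rw [Set.indicator_of_mem hy', Set.indicator_of_mem (hsub hx)]
        exact (hη' y hy' x (hsub hx) ((mem_ball.1 hy).trans hn)).le)
    rw [Set.indicator_of_mem (hsub hx)] at h1
    rw [dist_comm]
    exact h1.trans_lt (by linarith)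
  have hn1 : ∀ y, ‖B'.indicator f y‖ ≤ 1 := fun y => by
    by_cases hy : y ∈ B'
    · rw [Set.indicator_of_mem hy]; exact (mem_ball_zero_iff.1 (Q.maps y (hB1 hy))).le
    · rw [Set.indicator_of_notMem hy]; simp
  have hF3 : ∀ n x, ‖F n x‖ ≤ 3 := fun n x => by
    have h1 := (φ n).dist_normed_convolution_le (μ := volume) (x₀ := x) (ε := 2) hf.1
      (fun y _ => by
        rw [dist_eq_norm]
        linarith [norm_sub_le (B'.indicator f y) (B'.indicator f x), hn1 y, hn1 x])
    have h2 := norm_le_norm_add_norm_sub' (F n x) (B'.indicator f x)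
    rw [← dist_eq_norm] at h2
    linarith [hn1 x]
  have hder : ∀ n, ∀ x ∈ closedBall (0 : E) r, fderiv ℝ (F n) x =
      ((φ n).normed volume ⋆[lsmul ℝ ℝ, volume] B'.indicator Df) x := fun n x hx =>
    Q.fderiv_conv hr' (φ n) hf hD (by linarith [hφ1 n, mem_closedBall_zero_iff.1 hx])
  refine ⟨F, hFc, hU, fun Φ S C hΦ hS hSr hb => ?_⟩
  have hone' : Integrable (B'.indicator fun _ : E => (1 : ℝ)) :=
    (integrable_indicator_iff hBm).2 hone
  have key := pratt (μ := volume)
    (F := fun n => S.indicator fun x => Φ (x, F n x, fderiv ℝ (F n) x))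
    (F0 := S.indicator fun x => Φ (x, f x, Df x))
    (H := fun n x => |C| * (B'.indicator (fun _ => (1 : ℝ)) x +
      ((φ n).normed volume ⋆[lsmul ℝ ℝ, volume] fun y => ‖B'.indicator Df y‖ ^ 3) x))
    (H0 := fun x => |C| * (B'.indicator (fun _ => (1 : ℝ)) x + ‖B'.indicator Df x‖ ^ 3))
    (fun n => (hΦ.comp (continuous_id.prodMk ((hFc n).continuous.prodMk
      ((hFc n).continuous_fderiv (by norm_num))))).aestronglyMeasurable.indicator hS)
    (fun n => (hone'.add ((φ n).integrable_normed.integrable_convolution _ hG)).const_mul _)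
    ((hone'.add hG).const_mul _)
    (fun n => Eventually.of_forall fun x => by
      have j := jensen3 (φ n) hD hG x
      have j0 := (pow_nonneg (norm_nonneg _) 3).trans j
      by_cases hx : x ∈ S
      · rw [Set.indicator_of_mem hx, Set.indicator_of_mem (hsub (hSr hx))]
        refine (hb x hx _ _ (hF3 n x)).trans ?_
        rw [hder n x (hSr hx)]
        gcongr
        exact le_abs_self C
      · rw [Set.indicator_of_notMem hx, abs_zero]
        have : 0 ≤ B'.indicator (fun _ => (1 : ℝ)) x :=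
          Set.indicator_nonneg (fun _ _ => zero_le_one) x
        positivity)
    (by
      filter_upwards [ContDiffBump.ae_convolution_tendsto_right_of_locallyIntegrable hφ2 hφ3
        hD.locallyIntegrable] with x hx'
      by_cases hx : x ∈ S
      · simp only [Set.indicator_of_mem hx, hder _ x (hSr hx)]
        rw [Set.indicator_of_mem (hsub (hSr hx))] at hx'
        exact (hΦ.tendsto _).comp (tendsto_const_nhds.prodMk_nhds
          ((hU.tendsto_at (hSr hx)).prodMk_nhds hx'))
      · simp only [Set.indicator_of_notMem hx]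
        exact tendsto_const_nhds)
    (by
      filter_upwards [ContDiffBump.ae_convolution_tendsto_right_of_locallyIntegrable hφ2 hφ3
        hG.locallyIntegrable] with x hx'
      exact (hx'.const_add _).const_mul _)
    (fun n => by
      rw [integral_const_mul, integral_const_mul,
        integral_add hone' ((φ n).integrable_normed.integrable_convolution _ hG),
        integral_add hone' hG, integral_convolution _ (φ n).integrable_normed hG,
        (φ n).integral_normed]
      simp)
  simp only [integral_indicator hS] at key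
  exact ⟨(integrable_indicator_iff hS).1 key.1, key.2⟩

end Pool.Agent.MP_16e930_an.H98
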