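import Pool.Agent.MP_16e930_an.H98.Rep

set_option autoImplicit false
open scoped ENNReal RealInnerProductSpace
open Metric Filter Topology

namespace Pool.Agent.MP_16e930_an.H98

abbrev X : Type := ball (0 : E) 1

noncomputable def ht (x : X) : ℝ := 1 - ‖(x : E)‖

theorem X.norm_lt (x : X) : ‖(x : E)‖ < 1 := mem_ball_zero_iff.1 x.2

theorem ht_pos (x : X) : 0 < ht x := by unfold ht; linarith [x.norm_lt]

theorem ht_lip (a b : X) : ht a ≤ ht b + dist a b := by
  unfold ht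
  have := norm_le_norm_add_norm_sub' (b : E) a
  rw [Subtype.dist_eq, dist_comm, dist_eq_norm]
  linarith

theorem exists_chain {f : E → E} {c : ℝ} (G : Good f c) {κ : Type} [Fintype κ] [Nonempty κ]
    (mv : X → κ → X) (hmv : ∀ x k, dist (mv x k) x ≤ ht x / 20) :
    ∃ ch : Chain X ht (Fin 4 ⊕ κ ⊕ Fin 4), ch.R = 5 ∧
      (∀ x, ∑ i, ch.w x i • f (ch.z x i) = f x) ∧
      ∃ c0 : ℝ, 0 < c0 ∧ c0 ≤ 1 ∧ ∀ (g : X → ℝ≥0∞) x k,
        ENNReal.ofReal c0 * g (mv x k) ≤ ch.P g x := by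
  have hc0 := G.c0
  have hc1 := G.c1
  set γ : ℝ := c / 40 with hγ
  have hγ0 : 0 < γ := by positivity
  have hγ1 : γ ≤ 1 := by linarith
  set ε : ℝ := 4 ^ (-(1 / γ)) with hε
  have hε0 : 0 < ε := by positivity
  have hε1 : ε < 1 := Real.rpow_lt_one_of_one_lt_of_neg (by norm_num) (by
    have : 0 < 1 / γ := by positivity
    linarith)
  have hεγ : ε ^ γ = 1 / 4 := by
    rw [hε, ← Real.rpow_mul (by norm_num)]
    have : -(1 / γ) * γ = -1 := by field_simp
    rw [this, Real.rpow_neg_one]; norm_num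
  have h6 : (6 : ℝ) ^ γ ≤ 1 + c / 8 := by
    have := rpow_one_add_le_one_add_mul_self (s := 5) (by norm_num) hγ0.le hγ1
    norm_num at this
    linarith
  have hN : (1 : ℝ) ≤ Fintype.card κ := by exact_mod_cast Fintype.card_pos
  have := fun x : X => rep G hε0 hε1 x.norm_lt (fun k => (mv x k : E)) (fun k => hmv x k)
  choose w1 w2 z1 z2 a1 a2 b1 b2 hz1 hz2 hrep using this
  have hin : ∀ (x : X) (z : E), ‖z‖ ≤ 1 - ε * (1 - ‖(x : E)‖) / 2 → z ∈ ball (0 : E) 1 := by
    intro x z hz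
    rw [mem_ball_zero_iff]
    have := mul_pos hε0 (ht_pos x)
    unfold ht at this
    linarith
  let W : X → Fin 4 ⊕ κ ⊕ Fin 4 → ℝ := fun x => Sum.elim (fun i => c / 2 * w1 x i)
    (Sum.elim (fun _ => c / (2 * Fintype.card κ)) fun i => (1 - c) * w2 x i)
  let Z : X → Fin 4 ⊕ κ ⊕ Fin 4 → X := fun x => Sum.elim (fun i => ⟨z1 x i, hin x _ (hz1 x i).1.2⟩)
    (Sum.elim (mv x) fun i => ⟨z2 x i, hin x _ (hz2 x i).2⟩)
  have hW0 : ∀ x i, 0 ≤ W x i := by
    rintro x (i | k | i)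
    · exact mul_nonneg (by positivity) (a1 x i)
    · show 0 ≤ c / (2 * Fintype.card κ)
      positivity
    · exact mul_nonneg (by linarith) (b1 x i)
  have hκs : ∑ _k : κ, c / (2 * Fintype.card κ) = c / 2 := by
    rw [Finset.sum_const, Finset.card_univ, nsmul_eq_mul]; field_simp
  have hrange : ∀ x i, dist (Z x i) x ≤ 5 * ht x := by
    rintro x (i | k | i)
    · exact (hz1 x i).1.1
    · exact (hmv x k).trans (by linarith [ht_pos x])
    · exact (hz2 x i).1
  refine ⟨{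
    w := W, z := Z, R := 5, ε := ε / 2, γ := γ, lam := 1 - c / 4
    hpos := ht_pos, hlip := ht_lip, w0 := hW0
    w1 := fun x => ?_
    R0 := by norm_num, ε0 := by positivity, γ0 := hγ0, γ1 := hγ1
    lam0 := by linarith, lam1 := by linarith
    range := hrange
    low := ?_
    drift := fun x => ?_ }, rfl, fun x => ?_, c / (2 * Fintype.card κ), by positivity, ?_,
    fun g x k => ?_⟩
  · simp only [W, Fintype.sum_sum_type, Sum.elim_inl, Sum.elim_inr, ← Finset.mul_sum, a2, b2, hκs]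
    ring
  · rintro x (i | k | i)
    · have := (hz1 x i).1.2
      show ε / 2 * (1 - ‖(x : E)‖) ≤ 1 - ‖z1 x i‖
      linarith
    · show ε / 2 * ht x ≤ ht (mv x k)
      have h1 := ht_lip x (mv x k)
      rw [dist_comm] at h1
      nlinarith [hmv x k, ht_pos x]
    · have := (hz2 x i).2
      show ε / 2 * (1 - ‖(x : E)‖) ≤ 1 - ‖z2 x i‖
      linarith
  · have hx := ht_pos x
    have hp : 0 < ht x ^ γ := by positivity
    have e1 : ∀ i, ht (Z x i) ^ γ ≤ (1 + c / 8) * ht x ^ γ := fun i => by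
      have h1 : ht (Z x i) ≤ 6 * ht x := by linarith [ht_lip (Z x i) x, hrange x i]
      calc ht (Z x i) ^ γ ≤ (6 * ht x) ^ γ := Real.rpow_le_rpow (ht_pos _).le h1 hγ0.le
        _ = 6 ^ γ * ht x ^ γ := Real.mul_rpow (by norm_num) hx.le
        _ ≤ _ := by gcongr
    have e2 : ∀ i, ht (Z x (Sum.inl i)) ^ γ ≤ 1 / 4 * ht x ^ γ := fun i => by
      have h1 : ht (Z x (Sum.inl i)) ≤ ε * ht x := by
        have := (hz1 x i).2
        show 1 - ‖z1 x i‖ ≤ ε * (1 - ‖(x : E)‖)
        linarith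
      calc ht (Z x (Sum.inl i)) ^ γ ≤ (ε * ht x) ^ γ :=
            Real.rpow_le_rpow (ht_pos _).le h1 hγ0.le
        _ = ε ^ γ * ht x ^ γ := Real.mul_rpow hε0.le hx.le
        _ = _ := by rw [hεγ]
    rw [Fintype.sum_sum_type]
    calc ∑ i, W x (Sum.inl i) * ht (Z x (Sum.inl i)) ^ γ +
          ∑ j, W x (Sum.inr j) * ht (Z x (Sum.inr j)) ^ γ
        ≤ ∑ i, W x (Sum.inl i) * (1 / 4 * ht x ^ γ) +
          ∑ j, W x (Sum.inr j) * ((1 + c / 8) * ht x ^ γ) :=
          add_le_add (Finset.sum_le_sum fun i _ => mul_le_mul_of_nonneg_left (e2 i) (hW0 x _))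
            (Finset.sum_le_sum fun i _ => mul_le_mul_of_nonneg_left (e1 _) (hW0 x _))
      _ = c / 2 * (1 / 4 * ht x ^ γ) + (1 - c / 2) * ((1 + c / 8) * ht x ^ γ) := by
          rw [← Finset.sum_mul, ← Finset.sum_mul]
          simp only [W, Fintype.sum_sum_type, Sum.elim_inl, Sum.elim_inr, ← Finset.mul_sum, a2,
            b2, hκs]
          ring
      _ ≤ (1 - c / 4) * ht x ^ γ := by nlinarith [mul_pos hc0 hc0]
  · rw [← hrep x]
    simp only [W, Z, Fintype.sum_sum_type, Sum.elim_inl, Sum.elim_inr, mul_smul, Finset.smul_sum,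
      add_assoc]
  · rw [div_le_one (by positivity)]; linarith
  · exact Chain.le_P _ g x (Sum.inr (Sum.inl k))

section harnack

variable {c0 : ℝ≥0∞} {g : X → ℝ≥0∞}

noncomputable def mm (g : X → ℝ≥0∞) (p : X) : ℝ≥0∞ :=
  ⨅ (z : X) (_ : dist z p ≤ ht p / 100), g z

theorem mm_le (g : X → ℝ≥0∞) {p z : X} (hz : dist z p ≤ ht p / 100) : mm g p ≤ g z :=
  iInf₂_le_of_le z hz le_rfl

/-- One can move near any prescribed nearby point. -/
def Mov (c0 : ℝ≥0∞) (g : X → ℝ≥0∞) : Prop :=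
  ∀ (z : X) (p : E), dist p z ≤ ht z / 20 → ∃ z' : X, dist (z' : E) p ≤ ht z / 200 ∧
    c0 * g z' ≤ g z

theorem mm_step (H : Mov c0 g) {p p' : X} (hp : dist p' p ≤ ht p / 80) :
    c0 * mm g p' ≤ mm g p := by
  refine le_iInf₂ fun z hz => ?_
  have h0 := ht_pos p
  have h1 := ht_lip p z
  have h2 := ht_lip z p
  have h3 := ht_lip p p'
  rw [dist_comm] at h1 h3
  have h4 := dist_triangle p' p z
  rw [dist_comm p z] at h4
  obtain ⟨z', hz', hz''⟩ := H z p' (by rw [← Subtype.dist_eq]; linarith)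
  rw [← Subtype.dist_eq] at hz'
  exact (mul_le_mul_right (mm_le g (by linarith)) _).trans hz''

noncomputable def seg (p q : X) (s : ℝ) (h0 : 0 ≤ s) (h1 : s ≤ 1) : X :=
  ⟨(1 - s) • (p : E) + s • (q : E), convex_ball (0 : E) 1 p.2 q.2 (by linarith) h0 (by ring)⟩

theorem ht_seg (p q : X) (s : ℝ) (h0 : 0 ≤ s) (h1 : s ≤ 1) :
    (1 - s) * ht p + s * ht q ≤ ht (seg p q s h0 h1) := by
  have := norm_add_le ((1 - s) • (p : E)) (s • (q : E))
  rw [norm_smul, norm_smul, Real.norm_of_nonneg h0, Real.norm_of_nonneg (by linarith)] at this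
  simp only [ht, seg]
  linarith

theorem dist_seg_left (p q : X) (s : ℝ) (h0 : 0 ≤ s) (h1 : s ≤ 1) :
    dist (seg p q s h0 h1) p = s * dist p q := by
  rw [Subtype.dist_eq, Subtype.dist_eq, dist_eq_norm, dist_comm, dist_eq_norm]
  have : ((seg p q s h0 h1 : X) : E) - p = s • ((q : E) - p) := by simp only [seg]; module
  rw [this, norm_smul, Real.norm_of_nonneg h0]

theorem dist_seg_right (p q : X) (s : ℝ) (h0 : 0 ≤ s) (h1 : s ≤ 1) :
    dist (seg p q s h0 h1) q = (1 - s) * dist p q := by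
  rw [Subtype.dist_eq, Subtype.dist_eq, dist_eq_norm, dist_eq_norm]
  have : ((seg p q s h0 h1 : X) : E) - q = (1 - s) • ((p : E) - q) := by simp only [seg]; module
  rw [this, norm_smul, Real.norm_of_nonneg (by linarith)]

theorem mm_seg (H : Mov c0 g) {t : ℝ} (n : ℕ) : ∀ p q : X, t ≤ ht p → t ≤ ht q →
    dist p q ≤ n * (t / 80) → c0 ^ n * mm g q ≤ mm g p := by
  induction n with
  | zero =>
    intro p q _ _ hd
    have : p = q := by simpa using hd
    simp [this]
  | succ n ih =>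
    intro p q hp hq hd
    have hn : (0 : ℝ) < n + 1 := by positivity
    have h0 : (0 : ℝ) ≤ 1 / (n + 1) := by positivity
    have h1 : 1 / ((n : ℝ) + 1) ≤ 1 := by rw [div_le_one hn]; linarith
    set p' := seg p q _ h0 h1
    have a1 : t ≤ ht p' := by
      have := ht_seg p q _ h0 h1
      nlinarith
    push_cast at hd
    have a2 : dist p' p ≤ ht p / 80 := by
      rw [dist_seg_left, one_div, inv_mul_le_iff₀ hn]
      nlinarith
    have a3 : dist p' q ≤ n * (t / 80) := by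
      rw [dist_seg_right]
      have : (1 - 1 / ((n : ℝ) + 1)) * ((n + 1) * (t / 80)) = n * (t / 80) := by
        field_simp; ring
      rw [← this]
      gcongr
    calc c0 ^ (n + 1) * mm g q = c0 * (c0 ^ n * mm g q) := by ring
      _ ≤ c0 * mm g p' := mul_le_mul_right (ih p' q a1 hq a3) _
      _ ≤ _ := mm_step H a2

theorem mm_half (H : Mov c0 g) (n : ℕ) (j : ℕ) : ∀ (t : ℝ) (p q : X), 0 < t → t / 2 ^ j ≤ ht p →
    t ≤ ht q → dist p q ≤ n * (t / 80) → (c0 ^ n) ^ (j + 1) * mm g q ≤ mm g p := by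
  induction j with
  | zero =>
    intro t p q _ hp hq hd
    simpa using mm_seg H n p q (by simpa using hp) hq hd
  | succ j ih =>
    intro t p q ht0 hp hq hd
    set q' := seg p q (1 / 2) (by norm_num) (by norm_num)
    have a1 : t / 2 ≤ ht q' := by
      have := ht_seg p q (1 / 2) (by norm_num) (by norm_num)
      linarith [ht_pos p]
    have a2 := ih (t / 2) p q' (by positivity) (by rw [div_div, ← pow_succ']; exact hp) a1
      (by rw [dist_comm, dist_seg_left]; linarith)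
    have a3 := mm_seg H (t := t / 2) n q' q a1 (by linarith)
      (by rw [dist_seg_right]; linarith)
    calc (c0 ^ n) ^ (j + 1 + 1) * mm g q = (c0 ^ n) ^ (j + 1) * (c0 ^ n * mm g q) := by ring
      _ ≤ (c0 ^ n) ^ (j + 1) * mm g q' := mul_le_mul_right a3 _
      _ ≤ _ := a2

theorem hc_of_mov {ι : Type} [Fintype ι] (ch : Chain X ht ι) {c : ℝ} (hc0 : 0 < c) (hc1 : c ≤ 1)
    (H : ∀ A, Mov (ENNReal.ofReal c) (ch.hit A)) :
    ch.HC fun y => closedBall y (ht y / 100) := by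
  intro L hL
  obtain ⟨n, hn⟩ := exists_nat_ge (80 * L)
  refine ⟨(1 / c) ^ n, one_le_pow₀ (by rw [le_div_iff₀ hc0]; linarith), fun y z j h1 h2 => ?_⟩
  have hy := ht_pos y
  have a1 := mm_half (H (closedBall y (ht y / 100))) n j (ht y) z y hy h1 le_rfl (by nlinarith)
  have a2 : 1 ≤ mm (ch.hit (closedBall y (ht y / 100))) y :=
    le_iInf₂ fun z' hz' => (ch.hit_mem hz').ge
  have a3 := mm_le (ch.hit (closedBall y (ht y / 100))) (p := z) (z := z)
    (by rw [dist_self]; linarith [ht_pos z])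
  have a4 : ENNReal.ofReal ((1 / c) ^ n) * ENNReal.ofReal c ^ n = 1 := by
    rw [← ENNReal.ofReal_pow hc0.le, ← ENNReal.ofReal_mul (by positivity), ← mul_pow,
      one_div_mul_cancel hc0.ne', one_pow, ENNReal.ofReal_one]
  calc (1 : ℝ≥0∞) = ENNReal.ofReal ((1 / c) ^ n) ^ (j + 1) *
        ((ENNReal.ofReal c ^ n) ^ (j + 1) * 1) := by rw [mul_one, ← mul_pow, a4, one_pow]
    _ ≤ _ := mul_le_mul_right (((mul_le_mul_right a2 _).trans a1).trans a3) _

end harnack

end Pool.Agent.MP_16e930_an.H98
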