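import Mathlib

set_option autoImplicit false
open Filter Topology MeasureTheory

namespace Pool.Agent.MP_16e930_an.H98

noncomputable def aa (M s : ℝ) : ℝ := max (1 / max s 1 - 1 / M) 0

noncomputable def bb (M s : ℝ) : ℝ := aa M s / max s 1 ^ 2

noncomputable def Ps (M s : ℝ) : ℝ := ∫ t in M..s, aa M t

noncomputable def ps (M s : ℝ) : ℝ := ∫ t in M..s, bb M t

theorem max_pos' (s : ℝ) : 0 < max s 1 := lt_of_lt_of_le one_pos (le_max_right _ _)

@[fun_prop] theorem continuous_aa (M : ℝ) : Continuous (aa M) := by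
  unfold aa
  exact ((continuous_const.div (continuous_id.max continuous_const)
    fun s => (max_pos' s).ne').sub continuous_const).max continuous_const

@[fun_prop] theorem continuous_bb (M : ℝ) : Continuous (bb M) :=
  (continuous_aa M).div ((continuous_id.max continuous_const).pow 2)
    fun s => pow_ne_zero 2 (max_pos' s).ne'

theorem aa_nonneg (M s : ℝ) : 0 ≤ aa M s := le_max_right _ _

theorem aa_le {M : ℝ} (hM : 0 < M) (s : ℝ) : aa M s ≤ 1 / max s 1 :=
  max_le (by have : 0 < 1 / M := by positivity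
             linarith) (by have := max_pos' s; positivity)

theorem aa_le_one {M : ℝ} (hM : 0 < M) (s : ℝ) : aa M s ≤ 1 :=
  (aa_le hM s).trans ((div_le_one (max_pos' s)).2 (le_max_right _ _))

theorem aa_eq_zero {M s : ℝ} (hM : 0 < M) (hs : M ≤ s) : aa M s = 0 := by
  refine max_eq_right (sub_nonpos.2 ?_)
  exact one_div_le_one_div_of_le hM (hs.trans (le_max_left _ _))

theorem aa_eq {M s : ℝ} (h1 : 1 ≤ s) (hs : s ≤ M) : aa M s = 1 / s - 1 / M := by
  unfold aa
  rw [max_eq_left h1, max_eq_left]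
  exact sub_nonneg.2 (one_div_le_one_div_of_le (by linarith) hs)

theorem bb_nonneg (M s : ℝ) : 0 ≤ bb M s := div_nonneg (aa_nonneg M s) (by positivity)

theorem aa_cube_le {M : ℝ} (hM : 0 < M) (s : ℝ) : aa M s ^ 3 ≤ bb M s := by
  have h0 := aa_nonneg M s
  have h1 := aa_le hM s
  have h2 := max_pos' s
  calc aa M s ^ 3 = aa M s * aa M s ^ 2 := by ring
    _ ≤ aa M s * (1 / max s 1) ^ 2 := by gcongr
    _ = bb M s := by unfold bb; field_simp

theorem hasDerivAt_Ps (M s : ℝ) : HasDerivAt (Ps M) (aa M s) s :=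
  ((continuous_aa M).integral_hasStrictDerivAt M s).hasDerivAt

theorem hasDerivAt_ps (M s : ℝ) : HasDerivAt (ps M) (bb M s) s :=
  ((continuous_bb M).integral_hasStrictDerivAt M s).hasDerivAt

theorem contDiff_of_hasDerivAt {g g' : ℝ → ℝ} (h : ∀ s, HasDerivAt g (g' s) s)
    (hc : Continuous g') : ContDiff ℝ 1 g := by
  rw [contDiff_one_iff_deriv]
  refine ⟨fun s => (h s).differentiableAt, ?_⟩
  have : deriv g = g' := funext fun s => (h s).deriv
  rwa [this]

theorem contDiff_Ps (M : ℝ) : ContDiff ℝ 1 (Ps M) :=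
  contDiff_of_hasDerivAt (hasDerivAt_Ps M) (continuous_aa M)

theorem contDiff_ps (M : ℝ) : ContDiff ℝ 1 (ps M) :=
  contDiff_of_hasDerivAt (hasDerivAt_ps M) (continuous_bb M)

@[fun_prop] theorem continuous_Ps (M : ℝ) : Continuous (Ps M) := (contDiff_Ps M).continuous

@[fun_prop] theorem continuous_ps (M : ℝ) : Continuous (ps M) := (contDiff_ps M).continuous

theorem Ps_eq_zero {M s : ℝ} (hM : 0 < M) (hs : M ≤ s) : Ps M s = 0 := by
  unfold Ps
  rw [intervalIntegral.integral_congr (g := fun _ => 0) fun t ht => ?_]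
  · simp
  · rw [Set.uIcc_of_le hs] at ht
    exact aa_eq_zero hM ht.1

theorem ps_eq_zero {M s : ℝ} (hM : 0 < M) (hs : M ≤ s) : ps M s = 0 := by
  unfold ps
  rw [intervalIntegral.integral_congr (g := fun _ => 0) fun t ht => ?_]
  · simp
  · rw [Set.uIcc_of_le hs] at ht
    simp [bb, aa_eq_zero hM ht.1]

theorem Ps_eq {M s : ℝ} (h1 : 1 ≤ s) (hs : s ≤ M) :
    Ps M s = Real.log (s / M) - (s / M - 1) := by
  have hM : 0 < M := by linarith
  have e := intervalIntegral.integral_eq_sub_of_hasDerivAt (a := M) (b := s)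
    (f := fun t => Real.log t - t / M) (f' := aa M) (fun t ht => by
      rw [Set.uIcc_of_ge hs] at ht
      have := (Real.hasDerivAt_log (x := t) (by linarith [ht.1])).sub
        ((hasDerivAt_id t).div_const M)
      rw [aa_eq (by linarith [ht.1]) ht.2, one_div t]
      exact this) ((continuous_aa M).intervalIntegrable _ _)
  unfold Ps
  rw [e, Real.log_div (by linarith) hM.ne', div_self hM.ne']; ring

theorem ps_eq {M s : ℝ} (h1 : 1 ≤ s) (hs : s ≤ M) : ps M s = -(1 / s - 1 / M) ^ 2 / 2 := by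
  have hM : 0 < M := by linarith
  have e := intervalIntegral.integral_eq_sub_of_hasDerivAt (a := M) (b := s)
    (f := fun t => -(t⁻¹ - 1 / M) ^ 2 / 2) (f' := bb M) (fun t ht => by
      rw [Set.uIcc_of_ge hs] at ht
      have ht0 : t ≠ 0 := by linarith [ht.1]
      have := ((((hasDerivAt_inv ht0).sub_const (1 / M)).pow 2).neg).div_const 2
      refine this.congr_deriv ?_
      unfold bb
      rw [aa_eq (by linarith [ht.1]) ht.2, max_eq_left (by linarith [ht.1])]
      simp only [Nat.add_one_sub_one, pow_one, Nat.cast_ofNat, one_div]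
      ring) ((continuous_bb M).intervalIntegrable _ _)
  unfold ps
  rw [e]
  simp

theorem abs_ps_le {M s : ℝ} (hM : 0 < M) (h1 : 1 ≤ s) : |ps M s| ≤ aa M s ^ 2 := by
  rcases le_total s M with hs | hs
  · rw [ps_eq h1 hs, aa_eq h1 hs, abs_le]
    constructor <;> nlinarith [sq_nonneg (1 / s - 1 / M)]
  · rw [ps_eq_zero hM hs]; simpa using sq_nonneg _

theorem le_of_Ps_eq_zero {M s : ℝ} (h1 : 1 ≤ s) (h : Ps M s = 0) : M ≤ s := by
  by_contra hcon
  have hs : s < M := not_le.1 hcon
  have hM : 0 < M := by linarith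
  rw [Ps_eq h1 hs.le] at h
  have := Real.log_lt_sub_one_of_pos (x := s / M) (by positivity)
    (ne_of_lt ((div_lt_one hM).2 hs))
  linarith

theorem le_of_Ps_ge {M s L : ℝ} (hM : 0 < M) (h1 : 1 ≤ s) (hL : 0 ≤ L) (h : -L ≤ Ps M s) :
    Real.exp (-(L + 1)) * M ≤ s := by
  rcases le_total s M with hs | hs
  · rw [Ps_eq h1 hs] at h
    have h2 : 0 < s / M := by positivity
    have h3 : -(L + 1) ≤ Real.log (s / M) := by linarith
    rw [← le_div_iff₀ hM]
    exact (Real.le_log_iff_exp_le h2).1 h3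
  · have : Real.exp (-(L + 1)) ≤ 1 := Real.exp_le_one_iff.2 (by linarith)
    nlinarith

theorem Ps_lip {M : ℝ} (hM : 0 < M) (s t : ℝ) : |Ps M s - Ps M t| ≤ |s - t| := by
  have := Convex.norm_image_sub_le_of_norm_hasDerivWithin_le (f := Ps M) (f' := aa M)
    (s := Set.univ) (C := 1) (fun x _ => (hasDerivAt_Ps M x).hasDerivWithinAt)
    (fun x _ => by rw [Real.norm_of_nonneg (aa_nonneg M x)]; exact aa_le_one hM x)
    convex_univ (Set.mem_univ t) (Set.mem_univ s)
  simpa using this

end Pool.Agent.MP_16e930_an.H98
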