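import Pool.Agent.MP_16e930_an.H98.Null
import Pool.Agent.MP_16e930_an.H98.Fun

set_option autoImplicit false
open scoped ENNReal RealInnerProductSpace
open Metric Filter Topology MeasureTheory

namespace Pool.Agent.MP_16e930_an.H98

theorem bdd {c : E × E → ℝ} (hc : Continuous c) :
    ∃ C : ℝ, 0 ≤ C ∧ ∀ x ∈ closedBall (0 : E) 1, ∀ y : E, ‖y‖ ≤ 3 → |c (x, y)| ≤ C := by
  obtain ⟨C, hC⟩ := ((isCompact_closedBall (0 : E) 1).prod
    (isCompact_closedBall (0 : E) 3)).exists_bound_of_continuousOn hc.continuousOn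
  exact ⟨max C 0, le_max_right _ _, fun x hx y hy =>
    (hC (x, y) ⟨hx, mem_closedBall_zero_iff.2 hy⟩).trans (le_max_left _ _)⟩

theorem le_cube (a : ℝ) (ha : 0 ≤ a) : a ≤ 1 + a ^ 3 ∧ a ^ 2 ≤ 1 + a ^ 3 := by
  have a2 : 0 ≤ (a - 1) ^ 2 * (a + 2) := by positivity
  have a3 : 0 ≤ (a - 1) ^ 2 * (2 * a + 1) := by positivity
  constructor <;> nlinarith [pow_nonneg ha 3]

theorem hasFDerivAt_comp_inner {F : E → E} {x : E} (hF : DifferentiableAt ℝ F x) (e : E) (m : ℝ)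
    {g : ℝ → ℝ} {g' : ℝ} (hg : HasDerivAt g g' (⟪e, F x⟫ - m)) :
    HasFDerivAt (fun x => g (⟪e, F x⟫ - m)) (g' • (innerSL ℝ e).comp (fderiv ℝ F x)) x := by
  have h1 : HasFDerivAt (fun x => ⟪e, F x⟫ - m) ((innerSL ℝ e).comp (fderiv ℝ F x)) x :=
    ((innerSL ℝ e).hasFDerivAt.comp x hF.hasFDerivAt).sub_const m
  exact hg.comp_hasFDerivAt x h1

theorem contDiff_comp_inner {F : E → E} (hF : ContDiff ℝ 2 F) (e : E) (m : ℝ) {g : ℝ → ℝ}
    (hg : ContDiff ℝ 1 g) : ContDiff ℝ 1 fun x => g (⟪e, F x⟫ - m) :=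
  hg.comp ((((innerSL ℝ e).contDiff.comp (hF.of_le (by norm_num)))).sub contDiff_const)

theorem norm_inner_comp_le (e : E) (A : E →L[ℝ] E) : ‖(innerSL ℝ e).comp A‖ ≤ ‖e‖ * ‖A‖ := by
  simpa using (innerSL ℝ e).opNorm_comp_le A

theorem QR.weak_null {f : E → E} {Df : E → E →L[ℝ] E} {K : ℝ} (Q : QR f Df K) {r : ℝ}
    (hr : r < 1) {θ : E → ℝ} (hθ : ContDiff ℝ 1 θ) (hθs : tsupport θ ⊆ closedBall 0 r)
    (e : E) (m M : ℝ) :
    IntegrableOn (fun x => θ x * bb M (⟪e, f x⟫ - m) * Om ((innerSL ℝ e).comp (Df x)) (Df x) e +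
      ps M (⟪e, f x⟫ - m) * Om (fderiv ℝ θ x) (Df x) e) (closedBall 0 r) ∧
    ∫ x in closedBall 0 r, (θ x * bb M (⟪e, f x⟫ - m) * Om ((innerSL ℝ e).comp (Df x)) (Df x) e +
      ps M (⟪e, f x⟫ - m) * Om (fderiv ℝ θ x) (Df x) e) = 0 := by
  obtain ⟨F, hF, -, hconv⟩ := Q.approx hr
  have hθc := hθ.continuous
  have hθd := hθ.continuous_fderiv one_ne_zero
  obtain ⟨C1, hC1, hC1'⟩ := bdd (c := fun p => θ p.1 * bb M (⟪e, p.2⟫ - m)) (by fun_prop)
  obtain ⟨C2, hC2, hC2'⟩ := bdd (c := fun p => ps M (⟪e, p.2⟫ - m) * ‖fderiv ℝ θ p.1‖)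
    (by fun_prop)
  obtain ⟨h1, h2⟩ := hconv (fun p => θ p.1 * bb M (⟪e, p.2.1⟫ - m) *
      Om ((innerSL ℝ e).comp p.2.2) p.2.2 e + ps M (⟪e, p.2.1⟫ - m) * Om (fderiv ℝ θ p.1) p.2.2 e)
    (closedBall 0 r) (C1 * (18 * ‖e‖ ^ 2) + C2 * (18 * ‖e‖))
    (Continuous.add (Continuous.mul (by fun_prop) (continuous_Om (by fun_prop) (by fun_prop) e))
      (Continuous.mul (by fun_prop) (continuous_Om (by fun_prop) (by fun_prop) e)))
    measurableSet_closedBall subset_rfl (fun x hx y A hy => by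
      have hx' := closedBall_subset_closedBall hr.le hx
      have a1 := hC1' x hx' y hy
      have a2 := hC2' x hx' y hy
      simp only [abs_mul, abs_norm] at a1 a2
      refine (abs_add_le _ _).trans ?_
      simp only [abs_mul]
      have hA := norm_nonneg A
      have he := norm_nonneg e
      have b1 : |Om ((innerSL ℝ e).comp A) A e| ≤ 18 * ‖e‖ ^ 2 * (1 + ‖A‖ ^ 3) := by
        refine (abs_Om_le _ _ _).trans ?_
        calc 18 * ‖e‖ * ‖(innerSL ℝ e).comp A‖ * ‖A‖ ^ 2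
            ≤ 18 * ‖e‖ * (‖e‖ * ‖A‖) * ‖A‖ ^ 2 := by gcongr; exact norm_inner_comp_le e A
          _ = 18 * ‖e‖ ^ 2 * ‖A‖ ^ 3 := by ring
          _ ≤ _ := by gcongr; linarith
      have b2 : |ps M (⟪e, y⟫ - m)| * |Om (fderiv ℝ θ x) A e| ≤
          C2 * (18 * ‖e‖) * (1 + ‖A‖ ^ 3) := by
        calc |ps M (⟪e, y⟫ - m)| * |Om (fderiv ℝ θ x) A e|
            ≤ |ps M (⟪e, y⟫ - m)| * (18 * ‖e‖ * ‖fderiv ℝ θ x‖ * ‖A‖ ^ 2) := by
              gcongr; exact abs_Om_le _ _ _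
          _ = (|ps M (⟪e, y⟫ - m)| * ‖fderiv ℝ θ x‖) * (18 * ‖e‖) * ‖A‖ ^ 2 := by ring
          _ ≤ _ := by gcongr; exact (le_cube _ hA).2
      have b3 : |θ x| * |bb M (⟪e, y⟫ - m)| * |Om ((innerSL ℝ e).comp A) A e| ≤
          C1 * (18 * ‖e‖ ^ 2 * (1 + ‖A‖ ^ 3)) := by gcongr
      nlinarith)
  refine ⟨h1, tendsto_nhds_unique h2 ?_⟩
  refine tendsto_const_nhds.congr fun n => ?_
  have hθcs : HasCompactSupport θ :=
    (isCompact_closedBall 0 r).of_isClosed_subset (isClosed_tsupport _) hθs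
  have h3 := null (g := fun x => θ x * ps M (⟪e, F n x⟫ - m))
    (hθ.mul (contDiff_comp_inner (hF n) e m (contDiff_ps M))) hθcs.mul_right (hF n) e
  rw [← h3, setIntegral_eq_integral_of_forall_compl_eq_zero]
  · refine integral_congr_ae (Eventually.of_forall fun x => ?_)
    have h4 : HasFDerivAt (fun x => θ x * ps M (⟪e, F n x⟫ - m)) _ x :=
      (hθ.differentiable one_ne_zero x).hasFDerivAt.mul
        (hasFDerivAt_comp_inner ((hF n).differentiable (by norm_num) x) e m (hasDerivAt_ps M _))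
    simp only [h4.fderiv, smul_smul, Om_add_smul]
  · intro x hx
    have hx' : x ∉ tsupport θ := fun h => hx (hθs h)
    simp [image_eq_zero_of_notMem_tsupport hx', fderiv_of_notMem_tsupport ℝ hx', Om, D3]

theorem young3 {x y : ℝ} (hx : 0 ≤ x) (hy : 0 ≤ y) : x ^ 2 * y ≤ x ^ 3 / 2 + y ^ 3 := by
  have : 0 ≤ (x - 4 / 3 * y) ^ 2 * (x + 2 / 3 * y) := by positivity
  nlinarith [pow_nonneg hy 3]

theorem QR.cacc {f : E → E} {Df : E → E →L[ℝ] E} {K : ℝ} (Q : QR f Df K) {r : ℝ}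
    (hr : r < 1) {φ : E → ℝ} (hφ : ContDiff ℝ 1 φ) (hφ0 : ∀ x, 0 ≤ φ x)
    (hφs : tsupport φ ⊆ closedBall 0 r) (e : E) (m : ℝ) {M : ℝ} (hM : 0 < M)
    (hu : ∀ x ∈ tsupport φ, 1 ≤ ⟪e, f x⟫ - m) {w : E → ℝ} (hw : IntegrableOn w (closedBall 0 r))
    (hw0 : ∀ x, 0 ≤ w x)
    (hw' : ∀ x ∈ closedBall 0 r, aa M (⟪e, f x⟫ - m) ≠ 0 → ‖fderiv ℝ φ x‖ ^ 3 ≤ w x) :
    IntegrableOn (fun x => (φ x * aa M (⟪e, f x⟫ - m) * ‖e‖ * ‖Df x‖) ^ 3) (closedBall 0 r) ∧
    ∫ x in closedBall 0 r, (φ x * aa M (⟪e, f x⟫ - m) * ‖e‖ * ‖Df x‖) ^ 3 ≤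
      2 * (54 * |K|) ^ 3 * ∫ x in closedBall 0 r, w x := by
  have hint : IntegrableOn (fun x => (φ x * aa M (⟪e, f x⟫ - m) * ‖e‖ * ‖Df x‖) ^ 3)
      (closedBall 0 r) := by
    obtain ⟨F, -, -, hconv⟩ := Q.approx hr
    have hφc := hφ.continuous
    obtain ⟨C1, hC1, hC1'⟩ := bdd (c := fun p => (φ p.1 * aa M (⟪e, p.2⟫ - m) * ‖e‖) ^ 3)
      (by fun_prop)
    exact (hconv (fun p => (φ p.1 * aa M (⟪e, p.2.1⟫ - m) * ‖e‖ * ‖p.2.2‖) ^ 3) (closedBall 0 r)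
      C1 (by fun_prop) measurableSet_closedBall subset_rfl (fun x hx y A hy => by
        have a1 := hC1' x (closedBall_subset_closedBall hr.le hx) y hy
        simp only at a1 ⊢
        rw [mul_pow, abs_mul, abs_of_nonneg (pow_nonneg (norm_nonneg A) 3)]
        gcongr
        linarith)).1
  refine ⟨hint, ?_⟩
  have hts : tsupport (fun x => φ x ^ 3) ⊆ tsupport φ :=
    closure_mono fun x hx h => hx (by simp [h])
  obtain ⟨h1, h2⟩ := Q.weak_null hr (θ := fun x => φ x ^ 3) (hφ.pow 3) (hts.trans hφs) e m M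
  have hae : ∀ᵐ x ∂(volume.restrict (closedBall (0 : E) r)),
      (φ x * aa M (⟪e, f x⟫ - m) * ‖e‖ * ‖Df x‖) ^ 3 ≤
      2 * (K * ‖e‖) * (φ x ^ 3 * bb M (⟪e, f x⟫ - m) * Om ((innerSL ℝ e).comp (Df x)) (Df x) e +
        ps M (⟪e, f x⟫ - m) * Om (fderiv ℝ (fun x => φ x ^ 3) x) (Df x) e) +
      2 * (54 * |K|) ^ 3 * w x := by
    filter_upwards [ae_restrict_of_ae_restrict_of_subset (closedBall_subset_ball hr) Q.dist,
      ae_restrict_mem measurableSet_closedBall] with x hd hx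
    have hD : fderiv ℝ (fun x => φ x ^ 3) x = (3 * φ x ^ 2) • fderiv ℝ φ x + (0 : ℝ) • 0 := by
      have := ((hφ.differentiable one_ne_zero x).hasFDerivAt.pow 3).fderiv
      simpa using this
    rw [hD, Om_add_smul, Om_self, zero_mul, add_zero]
    have hw1 := hw0 x
    by_cases hxs : x ∈ tsupport φ
    · set s := ⟪e, f x⟫ - m
      set J := LinearMap.det (Df x).toLinearMap
      set a := aa M s with ha
      set d := ‖fderiv ℝ φ x‖
      set n := ‖Df x‖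
      set p := φ x
      have p0 : 0 ≤ p := hφ0 x
      have a0 : 0 ≤ a := aa_nonneg M s
      have n0 : 0 ≤ n := norm_nonneg _
      have d0 : 0 ≤ d := norm_nonneg _
      have e0 := norm_nonneg e
      have c1 : (p * a * ‖e‖ * n) ^ 3 ≤ K * ‖e‖ * (p ^ 3 * bb M s * (‖e‖ ^ 2 * J)) := by
        calc (p * a * ‖e‖ * n) ^ 3 = p ^ 3 * ‖e‖ ^ 3 * (a ^ 3 * n ^ 3) := by ring
          _ ≤ p ^ 3 * ‖e‖ ^ 3 * (bb M s * (K * J)) := by
              gcongr
              · exact bb_nonneg M s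
              · exact aa_cube_le hM s
          _ = _ := by ring
      have c2 : |K * ‖e‖ * (ps M s * (3 * p ^ 2 * Om (fderiv ℝ φ x) (Df x) e))| ≤
          (p * a * ‖e‖ * n) ^ 2 * (54 * |K| * d) := by
        simp only [abs_mul, abs_norm, abs_pow, abs_of_nonneg p0]
        calc |K| * ‖e‖ * (|ps M s| * (|3| * p ^ 2 * |Om (fderiv ℝ φ x) (Df x) e|))
            ≤ |K| * ‖e‖ * (a ^ 2 * (|3| * p ^ 2 * (18 * ‖e‖ * d * n ^ 2))) := by
              gcongr
              · exact abs_ps_le hM (hu x hxs)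
              · exact abs_Om_le _ _ _
          _ = _ := by rw [abs_of_pos (by norm_num : (0 : ℝ) < 3)]; ring
      have c3 : (p * a * ‖e‖ * n) ^ 2 * (54 * |K| * d) ≤
          (p * a * ‖e‖ * n) ^ 3 / 2 + (54 * |K|) ^ 3 * w x := by
        by_cases ha0 : a = 0
        · rw [ha0]
          have : 0 ≤ (54 * |K|) ^ 3 * w x := by positivity
          simpa using this
        · refine (young3 (by positivity) (by positivity)).trans ?_
          rw [mul_pow (54 * |K|) d]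
          gcongr
          exact hw' x hx ha0
      linarith [neg_abs_le (K * ‖e‖ * (ps M s * (3 * p ^ 2 * Om (fderiv ℝ φ x) (Df x) e)))]
    · have : 0 ≤ 2 * (54 * |K|) ^ 3 * w x := by positivity
      simpa [image_eq_zero_of_notMem_tsupport hxs] using this
  refine (integral_mono_ae hint ((h1.const_mul _).add (hw.const_mul _)) hae).trans ?_
  rw [integral_add' (h1.const_mul _) (hw.const_mul _), integral_const_mul, integral_const_mul, h2]
  simp

end Pool.Agent.MP_16e930_an.H98
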