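import Pool.Agent.MP_16e930_an.H98.Build

set_option autoImplicit false
open scoped ENNReal RealInnerProductSpace
open Metric Filter Topology

namespace Pool.Agent.MP_16e930_an.H98

theorem exists_net : ∃ V : Finset E, (∀ v ∈ V, ‖v‖ ≤ 1) ∧
    ∀ w : E, ‖w‖ ≤ 1 → ∃ v ∈ V, dist w v < 1 / 10 := by
  obtain ⟨t, ht1, ht2, ht3⟩ := finite_cover_balls_of_compact (isCompact_closedBall (0 : E) 1)
    (e := 1 / 10) (by norm_num)
  refine ⟨ht2.toFinset, fun v hv => ?_, fun w hw => ?_⟩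
  · exact mem_closedBall_zero_iff.1 (ht1 (ht2.mem_toFinset.1 hv))
  · obtain ⟨v, hv, hv'⟩ : ∃ v ∈ t, w ∈ ball v (1 / 10) := by
      simpa using ht3 (mem_closedBall_zero_iff.2 hw)
    exact ⟨v, ht2.mem_toFinset.2 hv, hv'⟩

theorem near_mem (x : X) {z : E} (hz : dist z x ≤ ht x / 20) : z ∈ ball (0 : E) 1 := by
  rw [mem_ball_zero_iff]
  have h1 := norm_le_norm_add_norm_sub' z x
  rw [← dist_eq_norm] at h1
  have := ht_pos x
  unfold ht at *
  linarith

noncomputable def NN (ζ : sphere (0 : E) 1) : Filter X := comap Subtype.val (𝓝 (ζ : E))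

theorem mem_NN {ζ : sphere (0 : E) 1} {S : Set X} :
    S ∈ NN ζ ↔ ∃ r : ℝ, 0 < r ∧ ∀ z : X, dist (z : E) ζ < r → z ∈ S := by
  unfold NN
  rw [(nhds_basis_ball.comap Subtype.val).mem_iff]
  rfl

theorem ht_le_dist (ζ : sphere (0 : E) 1) (z : X) : ht z ≤ dist (z : E) ζ := by
  have h1 := norm_le_norm_add_norm_sub' (ζ : E) z
  rw [← dist_eq_norm, dist_comm, mem_sphere_zero_iff_norm.1 ζ.2] at h1
  unfold ht
  linarith

theorem NN_compact (T : Set X) (hT : ∀ ζ, T ∈ NN ζ) :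
    ∃ H : ℝ, 0 < H ∧ ∀ x, ht x < H → x ∈ T := by
  choose r hr hr' using fun ζ => mem_NN.1 (hT ζ)
  obtain ⟨δ, hδ, hδ'⟩ := (isCompact_sphere (0 : E) 1).exists_thickening_subset_open
    (t := ⋃ ζ : sphere (0 : E) 1, ball (ζ : E) (r ζ)) (isOpen_iUnion fun _ => isOpen_ball)
    (fun ζ hζ => Set.mem_iUnion.2 ⟨⟨ζ, hζ⟩, mem_ball_self (hr _)⟩)
  refine ⟨δ, hδ, fun x hx => ?_⟩
  obtain ⟨z, hz, hz'⟩ := exists_norm_eq (x : E) (ρ := 1) x.norm_lt.le
  have : (x : E) ∈ thickening δ (sphere (0 : E) 1) :=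
    mem_thickening_iff.2 ⟨z, mem_sphere_zero_iff_norm.2 hz, by rw [dist_comm, hz']; exact hx⟩
  obtain ⟨ζ, hζ⟩ := Set.mem_iUnion.1 (hδ' this)
  exact hr' ζ x hζ

theorem ray_point (ζ : sphere (0 : E) 1) {p : E → Prop}
    (hp : ∃ᶠ t in 𝓝[<] (1 : ℝ), p (t • (ζ : E))) {η : ℝ} (hη : 0 < η) :
    ∃ y : X, p y ∧ ht y ≤ η ∧ closedBall y (2 * ht y) ∈ NN ζ := by
  have h1 : ∀ᶠ t in 𝓝[<] (1 : ℝ), t ∈ Set.Ioo (max 0 (1 - η)) 1 :=
    Ioo_mem_nhdsLT (max_lt one_pos (by linarith))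
  obtain ⟨t, ht1, ht2, ht3⟩ := (hp.and_eventually h1).exists
  have t0 : 0 < t := lt_of_le_of_lt (le_max_left _ _) ht2
  have t1 : 1 - η < t := lt_of_le_of_lt (le_max_right _ _) ht2
  have hζ := mem_sphere_zero_iff_norm.1 ζ.2
  have hn : ‖t • (ζ : E)‖ = t := by rw [norm_smul, hζ, Real.norm_of_nonneg t0.le, mul_one]
  have hd : dist (ζ : E) (t • (ζ : E)) = 1 - t := by
    rw [dist_eq_norm]
    have : (ζ : E) - t • (ζ : E) = (1 - t) • (ζ : E) := by module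
    rw [this, norm_smul, hζ, Real.norm_of_nonneg (by linarith), mul_one]
  refine ⟨⟨t • (ζ : E), mem_ball_zero_iff.2 (by rw [hn]; exact ht3)⟩, ht1, ?_, ?_⟩
  · simp only [ht, hn]; linarith
  · refine mem_NN.2 ⟨1 - t, by linarith, fun z hz => ?_⟩
    rw [mem_closedBall, Subtype.dist_eq]
    simp only [ht, hn]
    linarith [dist_triangle (z : E) ζ (t • (ζ : E))]

theorem radial {f : E → E} {c : ℝ} (G : Good f c) :
    ∃ ξ ∈ sphere (0 : E) 1, ∃ L : E, Tendsto (fun t : ℝ => f (t • ξ)) (𝓝[<] (1 : ℝ)) (𝓝 L) := by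
  classical
  obtain ⟨V, hV1, hV2⟩ := exists_net
  have hcb : ∀ x : X, closedBall (x : E) (ht x / 20) ⊆ ball 0 1 := fun x z hz => near_mem x hz
  have hci : ∀ i : Fin 3, ContinuousOn (fun z => f z i) (ball 0 1) := fun i =>
    (EuclideanSpace.proj (𝕜 := ℝ) i).continuous.comp_continuousOn G.cont
  have hne : ∀ x : X, (closedBall (x : E) (ht x / 20)).Nonempty := fun x =>
    ⟨x, mem_closedBall_self (by linarith [ht_pos x])⟩
  choose lo hlo hlo' using fun (x : X) (i : Fin 3) =>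
    (isCompact_closedBall (x : E) (ht x / 20)).exists_isMinOn (hne x) ((hci i).mono (hcb x))
  choose hi hhi hhi' using fun (x : X) (i : Fin 3) =>
    (isCompact_closedBall (x : E) (ht x / 20)).exists_isMaxOn (hne x) ((hci i).mono (hcb x))
  have hmvV : ∀ (x : X) (v : V), dist ((x : E) + (ht x / 20) • (v : E)) x ≤ ht x / 20 := by
    intro x v
    have := ht_pos x
    rw [dist_eq_norm, add_sub_cancel_left, norm_smul, Real.norm_of_nonneg (by linarith)]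
    exact mul_le_of_le_one_right (by linarith) (hV1 v v.2)
  let mv : X → V ⊕ Fin 3 ⊕ Fin 3 → X := fun x => Sum.elim
    (fun v => ⟨x + (ht x / 20) • (v : E), near_mem x (hmvV x v)⟩)
    (Sum.elim (fun i => ⟨lo x i, hcb x (hlo x i)⟩) fun i => ⟨hi x i, hcb x (hhi x i)⟩)
  have : Nonempty (V ⊕ Fin 3 ⊕ Fin 3) := ⟨Sum.inr (Sum.inl 0)⟩
  obtain ⟨ch, hR, hharm, c0, hc0, hc1, hP⟩ := exists_chain G mv (by
    rintro x (v | i | i)
    · exact hmvV x v
    · exact hlo x i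
    · exact hhi x i)
  have hHC := hc_of_mov ch hc0 hc1 fun A z p hp => by
    have hz := ht_pos z
    obtain ⟨v, hv, hv'⟩ := hV2 ((ht z / 20)⁻¹ • (p - z)) (by
      rw [norm_smul, Real.norm_of_nonneg (by positivity), ← dist_eq_norm,
        inv_mul_le_iff₀ (by positivity)]
      linarith)
    refine ⟨mv z (Sum.inl ⟨v, hv⟩), ?_, (hP _ z _).trans (ch.hit_super A z)⟩
    show dist ((z : E) + (ht z / 20) • v) p ≤ _
    rw [dist_eq_norm] at hv'
    have : (z : E) + (ht z / 20) • v - p = -((ht z / 20) • ((ht z / 20)⁻¹ • (p - z) - v)) := by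
      rw [smul_sub, smul_smul, mul_inv_cancel₀ (by positivity), one_smul]; abel
    rw [dist_eq_norm, this, norm_neg, norm_smul, Real.norm_of_nonneg (by positivity)]
    nlinarith
  have hN : ∀ ζ, ∀ S ∈ NN ζ, {x | ∀ i, ch.z x i ∈ S} ∈ NN ζ := by
    intro ζ S hS
    obtain ⟨r, hr, hr'⟩ := mem_NN.1 hS
    refine mem_NN.2 ⟨r / 6, by positivity, fun z hz i => hr' _ ?_⟩
    have h1 := ch.range z i
    rw [hR, Subtype.dist_eq] at h1
    linarith [ht_le_dist ζ z, dist_triangle (ch.z z i : E) z ζ]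
  have hbd : ∀ (x : E) (i : Fin 3), x ∈ ball (0 : E) 1 → |f x i| < 1 := fun x i hx =>
    lt_of_le_of_lt (by simpa using PiLp.norm_apply_le (f x) i) (mem_ball_zero_iff.1 (G.maps x hx))
  have hUU : ∀ y : X, ∀ z ∈ closedBall y (ht y / 100), dist z y ≤ ht y := fun y z hz =>
    (mem_closedBall.1 hz).trans (by linarith [ht_pos y])
  have hUU' : ∀ y : X, ∀ z ∈ closedBall y (ht y / 100),
      (y : E) ∈ closedBall (z : E) (ht z / 20) := fun y z hz => by
    have h1 := mem_closedBall.1 hz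
    have h2 := ht_lip y z
    rw [dist_comm] at h2
    rw [mem_closedBall, ← Subtype.dist_eq, dist_comm]
    linarith [ht_pos y]
  have hC0 : (ENNReal.ofReal c0)⁻¹ ≠ ⊤ := ENNReal.inv_ne_top.2 (by simpa using hc0)
  have hmov : ∀ (Y : Set X) (z : X) k, mv z k ∈ Y → 1 ≤ (ENNReal.ofReal c0)⁻¹ * ch.hit Y z := by
    intro Y z k hk
    have h1 := (hP (ch.hit Y) z k).trans (ch.hit_super Y z)
    rw [ch.hit_mem hk, mul_one] at h1
    calc (1 : ℝ≥0∞) = (ENNReal.ofReal c0)⁻¹ * ENNReal.ofReal c0 :=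
          (ENNReal.inv_mul_cancel (by simpa using hc0) ENNReal.ofReal_ne_top).symm
      _ ≤ _ := mul_le_mul_right h1 _
  by_contra hcon
  refine ch.not_cover NN (κ := Fin 3 × ℚ × ℚ)
    (fun k => {ζ | -1 < (k.2.2 : ℝ) ∧ (k.2.1 : ℝ) < k.2.2 ∧
      (∃ᶠ t in 𝓝[<] (1 : ℝ), f (t • (ζ : E)) k.1 < k.2.1) ∧
      ∃ᶠ t in 𝓝[<] (1 : ℝ), (k.2.2 : ℝ) < f (t • (ζ : E)) k.1})
    ⟨0, mem_ball_self one_pos⟩ ?_ ?_ NN_compact
  · rintro ⟨i, a, b⟩
    simp only
    set S : Set (sphere (0 : E) 1) := {ζ | -1 < (b : ℝ) ∧ (a : ℝ) < b ∧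
      (∃ᶠ t in 𝓝[<] (1 : ℝ), f (t • (ζ : E)) i < a) ∧
      ∃ᶠ t in 𝓝[<] (1 : ℝ), (b : ℝ) < f (t • (ζ : E)) i} with hS
    by_cases hab : -1 < (b : ℝ) ∧ (a : ℝ) < b
    · set F : X → ℝ≥0∞ := fun x => ENNReal.ofReal (f x i + 1) with hF
      have hF0 : ∀ x : X, 0 ≤ f x i + 1 := fun x => by
        linarith [(abs_lt.1 (hbd x i x.2)).1]
      have hPF : ∀ x, ch.P F x ≤ F x := fun x => by
        rw [hF, ch.P_ofReal hF0]
        refine le_of_eq (congrArg _ ?_)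
        have h1 := congrArg (fun v : E => v i) (hharm x)
        simp only [WithLp.ofLp_sum, Finset.sum_apply, WithLp.ofLp_smul, Pi.smul_apply,
          smul_eq_mul] at h1
        simp only [mul_add, mul_one, Finset.sum_add_distrib, ch.w1 x, h1]
      obtain ⟨C, hC, hC'⟩ := ch.om_le_hit NN hHC hUU (S := S) (Y0 := {y | f y i < a})
        (Y := {y | F y ≤ ENNReal.ofReal (a + 1)}) hC0
        (fun ζ hζ η hη => ray_point ζ (p := fun y => f y i < a) hζ.2.2.1 hη)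
        (fun y hy z hz => hmov _ z (Sum.inr (Sum.inl i)) (by
          refine ENNReal.ofReal_le_ofReal ?_
          have h1 : f (lo z i) i ≤ f y i := hlo' z i (hUU' y z hz)
          have h2 : f y i < a := hy
          show f (lo z i) i + 1 ≤ a + 1
          linarith))
      obtain ⟨D, hD, hD'⟩ := ch.om_le_hit NN hHC hUU (S := S) (Y0 := {y | (b : ℝ) < f y i})
        (Y := {y | ENNReal.ofReal (b + 1) ≤ F y}) hC0
        (fun ζ hζ η hη => ray_point ζ (p := fun y => (b : ℝ) < f y i) hζ.2.2.2 hη)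
        (fun y hy z hz => hmov _ z (Sum.inr (Sum.inr i)) (by
          refine ENNReal.ofReal_le_ofReal ?_
          have h1 : f y i ≤ f (hi z i) i := hhi' z i (hUU' y z hz)
          have h2 : (b : ℝ) < f y i := hy
          show b + 1 ≤ f (hi z i) i + 1
          linarith))
      exact ch.eq_zero_of_cross (ch.om_le_one NN S) (ch.om_sub NN hN S) hPF
        ((ENNReal.ofReal_lt_ofReal_iff (by linarith [hab.1])).2 (by linarith [hab.2]))
        ENNReal.ofReal_ne_top hC hD hC' hD' _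
    · refine le_antisymm (ch.om_le NN (g := fun _ => 0) ⟨fun x => (ch.P_const 0 x).le,
        fun ζ hζ => absurd ⟨hζ.1, hζ.2.1⟩ hab⟩ _) zero_le
  · intro ζ
    by_contra hno
    apply hcon
    have hev : ∀ᶠ t in 𝓝[<] (1 : ℝ), t • (ζ : E) ∈ ball (0 : E) 1 := by
      filter_upwards [Ioo_mem_nhdsLT (show (0 : ℝ) < 1 from one_pos)] with t ht'
      rw [mem_ball_zero_iff, norm_smul, mem_sphere_zero_iff_norm.1 ζ.2,
        Real.norm_of_nonneg ht'.1.le, mul_one]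
      exact ht'.2
    have hco : ∀ i : Fin 3, ∃ l : ℝ,
        Tendsto (fun t : ℝ => f (t • (ζ : E)) i) (𝓝[<] (1 : ℝ)) (𝓝 l) := by
      intro i
      refine tendsto_of_no_upcrossings (s := Set.range ((↑) : ℚ → ℝ)) Rat.denseRange_cast
        ?_ ?_ ?_
      · rintro _ ⟨a, rfl⟩ _ ⟨b, rfl⟩ hab ⟨h1, h2⟩
        refine hno ⟨(i, a, b), ?_, hab, h1, h2⟩
        obtain ⟨t, ht1, ht2⟩ := (h1.and_eventually hev).exists
        linarith [(abs_lt.1 (hbd _ i ht2)).1]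
      · exact ⟨1, eventually_map.2 (hev.mono fun t ht' => (abs_lt.1 (hbd _ i ht')).2.le)⟩
      · exact ⟨-1, eventually_map.2 (hev.mono fun t ht' => (abs_lt.1 (hbd _ i ht')).1.le)⟩
    choose l hl using hco
    refine ⟨ζ, ζ.2, WithLp.toLp 2 l, ?_⟩
    have h1 : Tendsto (fun t : ℝ => (f (t • (ζ : E))).ofLp) (𝓝[<] (1 : ℝ)) (𝓝 l) :=
      tendsto_pi_nhds.2 hl
    exact ((PiLp.continuous_toLp 2 _).tendsto l).comp h1

end Pool.Agent.MP_16e930_an.H98
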