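import Pool.Agent.MP_16e930_an.H98.Harnack
import Pool.Agent.MP_16e930_an.H98.Radial

set_option autoImplicit false
open scoped ENNReal RealInnerProductSpace
open Metric Filter Topology MeasureTheory

namespace Pool.Agent.MP_16e930_an.H98

theorem lemH0 (K : ℝ) : ∃ c : ℝ, 0 < c ∧ c ≤ 1 ∧ ∀ (f : E → E) (Df : E → E →L[ℝ] E), QR f Df K →
    ∀ (x : E) (T r1 r2 : ℝ) (e : E) (m M : ℝ), 0 < T → ‖x‖ < r1 → r1 < r2 → r2 < 1 → 0 ≤ M →
    (∀ z, dist z x ≤ 5 * T → ‖z‖ ≤ r2 → m ≤ ⟪e, f z⟫) →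
    (∀ z, dist z x ≤ 5 * T → ‖z‖ ≤ r2 → r1 ≤ ‖z‖ → m + M ≤ ⟪e, f z⟫) →
    (∀ t ∈ Set.Icc T (2 * T), ∃ b, OnCube x t b ∧ (r1 ≤ ‖b‖ ∨ m + M ≤ ⟪e, f b⟫)) →
    m + c * M ≤ ⟪e, f x⟫ := by
  obtain ⟨c, c0, c1, H⟩ := lemH K
  refine ⟨c, c0, c1, fun f Df Q x T r1 r2 e m M hT hx h12 h2 hM H1 H2 H3 => ?_⟩
  refine le_of_forall_pos_le_add fun ν hν => ?_
  have hi : 0 < ν⁻¹ := inv_pos.2 hν
  have hin : ∀ y : E, ⟪ν⁻¹ • e, y⟫ = ν⁻¹ * ⟪e, y⟫ := fun y => real_inner_smul_left _ _ _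
  have a := H f Df Q x T r1 r2 (ν⁻¹ • e) (ν⁻¹ * m - 1) (ν⁻¹ * M + 1) hT hx h12 h2 (by positivity)
    (fun z a1 a2 => by
      have := mul_le_mul_of_nonneg_left (H1 z a1 a2) hi.le
      rw [hin]; linarith)
    (fun z a1 a2 a3 => by
      have := mul_le_mul_of_nonneg_left (H2 z a1 a2 a3) hi.le
      rw [hin]; linarith)
    (fun t ht => by
      obtain ⟨b, hb, hb'⟩ := H3 t ht
      refine ⟨b, hb, hb'.imp id fun h => ?_⟩
      have := mul_le_mul_of_nonneg_left h hi.le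
      rw [hin]; linarith)
  rw [hin] at a
  have b := mul_le_mul_of_nonneg_left a hν.le
  have e1 : ν * (c * (ν⁻¹ * M + 1)) = c * M + c * ν := by field_simp
  have e2 : ν * (ν⁻¹ * ⟪e, f x⟫ - (ν⁻¹ * m - 1)) = ⟪e, f x⟫ - m + ν := by field_simp; ring
  rw [e1, e2] at b
  nlinarith [mul_pos c0 hν]

theorem exists_corner (x : E) {t : ℝ} (ht : 0 ≤ t) : ∃ b, OnCube x t b ∧ ‖x‖ + t ≤ ‖b‖ := by
  classical
  let b : E := WithLp.toLp 2 fun j => if 0 ≤ x j then x j + t else x j - t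
  have h1 : ∀ j, |b j - x j| = t := fun j => by
    show |(if 0 ≤ x j then x j + t else x j - t) - x j| = t
    split_ifs
    · rw [add_sub_cancel_left, abs_of_nonneg ht]
    · rw [sub_sub_cancel_left, abs_neg, abs_of_nonneg ht]
  have h2 : ∀ j, |b j| = |x j| + t := fun j => by
    show |(if 0 ≤ x j then x j + t else x j - t)| = |x j| + t
    split_ifs with h
    · rw [abs_of_nonneg h, abs_of_nonneg (by linarith)]
    · rw [abs_of_neg (not_le.1 h), abs_of_neg (by linarith [not_le.1 h])]; ring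
  refine ⟨b, ⟨fun j => (h1 j).le, 0, h1 0⟩, ?_⟩
  have n1 : ‖x‖ ^ 2 = |x 0| ^ 2 + |x 1| ^ 2 + |x 2| ^ 2 := by
    rw [EuclideanSpace.real_norm_sq_eq, Fin.sum_univ_three]; simp
  have n2 : ‖b‖ ^ 2 = |b 0| ^ 2 + |b 1| ^ 2 + |b 2| ^ 2 := by
    rw [EuclideanSpace.real_norm_sq_eq, Fin.sum_univ_three]; simp only [sq_abs]
  have a0 := abs_nonneg (x 0)
  have a1 := abs_nonneg (x 1)
  have a2 := abs_nonneg (x 2)
  have n3 : ‖x‖ ≤ |x 0| + |x 1| + |x 2| := by
    refine le_of_sq_le_sq (by rw [n1]; nlinarith [mul_nonneg a0 a1, mul_nonneg a0 a2, mul_nonneg a1 a2])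
      (by positivity)
  refine le_of_sq_le_sq ?_ (norm_nonneg _)
  rw [n2, h2, h2, h2, add_sq, n1]
  nlinarith [mul_le_mul_of_nonneg_right n3 ht]

theorem QR.good {f : E → E} {Df : E → E →L[ℝ] E} {K : ℝ} (Q : QR f Df K) :
    ∃ c, Good f c := by
  obtain ⟨c, c0, c1, H⟩ := lemH0 K
  refine ⟨c, c0, c1, Q.maps, Q.cont, fun x hx ε e0 e1 e m M hM H1 H2 => ?_,
    fun x hx y hy e m H1 => ?_⟩
  · have hh : 0 < 1 - ‖x‖ := by linarith
    have := mul_pos e0 hh
    refine H f Df Q x (1 - ‖x‖) (1 - ε * (1 - ‖x‖)) (1 - ε * (1 - ‖x‖) / 2) e m M hh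
      (by nlinarith) (by linarith) (by linarith) hM H1 H2 fun t ht => ?_
    obtain ⟨b, hb, hb'⟩ := exists_corner x (t := t) (by linarith [ht.1])
    exact ⟨b, hb, Or.inl (by linarith [ht.1])⟩
  · have hh : 0 < 1 - ‖x‖ := by linarith
    have hn : ∀ z : E, ‖z‖ ≤ ‖x‖ + Dist.dist z x := fun z => by
      rw [dist_eq_norm]
      have := norm_add_le x (z - x)
      rwa [add_sub_cancel] at this
    refine H f Df Q x ((1 - ‖x‖) / 10) (1 - (1 - ‖x‖) / 3) (1 - (1 - ‖x‖) / 4) e m _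
      (by linarith) (by linarith) (by linarith) (by linarith)
      (sub_nonneg.2 (H1 y (by linarith))) (fun z a1 _ => H1 z (by linarith))
      (fun z a1 _ a3 => absurd (hn z) (by linarith)) fun t ht => ?_
    have ht0 : 0 ≤ t := by linarith [ht.1]
    have hsub : {z : E | ∀ j, |z j - x j| ≤ t} ⊆ closedBall 0 (1 - (1 - ‖x‖) / 2) := fun z hz => by
      have := dist_le_of_cube hz
      rw [mem_closedBall_zero_iff]
      linarith [hn z, ht.2]
    have hK : IsCompact {z : E | ∀ j, |z j - x j| ≤ t} :=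
      (isCompact_closedBall _ _).of_isClosed_subset (isClosed_cube x t) hsub
    have hKB : {z : E | ∀ j, |z j - x j| ≤ t} ⊆ ball 0 1 :=
      hsub.trans (closedBall_subset_ball (by linarith))
    have hS : IsCompact {z : E | OnCube x t z} := by
      refine hK.of_isClosed_subset ?_ fun z hz => hz.1
      refine (isClosed_cube x t).inter (s₂ := {z : E | ∃ i, |z i - x i| = t}) ?_
      simp only [Set.ofPred_exists]
      exact isClosed_iUnion_of_finite fun i => isClosed_eq (by fun_prop) continuous_const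
    obtain ⟨b0, hb0, -⟩ := exists_corner x ht0
    obtain ⟨b, hb, hmax⟩ := hS.exists_isMaxOn ⟨b0, hb0⟩
      ((Q.cont_inner e).mono fun z hz => hKB hz.1)
    refine ⟨b, hb, Or.inr ?_⟩
    have hfin := Q.minP hK hKB (-e) (-⟪e, f b⟫) (fun z hz hz' => by
      rw [inner_neg_left, neg_le_neg_iff]
      refine hmax (show OnCube x t z from ⟨hz, ?_⟩)
      by_contra hc
      have a0 : z ∈ {y : E | ∀ j, |y j - x j| < t} :=
        fun j => lt_of_le_of_ne (hz j) fun h' => hc ⟨j, h'⟩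
      have a00 : {y : E | ∀ j, |y j - x j| < t} ⊆ {y : E | ∀ j, |y j - x j| ≤ t} :=
        fun y hy j => (hy j).le
      exact hz' (interior_maximal a00 (isOpen_cube x t) a0)) y (fun j => by
        have a1 : |(y - x) j| ≤ ‖y - x‖ := by
          simpa using PiLp.norm_apply_le (y - x) j
        rw [← dist_eq_norm] at a1
        have a2 : (y - x) j = y j - x j := rfl
        rw [a2] at a1
        linarith [ht.1])
    rw [inner_neg_left, neg_le_neg_iff] at hfin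
    linarith

theorem QR.radial {f : E → E} {Df : E → E →L[ℝ] E} {K : ℝ} (Q : QR f Df K) :
    ∃ ξ ∈ sphere (0 : E) 1, ∃ L : E, Tendsto (fun t : ℝ => f (t • ξ)) (𝓝[<] (1 : ℝ)) (𝓝 L) := by
  obtain ⟨c, G⟩ := Q.good
  exact H98.radial G

end Pool.Agent.MP_16e930_an.H98
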