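import Pool.Agent.MP_16e930_an.H98.Rep

set_option autoImplicit false
open scoped ENNReal RealInnerProductSpace
open Metric Filter Topology MeasureTheory

namespace Pool.Agent.MP_16e930_an.H98

abbrev V2 := Fin 2 → ℝ

theorem lint_scale {G : V2 → ℝ≥0∞} (hG : Measurable G) (a : V2) {c : ℝ} (hc : c ≠ 0) :
    ∫⁻ z, G (a + c • (z - a)) = ENNReal.ofReal |(c ^ 2)⁻¹| * ∫⁻ z, G z := by
  rw [lintegral_sub_right_eq_self (fun z => G (a + c • z)) a]
  have h1 : ∫⁻ z, G (a + c • z) = ∫⁻ y, G (a + y) ∂(Measure.map (c • ·) volume) :=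
    (lintegral_map (f := fun y => G (a + y)) (hG.comp (measurable_const_add a))
      (measurable_const_smul c)).symm
  rw [h1, Measure.map_addHaar_smul volume hc, lintegral_smul_measure,
    lintegral_add_left_eq_self]
  simp

theorem morrey2 {S : Set V2} (hS : MeasurableSet S) (hc : Convex ℝ S) {a : V2} (ha : a ∈ S)
    {g : V2 → ℝ} (hg : Continuous g) (g0 : ∀ z, 0 ≤ g z) {w : V2 → ℝ≥0∞} {d l : ℝ} (hd : 0 ≤ d)
    (hl : 0 < l) (hw : ∀ z ∈ S, w z ≤
      ∫⁻ r in Set.Ioc (0 : ℝ) 1, ENNReal.ofReal (3 * r ^ 2 * d * g (a + r ^ 3 • (z - a)))) :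
    ∫⁻ z in S, w z ≤ ENNReal.ofReal (d * l ^ 2) * (∫⁻ z in S, ENNReal.ofReal (g z ^ 3)) +
      ENNReal.ofReal (2 * d / l) * volume S := by
  refine (setLIntegral_mono' hS hw).trans ?_
  rw [lintegral_lintegral_swap (by fun_prop)]
  refine (setLIntegral_mono' (g := fun _ => ENNReal.ofReal (d * l ^ 2) *
    (∫⁻ z in S, ENNReal.ofReal (g z ^ 3)) + ENNReal.ofReal (2 * d / l) * volume S)
    measurableSet_Ioc fun r hr => ?_).trans (by simp)
  have r0 := hr.1
  have hm : Measurable (S.indicator fun z => ENNReal.ofReal (g z ^ 3)) :=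
    Measurable.indicator (by fun_prop) hS
  calc ∫⁻ z in S, ENNReal.ofReal (3 * r ^ 2 * d * g (a + r ^ 3 • (z - a)))
      ≤ ∫⁻ z in S, (ENNReal.ofReal (d * l ^ 2 * r ^ 6) *
          S.indicator (fun z => ENNReal.ofReal (g z ^ 3)) (a + r ^ 3 • (z - a)) +
          ENNReal.ofReal (2 * d / l)) := by
        refine setLIntegral_mono' hS fun z hz => ?_
        have hmem : a + r ^ 3 • (z - a) ∈ S :=
          hc.add_smul_sub_mem ha hz ⟨by positivity, pow_le_one₀ r0.le hr.2⟩
        have y0 := g0 (a + r ^ 3 • (z - a))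
        rw [Set.indicator_of_mem hmem, ← ENNReal.ofReal_mul (by positivity),
          ← ENNReal.ofReal_add (by positivity) (by positivity)]
        refine ENNReal.ofReal_le_ofReal ?_
        set y := g (a + r ^ 3 • (z - a))
        have h1 : 0 ≤ (l * r ^ 2 * y - 1) ^ 2 * (l * r ^ 2 * y + 2) := by positivity
        have h2 : 3 * r ^ 2 * y ≤ l ^ 2 * r ^ 6 * y ^ 3 + 2 / l := by
          rw [← sub_nonneg]
          have : l ^ 2 * r ^ 6 * y ^ 3 + 2 / l - 3 * r ^ 2 * y =
              (l * r ^ 2 * y - 1) ^ 2 * (l * r ^ 2 * y + 2) / l := by field_simp; ring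
          rw [this]; positivity
        calc 3 * r ^ 2 * d * y = d * (3 * r ^ 2 * y) := by ring
          _ ≤ d * (l ^ 2 * r ^ 6 * y ^ 3 + 2 / l) := by gcongr
          _ = _ := by ring
    _ = ENNReal.ofReal (d * l ^ 2 * r ^ 6) * (∫⁻ z in S,
          S.indicator (fun z => ENNReal.ofReal (g z ^ 3)) (a + r ^ 3 • (z - a))) +
          ENNReal.ofReal (2 * d / l) * volume S := by
        rw [lintegral_add_right _ measurable_const, lintegral_const_mul' _ _ ENNReal.ofReal_ne_top]
        simp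
    _ ≤ _ := by
        refine add_le_add ?_ le_rfl
        refine (mul_le_mul_right (setLIntegral_le_lintegral _ _) _).trans ?_
        rw [lint_scale hm a (by positivity), lintegral_indicator hS, ← mul_assoc,
          ← ENNReal.ofReal_mul (by positivity), abs_of_pos (by positivity)]
        refine le_of_eq ?_
        congr 2
        field_simp

theorem ftc_cube {v : E → ℝ} (hv : ContDiff ℝ 1 v) (p q : E) {d : ℝ} (hd : ‖q - p‖ ≤ d) :
    ENNReal.ofReal |v q - v p| ≤ ∫⁻ r in Set.Ioc (0 : ℝ) 1,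
      ENNReal.ofReal (3 * r ^ 2 * d * ‖fderiv ℝ v (p + r ^ 3 • (q - p))‖) := by
  have hc := hv.continuous_fderiv one_ne_zero
  have h1 := intervalIntegral.integral_eq_sub_of_hasDerivAt (a := 0) (b := 1)
    (f := fun r : ℝ => v (p + r ^ 3 • (q - p)))
    (f' := fun r : ℝ => fderiv ℝ v (p + r ^ 3 • (q - p)) ((3 * r ^ 2) • (q - p)))
    (fun r _ => by
      have h2 : HasDerivAt (fun r : ℝ => p + r ^ 3 • (q - p)) ((3 * r ^ 2) • (q - p)) r := by
        have := ((hasDerivAt_pow 3 r).smul_const (q - p)).const_add p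
        simpa using this
      exact (hv.differentiable one_ne_zero _).hasFDerivAt.comp_hasDerivAt r h2)
    (Continuous.intervalIntegrable (by fun_prop) _ _)
  simp only [one_pow, one_smul, add_sub_cancel, ne_eq, OfNat.ofNat_ne_zero, not_false_eq_true,
    zero_pow, zero_smul, add_zero] at h1
  rw [← h1, intervalIntegral.integral_of_le zero_le_one, ← Real.norm_eq_abs, ofReal_norm]
  refine (enorm_integral_le_lintegral_enorm _).trans (lintegral_mono fun r => ?_)
  rw [← ofReal_norm]
  refine ENNReal.ofReal_le_ofReal ((ContinuousLinearMap.le_opNorm _ _).trans ?_)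
  rw [norm_smul, Real.norm_of_nonneg (by positivity)]
  calc ‖fderiv ℝ v (p + r ^ 3 • (q - p))‖ * (3 * r ^ 2 * ‖q - p‖)
      ≤ ‖fderiv ℝ v (p + r ^ 3 • (q - p))‖ * (3 * r ^ 2 * d) := by gcongr
    _ = _ := by ring

theorem norm_le_of_coord {v : E} {s : ℝ} (h : ∀ j, |v j| ≤ s) : ‖v‖ ≤ 2 * s := by
  have hs : 0 ≤ s := (abs_nonneg _).trans (h 0)
  have h1 : ∀ j, v j ^ 2 ≤ s ^ 2 := fun j => by
    rw [← sq_abs]; exact pow_le_pow_left₀ (abs_nonneg _) (h j) 2
  refine le_of_sq_le_sq ?_ (by positivity)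
  rw [EuclideanSpace.real_norm_sq_eq, Fin.sum_univ_three]
  nlinarith [h1 0, h1 1, h1 2]

noncomputable def sl (i : Fin 3) (c : ℝ) (z : V2) : E :=
  WithLp.toLp 2 (Fin.insertNth (α := fun _ => ℝ) i c z)

theorem sl_same (i : Fin 3) (c : ℝ) (z : V2) : sl i c z i = c := by simp [sl]

theorem sl_succ (i : Fin 3) (c : ℝ) (z : V2) (j : Fin 2) : sl i c z (i.succAbove j) = z j := by
  simp [sl]

theorem sl_aff (i : Fin 3) (c : ℝ) (a z : V2) (t : ℝ) :
    sl i c (a + t • (z - a)) = sl i c a + t • (sl i c z - sl i c a) := by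
  ext j
  induction j using Fin.succAboveCases i <;> simp [sl_same, sl_succ]

theorem sl_remove (i : Fin 3) (p : E) : sl i (p i) (fun j => p (i.succAbove j)) = p := by
  ext j
  induction j using Fin.succAboveCases i <;> simp [sl_same, sl_succ]

theorem continuous_sl (i : Fin 3) : Continuous fun p : ℝ × V2 => sl i p.1 p.2 := by
  unfold sl
  fun_prop

theorem lint_sl {G : E → ℝ≥0∞} (hG : Measurable G) (i : Fin 3) :
    ∫⁻ c, ∫⁻ z, G (sl i c z) = ∫⁻ y, G y := by
  have h1 := (volume_preserving_piFinSuccAbove (fun _ : Fin 3 => ℝ) i).symm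
  have h2 := (PiLp.volume_preserving_toLp (Fin 3)).comp h1
  rw [← h2.lintegral_comp hG, Measure.volume_eq_prod, lintegral_prod]
  · rfl
  · exact (hG.comp h2.measurable).aemeasurable

theorem slice_osc {v : E → ℝ} (hv : ContDiff ℝ 1 v) (x : E) {T : ℝ} (hT : 0 < T) (i : Fin 3)
    {p q : E} (hpq : q i = p i) (hp : ∀ j, |p j - x j| ≤ 2 * T) (hq : ∀ j, |q j - x j| ≤ 2 * T) :
    ENNReal.ofReal |v p - v q| ≤ ENNReal.ofReal T * (∫⁻ z, {y : E | ∀ j, |y j - x j| ≤ 2 * T}.indicator
      (fun y => ENNReal.ofReal (‖fderiv ℝ v y‖ ^ 3)) (sl i (p i) z)) + 32 := by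
  set c := p i with hc
  set S : Set V2 := closedBall (fun j => x (i.succAbove j)) (2 * T) with hS
  have hmem : ∀ z, z ∈ S ↔ ∀ j, |z j - x (i.succAbove j)| ≤ 2 * T := fun z => by
    rw [hS, mem_closedBall, dist_pi_le_iff (by positivity)]
    simp only [Real.dist_eq]
  have hvol : volume S = ENNReal.ofReal (16 * T ^ 2) := by
    rw [hS, Real.volume_pi_closedBall _ (by positivity)]
    congr 1
    simp only [Fintype.card_fin]
    ring
  have hcf := hv.continuous_fderiv one_ne_zero
  have hsl : Continuous (sl i c) := (continuous_sl i).comp (continuous_const.prodMk continuous_id)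
  set I := ∫⁻ z in S, ENNReal.ofReal (‖fderiv ℝ v (sl i c z)‖ ^ 3) with hI
  have key : ∀ a ∈ S, ∫⁻ z in S, ENNReal.ofReal |v (sl i c z) - v (sl i c a)| ≤
      ENNReal.ofReal (8 * T * T ^ 2) * I + ENNReal.ofReal (2 * (8 * T) / T) * volume S := by
    intro a ha
    refine morrey2 measurableSet_closedBall (convex_closedBall _ _) ha
      (g := fun z => ‖fderiv ℝ v (sl i c z)‖) (by fun_prop) (fun _ => norm_nonneg _)
      (by positivity) hT fun z hz => ?_
    simp only [sl_aff]
    refine ftc_cube hv _ _ (le_trans (norm_le_of_coord (s := 4 * T) fun j => ?_) (by linarith))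
    induction j using Fin.succAboveCases i with
    | x => simp only [PiLp.sub_apply, sl_same, sub_self, abs_zero]; positivity
    | p j =>
      simp only [PiLp.sub_apply, sl_succ]
      have a1 := abs_le.1 ((hmem z).1 hz j)
      have a2 := abs_le.1 ((hmem a).1 ha j)
      rw [abs_le]; constructor <;> linarith
  have k1 := key (fun j => p (i.succAbove j)) ((hmem _).2 fun j => hp _)
  have k2 := key (fun j => q (i.succAbove j)) ((hmem _).2 fun j => hq _)
  rw [hc, sl_remove, ← hc] at k1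
  rw [← hpq, sl_remove, hpq] at k2
  have hvc := hv.continuous
  have k3 : ENNReal.ofReal |v p - v q| * volume S ≤ 2 * (ENNReal.ofReal (8 * T * T ^ 2) * I +
      ENNReal.ofReal (2 * (8 * T) / T) * volume S) := by
    rw [two_mul, ← setLIntegral_const]
    refine le_trans ?_ (add_le_add k1 k2)
    rw [← lintegral_add_left (by fun_prop)]
    refine lintegral_mono fun z => ?_
    rw [← ENNReal.ofReal_add (abs_nonneg _) (abs_nonneg _)]
    refine ENNReal.ofReal_le_ofReal ?_
    rw [abs_sub_comm (v (sl i c z)) (v p)]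
    exact abs_sub_le _ _ _
  have hI' : I ≤ ∫⁻ z, {y : E | ∀ j, |y j - x j| ≤ 2 * T}.indicator
      (fun y => ENNReal.ofReal (‖fderiv ℝ v y‖ ^ 3)) (sl i c z) := by
    refine le_trans (setLIntegral_mono' measurableSet_closedBall fun z hz => ?_)
      (setLIntegral_le_lintegral S _)
    rw [Set.indicator_of_mem]
    intro j
    induction j using Fin.succAboveCases i with
    | x => rw [sl_same]; exact hp i
    | p j => rw [sl_succ]; exact (hmem z).1 hz j
  refine le_trans ?_ (add_le_add (mul_le_mul_right hI' _) le_rfl)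
  have e1 : 2 * (ENNReal.ofReal (8 * T * T ^ 2) * I + ENNReal.ofReal (2 * (8 * T) / T) * volume S)
      = (ENNReal.ofReal T * I + 32) * volume S := by
    have e2 : 2 * (8 * T) / T = 16 := by field_simp; norm_num
    have e3 : 2 * ENNReal.ofReal (8 * T * T ^ 2) = ENNReal.ofReal T * volume S := by
      rw [hvol, ← ENNReal.ofReal_mul hT.le, ← ENNReal.ofReal_ofNat 2,
        ← ENNReal.ofReal_mul (by norm_num)]
      congr 1; ring
    rw [e2, ENNReal.ofReal_ofNat, mul_add, ← mul_assoc, e3]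
    ring
  rw [e1] at k3
  refine (ENNReal.mul_le_mul_iff_left ?_ ?_).1 k3
  · rw [hvol]; simpa using by positivity
  · rw [hvol]; exact ENNReal.ofReal_ne_top

def OnCube (x : E) (t : ℝ) (p : E) : Prop := (∀ j, |p j - x j| ≤ t) ∧ ∃ i, |p i - x i| = t

theorem cube_osc {v : E → ℝ} (hv : ContDiff ℝ 1 v) (x : E) {T : ℝ} (hT : 0 < T) {En : ℝ}
    (hEn : 0 ≤ En) (hE : ∫⁻ y in {y : E | ∀ j, |y j - x j| ≤ 2 * T},
      ENNReal.ofReal (‖fderiv ℝ v y‖ ^ 3) ≤ ENNReal.ofReal En) :
    ∃ t ∈ Set.Icc T (2 * T), ∀ p q, OnCube x t p → OnCube x t q →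
      |v p - v q| ≤ 4 * (6 * En + 32) := by
  set Q : Set E := {y : E | ∀ j, |y j - x j| ≤ 2 * T} with hQ
  have hQm : MeasurableSet Q := by
    refine IsClosed.measurableSet ?_
    simp only [hQ, Set.ofPred_forall]
    exact isClosed_iInter fun j => isClosed_le (by fun_prop) continuous_const
  have hcf := hv.continuous_fderiv one_ne_zero
  set G : E → ℝ≥0∞ := Q.indicator fun y => ENNReal.ofReal (‖fderiv ℝ v y‖ ^ 3) with hG
  have hGm : Measurable G := Measurable.indicator (by fun_prop) hQm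
  set J : Fin 3 → ℝ → ℝ≥0∞ := fun i c => ∫⁻ z, G (sl i c z) with hJ
  have hJm : ∀ i, Measurable (J i) := fun i =>
    (hGm.comp (continuous_sl i).measurable).lintegral_prod_right'
  have hJi : ∀ i, ∫⁻ c, J i c ≤ ENNReal.ofReal En := fun i => by
    rw [hJ, lint_sl hGm i, hG, lintegral_indicator hQm]; exact hE
  set Φ : ℝ → ℝ≥0∞ := fun t => ∑ i, (J i (x i + t) + J i (x i - t)) with hΦ
  have m1 : ∀ i, Measurable fun t => J i (x i + t) := fun i =>
    (hJm i).comp (measurable_const_add _)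
  have m2 : ∀ i, Measurable fun t => J i (x i - t) := fun i =>
    (hJm i).comp (measurable_const.sub measurable_id)
  have hΦi : ∫⁻ t, Φ t ≤ 6 * ENNReal.ofReal En := by
    rw [hΦ, lintegral_finsetSum (f := fun i t => J i (x i + t) + J i (x i - t)) _
      fun i _ => (m1 i).add (m2 i)]
    calc ∑ i, ∫⁻ t, (J i (x i + t) + J i (x i - t))
        ≤ ∑ _i : Fin 3, (ENNReal.ofReal En + ENNReal.ofReal En) := by
          refine Finset.sum_le_sum fun i _ => ?_
          rw [lintegral_add_left (m1 i), lintegral_add_left_eq_self (J i),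
            lintegral_sub_left_eq_self (J i)]
          exact add_le_add (hJi i) (hJi i)
      _ = _ := by simp; ring
  have hvol : volume (Set.Icc T (2 * T)) = ENNReal.ofReal T := by
    rw [Real.volume_Icc]; congr 1; ring
  have hT0 : ENNReal.ofReal T ≠ 0 := by simpa using hT
  obtain ⟨t, ht, ht'⟩ := exists_le_setLAverage (μ := volume) (s := Set.Icc T (2 * T)) (f := Φ)
    (by rw [hvol]; exact hT0) (by rw [hvol]; exact ENNReal.ofReal_ne_top)
    (Finset.measurable_sum _ fun i _ => (m1 i).add (m2 i)).aemeasurable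
  rw [setLAverage_eq, hvol, ENNReal.le_div_iff_mul_le (Or.inl hT0)
    (Or.inl ENNReal.ofReal_ne_top)] at ht'
  have hΦt : ENNReal.ofReal T * Φ t ≤ 6 * ENNReal.ofReal En := by
    rw [mul_comm]
    exact ht'.trans ((setLIntegral_le_lintegral _ _).trans hΦi)
  have t0 : 0 ≤ t := hT.le.trans ht.1
  have face : ∀ (i : Fin 3) (p q : E), q i = p i → |p i - x i| = t → (∀ j, |p j - x j| ≤ t) →
      (∀ j, |q j - x j| ≤ t) → |v p - v q| ≤ 6 * En + 32 := by
    intro i p q h1 h2 h3 h4
    have h5 := slice_osc hv x hT i h1 (fun j => (h3 j).trans ht.2) (fun j => (h4 j).trans ht.2)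
    have h6 : J i (p i) ≤ Φ t := by
      refine le_trans ?_ (Finset.single_le_sum (f := fun i => J i (x i + t) + J i (x i - t))
        (fun _ _ => zero_le) (Finset.mem_univ i))
      rcases (abs_eq t0).1 h2 with h | h
      · rw [show p i = x i + t by linarith]; exact le_self_add
      · rw [show p i = x i - t by linarith]; exact le_add_self
    have h7 : ENNReal.ofReal |v p - v q| ≤ ENNReal.ofReal (6 * En + 32) := by
      refine h5.trans ?_
      rw [ENNReal.ofReal_add (by positivity) (by norm_num), ENNReal.ofReal_mul (by norm_num),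
        ENNReal.ofReal_ofNat, ENNReal.ofReal_ofNat]
      exact add_le_add ((mul_le_mul_right h6 _).trans hΦt) le_rfl
    exact (ENNReal.ofReal_le_ofReal_iff (by positivity)).1 h7
  set κ : E := WithLp.toLp 2 fun j => x j + t with hκ
  have hκ' : ∀ j, |κ j - x j| = t := fun j => by simp [hκ, abs_of_nonneg t0]
  have corner : ∀ p, OnCube x t p → |v p - v κ| ≤ 2 * (6 * En + 32) := by
    rintro p ⟨h1, i, hi⟩
    set p' : E := WithLp.toLp 2 (Function.update (fun j => x j + t) i (p i)) with hp'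
    have a1 : p' i = p i := by simp [hp']
    have a2 : ∀ j, j ≠ i → p' j = κ j := fun j hj => by simp [hp', hκ, hj]
    have a3 : ∀ j, |p' j - x j| ≤ t := fun j => by
      by_cases hj : j = i
      · rw [hj, a1]; exact h1 i
      · rw [a2 j hj]; exact (hκ' j).le
    obtain ⟨j, hj⟩ := exists_ne i
    have b1 := face i p p' a1 hi h1 a3
    have b2 := face j κ p' (a2 j hj) (hκ' j) (fun j => (hκ' j).le) a3
    rw [abs_sub_comm] at b2
    linarith [abs_sub_le (v p) (v p') (v κ)]
  refine ⟨t, ht, fun p q hp hq => ?_⟩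
  have b1 := corner p hp
  have b2 := corner q hq
  rw [abs_sub_comm] at b2
  linarith [abs_sub_le (v p) (v κ) (v q)]

end Pool.Agent.MP_16e930_an.H98
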