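import Pool.Agent.MP_16e930_an.H98.MinP
import Pool.Agent.MP_16e930_an.H98.Morrey

set_option autoImplicit false
open scoped ENNReal RealInnerProductSpace
open Metric Filter Topology MeasureTheory

namespace Pool.Agent.MP_16e930_an.H98

theorem exists_cut : ∃ C : ℝ, 0 ≤ C ∧ ∀ (x : E) (T : ℝ), 0 < T → ∃ φ : E → ℝ, ContDiff ℝ 1 φ ∧
    (∀ z, 0 ≤ φ z) ∧ (∀ z, dist z x ≤ 4 * T → φ z = 1) ∧ tsupport φ ⊆ closedBall x (5 * T) ∧
    ∫ z, ‖fderiv ℝ φ z‖ ^ 3 = C := by
  let β : ContDiffBump (0 : E) := ⟨4, 5, by norm_num, by norm_num⟩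
  have hβ : ContDiff ℝ 1 β := β.contDiff
  refine ⟨∫ z, ‖fderiv ℝ β z‖ ^ 3, integral_nonneg fun z => by positivity, fun x T hT =>
    ⟨fun z => β (T⁻¹ • (z - x)), hβ.comp (by fun_prop), fun z => β.nonneg, fun z hz => ?_, ?_, ?_⟩⟩
  · apply β.one_of_mem_closedBall
    rw [mem_closedBall_zero_iff, norm_smul, Real.norm_of_nonneg (by positivity), ← dist_eq_norm,
      inv_mul_le_iff₀ hT]
    show _ ≤ T * 4
    linarith
  · refine closure_minimal (fun z hz => ?_) isClosed_closedBall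
    have : T⁻¹ • (z - x) ∈ Function.support β := hz
    rw [β.support_eq, mem_ball_zero_iff, norm_smul, Real.norm_of_nonneg (by positivity),
      ← dist_eq_norm, inv_mul_lt_iff₀ hT] at this
    have h5 : β.rOut = 5 := rfl
    rw [h5] at this
    rw [mem_closedBall]
    linarith
  · have hd : ∀ z, ‖fderiv ℝ (fun z => β (T⁻¹ • (z - x))) z‖ ^ 3 =
        T⁻¹ ^ 3 * ‖fderiv ℝ β (T⁻¹ • (z - x))‖ ^ 3 := fun z => by
      have h1 : HasFDerivAt (fun z : E => T⁻¹ • (z - x)) (T⁻¹ • ContinuousLinearMap.id ℝ E) z :=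
        ((hasFDerivAt_id z).sub_const x).const_smul T⁻¹
      have h2 : HasFDerivAt (fun z => β (T⁻¹ • (z - x))) _ z :=
        (hβ.differentiable one_ne_zero _).hasFDerivAt.comp z h1
      rw [h2.fderiv, ContinuousLinearMap.comp_smul, ContinuousLinearMap.comp_id, norm_smul,
        Real.norm_of_nonneg (by positivity), mul_pow]
    simp only [hd]
    rw [integral_const_mul, integral_sub_right_eq_self
      (fun z => ‖fderiv ℝ β (T⁻¹ • z)‖ ^ 3) x,
      Measure.integral_comp_smul volume (fun z => ‖fderiv ℝ β z‖ ^ 3) T⁻¹]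
    have h3 : Module.finrank ℝ E = 3 := by simp
    rw [h3, abs_of_pos (by positivity), smul_eq_mul, ← mul_assoc, mul_inv_cancel₀ (by positivity),
      one_mul]

theorem isClosed_cube (x : E) (t : ℝ) : IsClosed {y : E | ∀ j, |y j - x j| ≤ t} := by
  simp only [Set.ofPred_forall]
  exact isClosed_iInter fun j => isClosed_le (by fun_prop) continuous_const

theorem isOpen_cube (x : E) (t : ℝ) : IsOpen {y : E | ∀ j, |y j - x j| < t} := by
  simp only [Set.ofPred_forall]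
  exact isOpen_iInter_of_finite fun j => isOpen_lt (by fun_prop) continuous_const

theorem dist_le_of_cube {x y : E} {t : ℝ} (h : ∀ j, |y j - x j| ≤ t) : dist y x ≤ 2 * t := by
  rw [dist_eq_norm]
  exact norm_le_of_coord fun j => by simpa using h j

theorem lemH (K : ℝ) : ∃ c : ℝ, 0 < c ∧ c ≤ 1 ∧ ∀ (f : E → E) (Df : E → E →L[ℝ] E), QR f Df K →
    ∀ (x : E) (T r1 r2 : ℝ) (e : E) (m M : ℝ), 0 < T → ‖x‖ < r1 → r1 < r2 → r2 < 1 → 0 < M →
    (∀ z, dist z x ≤ 5 * T → ‖z‖ ≤ r2 → 1 ≤ ⟪e, f z⟫ - m) →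
    (∀ z, dist z x ≤ 5 * T → ‖z‖ ≤ r2 → r1 ≤ ‖z‖ → M ≤ ⟪e, f z⟫ - m) →
    (∀ t ∈ Set.Icc T (2 * T), ∃ b, OnCube x t b ∧ (r1 ≤ ‖b‖ ∨ M ≤ ⟪e, f b⟫ - m)) →
    c * M ≤ ⟪e, f x⟫ - m := by
  obtain ⟨Cb, hCb, hcut⟩ := exists_cut
  set En := 2 * (54 * |K|) ^ 3 * Cb + 1 with hEn
  have hEn0 : 0 ≤ En := by positivity
  set Λ := 4 * (6 * En + 32) with hΛ
  have hΛ0 : 0 ≤ Λ := by positivity
  have hc1 : Real.exp (-(Λ + 2 + 1)) ≤ 1 := Real.exp_le_one_iff.2 (by linarith)
  refine ⟨Real.exp (-(Λ + 2 + 1)), Real.exp_pos _, hc1,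
    fun f Df Q x T r1 r2 e m M hT hx h12 h2 hM H1 H2 H3 => ?_⟩
  obtain ⟨φ0, hφ0, hφ00, hφ01, hφ0s, hφ0i⟩ := hcut x T hT
  have hr1 : 0 < r1 := lt_of_le_of_lt (norm_nonneg _) hx
  obtain ⟨χ, hχ, hχ0, hχ1, hχone, hχs⟩ : ∃ χ : E → ℝ, ContDiff ℝ 1 χ ∧ (∀ z, 0 ≤ χ z) ∧
      (∀ z, χ z ≤ 1) ∧ (∀ z, ‖z‖ ≤ r1 → χ z = 1) ∧ tsupport χ ⊆ closedBall 0 r2 := by
    let β : ContDiffBump (0 : E) := ⟨r1, r2, hr1, h12⟩
    exact ⟨β, β.contDiff, fun _ => β.nonneg, fun _ => β.le_one,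
      fun z hz => β.one_of_mem_closedBall (mem_closedBall_zero_iff.2 hz), β.tsupport_eq.subset⟩
  have hDχ : ∀ z, dist z x ≤ 5 * T → ‖z‖ ≤ r2 → ⟪e, f z⟫ - m < M → fderiv ℝ χ z = 0 := by
    intro z a1 a2 a3
    have a4 : ‖z‖ < r1 := not_le.1 fun h => absurd (H2 z a1 a2 h) (not_le.2 a3)
    have : χ =ᶠ[𝓝 z] fun _ => 1 := by
      filter_upwards [isOpen_ball.mem_nhds (mem_ball_zero_iff.2 a4)] with y hy
      exact hχone y (mem_ball_zero_iff.1 hy).le
    rw [this.fderiv_eq]; simp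
  have hφ0c : HasCompactSupport φ0 :=
    (isCompact_closedBall _ _).of_isClosed_subset (isClosed_tsupport _) hφ0s
  have hwi : Integrable fun z => ‖fderiv ℝ φ0 z‖ ^ 3 := by
    refine Continuous.integrable_of_hasCompactSupport
      ((hφ0.continuous_fderiv one_ne_zero).norm.pow 3) ?_
    exact (hφ0c.fderiv ℝ).comp_left (g := fun A : E →L[ℝ] ℝ => ‖A‖ ^ 3) (by simp)
  obtain ⟨c1, c2⟩ := Q.cacc h2 (φ := fun z => φ0 z * χ z) (hφ0.mul hχ)
    (fun z => mul_nonneg (hφ00 z) (hχ0 z)) (tsupport_mul_subset_right.trans hχs) e m hM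
    (fun z hz => H1 z (hφ0s (tsupport_mul_subset_left hz))
      (mem_closedBall_zero_iff.1 (hχs (tsupport_mul_subset_right hz))))
    (w := fun z => ‖fderiv ℝ φ0 z‖ ^ 3) hwi.integrableOn (fun z => by positivity)
    (fun z hz ha => by
      have a1 : HasFDerivAt (fun z => φ0 z * χ z) _ z :=
        (hφ0.differentiable one_ne_zero z).hasFDerivAt.mul
          (hχ.differentiable one_ne_zero z).hasFDerivAt
      have a2 : φ0 z • fderiv ℝ χ z = 0 := by
        by_cases h0 : φ0 z = 0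
        · rw [h0, zero_smul]
        · rw [hDχ z (hφ0s (subset_tsupport _ h0)) (mem_closedBall_zero_iff.1 hz)
            (not_le.1 fun h => ha (aa_eq_zero hM h)), smul_zero]
      rw [a1.fderiv, a2, zero_add, norm_smul, Real.norm_of_nonneg (hχ0 z)]
      have := hχ0 z
      gcongr
      exact mul_le_of_le_one_left (norm_nonneg _) (hχ1 z))
  have c3 : ∫ z in closedBall 0 r2, ‖fderiv ℝ φ0 z‖ ^ 3 ≤ Cb := by
    rw [← hφ0i]
    exact setIntegral_le_integral hwi (Eventually.of_forall fun z => by positivity)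
  set Qb : Set E := {y : E | ∀ j, |y j - x j| ≤ 2 * T} with hQb
  have hQm : MeasurableSet Qb := (isClosed_cube x _).measurableSet
  have hSm : MeasurableSet (Qb ∩ closedBall 0 r2) := hQm.inter measurableSet_closedBall
  obtain ⟨F, hF, hU, hconv⟩ := Q.approx h2
  obtain ⟨C, hC⟩ := gr_bound hχ e m M
  obtain ⟨i1, t1⟩ := hconv (fun p => ‖gr χ e m M p‖ ^ 3) (Qb ∩ closedBall 0 r2) (4 * C ^ 3)
    ((continuous_gr hχ e m M).norm.pow 3) hSm Set.inter_subset_right (fun z hz y A hy => by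
      rw [abs_of_nonneg (by positivity)]
      exact (hC z (closedBall_subset_closedBall h2.le hz.2) y A hy).2)
  have c4 : ∫ z in Qb ∩ closedBall 0 r2, ‖gr χ e m M (z, f z, Df z)‖ ^ 3 < En := by
    have b1 : ∫ z in Qb ∩ closedBall 0 r2, ‖gr χ e m M (z, f z, Df z)‖ ^ 3 ≤
        ∫ z in Qb ∩ closedBall 0 r2,
          (φ0 z * χ z * aa M (⟪e, f z⟫ - m) * ‖e‖ * ‖Df z‖) ^ 3 := by
      refine setIntegral_mono_on i1 (c1.mono_set Set.inter_subset_right) hSm fun z hz => ?_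
      have a0 : dist z x ≤ 4 * T := (dist_le_of_cube hz.1).trans (by linarith)
      have a2 : Ps M (⟪e, f z⟫ - m) • fderiv ℝ χ z = 0 := by
        rcases lt_or_ge (⟪e, f z⟫ - m) M with h | h
        · rw [hDχ z (by linarith) (mem_closedBall_zero_iff.1 hz.2) h, smul_zero]
        · rw [Ps_eq_zero hM h, zero_smul]
      have a3 := norm_gr_le χ e m M z (f z) (Df z)
      rw [abs_of_nonneg (hχ0 z), a2, norm_zero, add_zero] at a3
      rw [hφ01 z a0, one_mul]
      gcongr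
    have b2 := setIntegral_mono_set c1 (Eventually.of_forall fun z => by
      have := hφ00 z
      have := hχ0 z
      have := aa_nonneg M (⟪e, f z⟫ - m)
      positivity) (Set.inter_subset_right (s := Qb)).eventuallyLE
    have b3 : 2 * (54 * |K|) ^ 3 * ∫ z in closedBall 0 r2, ‖fderiv ℝ φ0 z‖ ^ 3 ≤
        2 * (54 * |K|) ^ 3 * Cb := by gcongr
    linarith
  have he1 : 0 < ‖e‖ + 1 := by positivity
  obtain ⟨n, hn1, hn2⟩ := ((t1.eventually (gt_mem_nhds c4)).and
    (Metric.tendstoUniformlyOn_iff.1 hU (1 / (‖e‖ + 1)) (by positivity))).exists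
  set v : E → ℝ := fun z => χ z * Ps M (⟪e, F n z⟫ - m) with hv
  have hvc : ContDiff ℝ 1 v := hχ.mul (contDiff_comp_inner (hF n) e m (contDiff_Ps M))
  have hvs : tsupport v ⊆ closedBall 0 r2 := tsupport_mul_subset_left.trans hχs
  have hclose : ∀ z, ‖z‖ ≤ r2 → |Ps M (⟪e, F n z⟫ - m) - Ps M (⟪e, f z⟫ - m)| ≤ 1 := by
    intro z hz
    refine (Ps_lip hM _ _).trans ?_
    have a1 := hn2 z (mem_closedBall_zero_iff.2 hz)
    rw [dist_comm, dist_eq_norm, lt_div_iff₀ he1] at a1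
    rw [sub_sub_sub_cancel_right, ← inner_sub_right]
    refine (abs_real_inner_le_norm _ _).trans ?_
    nlinarith [norm_nonneg (F n z - f z)]
  obtain ⟨t, ht, hosc⟩ := cube_osc hvc x hT hEn0 (by
    have hcf := hvc.continuous_fderiv one_ne_zero
    have a1 : ∫⁻ y in Qb, ENNReal.ofReal (‖fderiv ℝ v y‖ ^ 3) =
        ∫⁻ y in Qb ∩ closedBall 0 r2, ENNReal.ofReal (‖fderiv ℝ v y‖ ^ 3) := by
      rw [← lintegral_indicator hQm, ← lintegral_indicator hSm]
      refine lintegral_congr fun y => ?_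
      by_cases hy : y ∈ closedBall (0 : E) r2
      · simp [Set.indicator, hy]
      · have : fderiv ℝ v y = 0 := fderiv_of_notMem_tsupport ℝ fun h => hy (hvs h)
        simp [Set.indicator, this]
    have a2 : IntegrableOn (fun y => ‖fderiv ℝ v y‖ ^ 3) (Qb ∩ closedBall 0 r2) :=
      ((hcf.norm.pow 3).continuousOn.integrableOn_compact
        (isCompact_closedBall 0 r2)).mono_set Set.inter_subset_right
    rw [a1, ← ofReal_integral_eq_lintegral_ofReal a2
      (Eventually.of_forall fun y => by positivity)]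
    refine ENNReal.ofReal_le_ofReal ?_
    simp only [hv, fderiv_eq_gr hχ (hF n)]
    exact hn1.le)
  obtain ⟨b, hb, hb'⟩ := H3 t ht
  have hd5 : ∀ z, (∀ j, |z j - x j| ≤ t) → dist z x ≤ 5 * T := fun z hz =>
    (dist_le_of_cube hz).trans (by linarith [ht.2])
  have hvb : |v b| ≤ 1 := by
    by_cases h : ‖b‖ ≤ r2
    · have a1 : M ≤ ⟪e, f b⟫ - m := hb'.elim (H2 b (hd5 b hb.1) h) id
      have a2 := hclose b h
      rw [Ps_eq_zero hM a1, sub_zero] at a2
      simp only [hv, abs_mul, abs_of_nonneg (hχ0 b)]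
      exact mul_le_one₀ (hχ1 b) (abs_nonneg _) a2
    · rw [image_eq_zero_of_notMem_tsupport fun h' => h (mem_closedBall_zero_iff.1 (hvs h'))]
      simp
  have hfin := Q.minP (Kc := {y : E | ∀ j, |y j - x j| ≤ t} ∩ closedBall 0 r1)
    ((isCompact_closedBall 0 r1).inter_left (isClosed_cube x t))
    (Set.inter_subset_right.trans (closedBall_subset_ball (by linarith))) e
    (Real.exp (-(Λ + 2 + 1)) * M + m) (fun z hz hz' => by
      have z1 := mem_closedBall_zero_iff.1 hz.2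
      by_cases hc : ∃ i, |z i - x i| = t
      · have a1 := hosc z b ⟨hz.1, hc⟩ hb
        have a2 := hclose z (by linarith)
        have a3 : v z = Ps M (⟪e, F n z⟫ - m) := by simp only [hv, hχone z z1, one_mul]
        have a4 := le_of_Ps_ge hM (H1 z (hd5 z hz.1) (by linarith)) (L := Λ + 2) (by linarith)
          (by linarith [abs_le.1 a1, abs_le.1 a2, abs_le.1 hvb])
        linarith
      · have a1 : r1 ≤ ‖z‖ := by
          by_contra h
          have a0 : z ∈ {y : E | ∀ j, |y j - x j| < t} ∩ ball 0 r1 :=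
            ⟨fun j => lt_of_le_of_ne (hz.1 j) fun h' => hc ⟨j, h'⟩,
              mem_ball_zero_iff.2 (not_le.1 h)⟩
          have a00 : {y : E | ∀ j, |y j - x j| < t} ∩ ball 0 r1 ⊆
              {y : E | ∀ j, |y j - x j| ≤ t} ∩ closedBall 0 r1 :=
            fun y hy => ⟨fun j => (hy.1 j).le, ball_subset_closedBall hy.2⟩
          exact hz' (interior_maximal a00 ((isOpen_cube x t).inter isOpen_ball) a0)
        have a2 := H2 z (hd5 z hz.1) (by linarith) a1
        nlinarith) x ⟨fun j => by simp; linarith [ht.1], mem_closedBall_zero_iff.2 hx.le⟩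
  linarith

end Pool.Agent.MP_16e930_an.H98
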