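import Pool.Agent.MP_16e930_an.H98.Cacc

set_option autoImplicit false
open scoped ENNReal RealInnerProductSpace Manifold
open Metric Filter Topology MeasureTheory

namespace Pool.Agent.MP_16e930_an.H98

noncomputable def gr (χ : E → ℝ) (e : E) (m M : ℝ) (p : E × E × (E →L[ℝ] E)) : E →L[ℝ] ℝ :=
  χ p.1 • (aa M (⟪e, p.2.1⟫ - m) • (innerSL ℝ e).comp p.2.2) +
    Ps M (⟪e, p.2.1⟫ - m) • fderiv ℝ χ p.1

theorem continuous_gr {χ : E → ℝ} (hχ : ContDiff ℝ 1 χ) (e : E) (m M : ℝ) :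
    Continuous (gr χ e m M) := by
  have h1 := hχ.continuous
  have h2 := hχ.continuous_fderiv one_ne_zero
  unfold gr
  fun_prop

theorem fderiv_eq_gr {χ : E → ℝ} (hχ : ContDiff ℝ 1 χ) {F : E → E} (hF : ContDiff ℝ 2 F) (e : E)
    (m M : ℝ) (x : E) : fderiv ℝ (fun x => χ x * Ps M (⟪e, F x⟫ - m)) x =
      gr χ e m M (x, F x, fderiv ℝ F x) := by
  have h4 : HasFDerivAt (fun x => χ x * Ps M (⟪e, F x⟫ - m)) _ x :=
    (hχ.differentiable one_ne_zero x).hasFDerivAt.mul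
      (hasFDerivAt_comp_inner (hF.differentiable (by norm_num) x) e m (hasDerivAt_Ps M _))
  exact h4.fderiv

theorem norm_gr_le (χ : E → ℝ) (e : E) (m M : ℝ) (x y : E) (A : E →L[ℝ] E) :
    ‖gr χ e m M (x, y, A)‖ ≤ |χ x| * aa M (⟪e, y⟫ - m) * ‖e‖ * ‖A‖ +
      ‖Ps M (⟪e, y⟫ - m) • fderiv ℝ χ x‖ := by
  refine (norm_add_le _ _).trans (add_le_add ?_ le_rfl)
  rw [norm_smul, norm_smul, Real.norm_eq_abs, Real.norm_of_nonneg (aa_nonneg _ _), mul_assoc,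
    mul_assoc]
  have := aa_nonneg M (⟪e, y⟫ - m)
  gcongr
  exact norm_inner_comp_le e A

theorem gr_bound {χ : E → ℝ} (hχ : ContDiff ℝ 1 χ) (e : E) (m M : ℝ) :
    ∃ C : ℝ, ∀ x ∈ closedBall (0 : E) 1, ∀ y A, ‖y‖ ≤ 3 →
      ‖gr χ e m M (x, y, A)‖ ≤ C * (1 + ‖A‖ ^ 3) ∧
      ‖gr χ e m M (x, y, A)‖ ^ 3 ≤ 4 * C ^ 3 * (1 + ‖A‖ ^ 3) := by
  have h1 := hχ.continuous
  have h2 := hχ.continuous_fderiv one_ne_zero
  obtain ⟨C1, hC1, hC1'⟩ := bdd (c := fun p => |χ p.1| * aa M (⟪e, p.2⟫ - m) * ‖e‖) (by fun_prop)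
  obtain ⟨C2, hC2, hC2'⟩ := bdd (c := fun p => ‖Ps M (⟪e, p.2⟫ - m) • fderiv ℝ χ p.1‖)
    (by fun_prop)
  refine ⟨2 * (C1 + C2), fun x hx y A hy => ?_⟩
  have a1 := (le_abs_self _).trans (hC1' x hx y hy)
  have a2 := (le_abs_self _).trans (hC2' x hx y hy)
  have hA := norm_nonneg A
  have a3 : ‖gr χ e m M (x, y, A)‖ ≤ (C1 + C2) * (1 + ‖A‖) := by
    refine (norm_gr_le χ e m M x y A).trans ?_
    have : |χ x| * aa M (⟪e, y⟫ - m) * ‖e‖ * ‖A‖ ≤ C1 * ‖A‖ := by gcongr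
    simp only at a2
    nlinarith
  have a4 := (le_cube _ hA).1
  have a5 : (1 + ‖A‖) ^ 3 ≤ 4 * (1 + ‖A‖ ^ 3) := by
    have : 0 ≤ (‖A‖ - 1) ^ 2 * (‖A‖ + 1) := by positivity
    nlinarith
  constructor
  · refine a3.trans ?_
    nlinarith [pow_nonneg hA 3, mul_nonneg (add_nonneg hC1 hC2) (pow_nonneg hA 3)]
  · calc ‖gr χ e m M (x, y, A)‖ ^ 3 ≤ ((C1 + C2) * (1 + ‖A‖)) ^ 3 := by gcongr
      _ = (C1 + C2) ^ 3 * (1 + ‖A‖) ^ 3 := by ring
      _ ≤ (2 * (C1 + C2)) ^ 3 * (4 * (1 + ‖A‖ ^ 3)) := by gcongr; linarith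
      _ = _ := by ring

theorem poincare : ∃ C : ℝ, ∀ v : E → ℝ, ContDiff ℝ 1 v → tsupport v ⊆ closedBall 0 1 →
    ∫ x, ‖v x‖ ≤ C * ∫ x, ‖fderiv ℝ v x‖ := by
  refine ⟨eLpNormLESNormFDerivOfLeConst ℝ (volume : Measure E) (closedBall (0 : E) 1) 1 1,
    fun v hv hs => ?_⟩
  have hc : HasCompactSupport v :=
    (isCompact_closedBall 0 1).of_isClosed_subset (isClosed_tsupport _) hs
  have h1 := eLpNorm_le_eLpNorm_fderiv (volume : Measure E) hv ((subset_tsupport v).trans hs)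
    (p := 1) le_rfl (by simp) isBounded_closedBall
  have i2 : Integrable (fderiv ℝ v) :=
    (hv.continuous_fderiv one_ne_zero).integrable_of_hasCompactSupport (hc.fderiv ℝ)
  rw [integral_norm_eq_lintegral_enorm hv.continuous.aestronglyMeasurable,
    integral_norm_eq_lintegral_enorm i2.1]
  simp only [ENNReal.coe_one, eLpNorm_one_eq_lintegral_enorm] at h1
  have h2 := ENNReal.toReal_mono (ENNReal.mul_ne_top ENNReal.coe_ne_top i2.2.ne) h1
  rwa [ENNReal.toReal_mul, ENNReal.coe_toReal] at h2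

theorem QR.abs_inner_le {f : E → E} {Df : E → E →L[ℝ] E} {K : ℝ} (Q : QR f Df K) (e : E) {z : E}
    (hz : z ∈ ball (0 : E) 1) : |⟪e, f z⟫| ≤ ‖e‖ :=
  (abs_real_inner_le_norm e (f z)).trans
    (mul_le_of_le_one_right (norm_nonneg _) (mem_ball_zero_iff.1 (Q.maps z hz)).le)

theorem QR.cont_inner {f : E → E} {Df : E → E →L[ℝ] E} {K : ℝ} (Q : QR f Df K) (e : E) :
    ContinuousOn (fun z => ⟪e, f z⟫) (ball 0 1) :=
  ContinuousOn.inner (𝕜 := ℝ) continuousOn_const Q.cont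

theorem QR.minP {f : E → E} {Df : E → E →L[ℝ] E} {K : ℝ} (Q : QR f Df K) {Kc : Set E}
    (hK : IsCompact Kc) (hKB : Kc ⊆ ball 0 1) (e : E) (M0 : ℝ)
    (hb : ∀ z ∈ Kc, z ∉ interior Kc → M0 ≤ ⟪e, f z⟫) : ∀ z ∈ Kc, M0 ≤ ⟪e, f z⟫ := by
  intro x hx
  by_contra hcon
  rw [not_le] at hcon
  set m := -‖e‖ - 1 with hm
  have hu : ∀ z ∈ ball (0 : E) 1, 1 ≤ ⟪e, f z⟫ - m := fun z hz => by
    linarith [(abs_le.1 (Q.abs_inner_le e hz)).1]
  set M := (⟪e, f x⟫ + M0) / 2 - m with hM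
  have hM1 : ⟪e, f x⟫ - m < M := by linarith
  have hM0 : 0 < M := by linarith [hu x (hKB hx)]
  set K0 := Kc ∩ (fun z => ⟪e, f z⟫ - m) ⁻¹' Set.Iic M with hK0
  have hK0c : IsClosed K0 := (((Q.cont_inner e).mono hKB).sub
    continuousOn_const).preimage_isClosed_of_isClosed hK.isClosed isClosed_Iic
  have hK0i : K0 ⊆ interior Kc := fun z hz => by
    by_contra h
    have h1 := hb z hz.1 h
    have h2 : ⟪e, f z⟫ - m ≤ M := hz.2
    linarith
  obtain ⟨φ, hφ, h1, h2, h3⟩ : ∃ φ : E → ℝ, ContDiff ℝ 1 φ ∧ (∀ᶠ x in 𝓝ˢ K0, φ x = 1) ∧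
      (∀ x, x ∉ Kc → φ x = 0) ∧ ∀ x, φ x ∈ Set.Icc (0 : ℝ) 1 := by
    obtain ⟨φ', h1, h2, h3⟩ := exists_contMDiffMap_one_nhds_of_subset_interior (n := 1) 𝓘(ℝ, E)
      hK0c hK0i
    exact ⟨φ', φ'.contMDiff.contDiff, h1, h2, h3⟩
  have hts : tsupport φ ⊆ Kc :=
    closure_minimal (fun z hz => by by_contra h; exact hz (h2 z h)) hK.isClosed
  obtain ⟨r, hr, hr'⟩ := exists_lt_subset_ball hK.isClosed hKB
  have hts' : tsupport φ ⊆ closedBall 0 r := (hts.trans hr').trans ball_subset_closedBall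
  have hD0 : ∀ z, ⟪e, f z⟫ - m < M → fderiv ℝ φ z = 0 := fun z hz => by
    by_cases hzK : z ∈ Kc
    · have : φ =ᶠ[𝓝 z] fun _ => 1 :=
        h1.filter_mono (nhds_le_nhdsSet (show z ∈ K0 from ⟨hzK, hz.le⟩))
      rw [this.fderiv_eq]; simp
    · exact fderiv_of_notMem_tsupport ℝ fun h => hzK (hts h)
  obtain ⟨c1, c2⟩ := Q.cacc hr hφ (fun z => (h3 z).1) hts' e m hM0
    (fun z hz => hu z (hKB (hts hz))) (w := fun _ => 0) (integrableOn_zero) (fun _ => le_rfl)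
    (fun z _ hz => by
      rw [hD0 z (not_le.1 fun h => hz (aa_eq_zero hM0 h))]; simp)
  have hen : ∀ z, 0 ≤ φ z * aa M (⟪e, f z⟫ - m) * ‖e‖ * ‖Df z‖ := fun z => by
    have := (h3 z).1
    have := aa_nonneg M (⟪e, f z⟫ - m)
    positivity
  rw [integral_zero, mul_zero] at c2
  have c3 := (integral_eq_zero_iff_of_nonneg (fun z => pow_nonneg (hen z) 3) c1).1
    (le_antisymm c2 (integral_nonneg fun z => pow_nonneg (hen z) 3))
  have c4 : ∫ z in closedBall 0 r, ‖gr φ e m M (z, f z, Df z)‖ = 0 := by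
    refine (integral_congr_ae ?_).trans (integral_zero E ℝ)
    filter_upwards [c3] with z hz
    have a1 : φ z * aa M (⟪e, f z⟫ - m) * ‖e‖ * ‖Df z‖ = 0 := pow_eq_zero_iff (by norm_num) |>.1 hz
    have a2 : Ps M (⟪e, f z⟫ - m) • fderiv ℝ φ z = 0 := by
      rcases lt_or_ge (⟪e, f z⟫ - m) M with h | h
      · rw [hD0 z h, smul_zero]
      · rw [Ps_eq_zero hM0 h, zero_smul]
    have a3 := norm_gr_le φ e m M z (f z) (Df z)
    rw [abs_of_nonneg (h3 z).1, a1, a2, norm_zero, add_zero] at a3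
    exact le_antisymm a3 (norm_nonneg _)
  obtain ⟨F, hF, -, hconv⟩ := Q.approx hr
  obtain ⟨C, hC⟩ := gr_bound hφ e m M
  have t1 := (hconv (fun p => ‖gr φ e m M p‖) (closedBall 0 r) C (continuous_gr hφ e m M).norm
    measurableSet_closedBall subset_rfl (fun z hz y A hy => by
      rw [abs_norm]; exact (hC z (closedBall_subset_closedBall hr.le hz) y A hy).1)).2
  have hφc := hφ.continuous
  obtain ⟨C1, hC1, hC1'⟩ := bdd (c := fun p => ‖φ p.1 * Ps M (⟪e, p.2⟫ - m)‖) (by fun_prop)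
  obtain ⟨i2, t2⟩ := hconv (fun p => ‖φ p.1 * Ps M (⟪e, p.2.1⟫ - m)‖) (closedBall 0 r) C1
    (by fun_prop) measurableSet_closedBall subset_rfl (fun z hz y A hy =>
      (hC1' z (closedBall_subset_closedBall hr.le hz) y hy).trans
        (le_mul_of_one_le_right hC1 (by linarith [pow_nonneg (norm_nonneg A) 3])))
  obtain ⟨CP, hCP⟩ := poincare
  have t3 := le_of_tendsto_of_tendsto' t2 (t1.const_mul CP) fun n => by
    have hs : tsupport (fun z => φ z * Ps M (⟪e, F n z⟫ - m)) ⊆ closedBall 0 r :=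
      (tsupport_mul_subset_left).trans hts'
    have := hCP (fun z => φ z * Ps M (⟪e, F n z⟫ - m))
      (hφ.mul (contDiff_comp_inner (hF n) e m (contDiff_Ps M)))
      (hs.trans (closedBall_subset_closedBall hr.le))
    rw [← setIntegral_eq_integral_of_forall_compl_eq_zero (s := closedBall 0 r) (fun z hz => by
        rw [image_eq_zero_of_notMem_tsupport (f := fun z => φ z * Ps M (⟪e, F n z⟫ - m))
          fun h => hz (hs h), norm_zero]),
      ← setIntegral_eq_integral_of_forall_compl_eq_zero (s := closedBall 0 r)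
        (f := fun z => ‖fderiv ℝ (fun z => φ z * Ps M (⟪e, F n z⟫ - m)) z‖) (fun z hz => by
        rw [fderiv_of_notMem_tsupport ℝ fun h => hz (hs h), norm_zero])] at this
    simpa only [fderiv_eq_gr hφ (hF n)] using this
  rw [c4, mul_zero] at t3
  have t4 := (integral_eq_zero_iff_of_nonneg (fun z => norm_nonneg _) i2).1
    (le_antisymm t3 (integral_nonneg fun z => norm_nonneg _))
  have t5 := Measure.eqOn_open_of_ae_eq
    (ae_restrict_of_ae_restrict_of_subset ball_subset_closedBall t4) isOpen_ball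
    (hφc.continuousOn.mul ((continuous_Ps M).comp_continuousOn
      (((Q.cont_inner e).mono (ball_subset_ball hr.le)).sub continuousOn_const))).norm
    continuousOn_const (hr' hx)
  have hφx : φ x = 1 := h1.self_of_nhdsSet x ⟨hx, hM1.le⟩
  simp only [hφx, one_mul, Pi.zero_apply, norm_eq_zero] at t5
  linarith [le_of_Ps_eq_zero (hu x (hKB hx)) t5]

end Pool.Agent.MP_16e930_an.H98
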