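import Pool.Agent.MP_16e930_an.H98.Approx

set_option autoImplicit false
open scoped ENNReal RealInnerProductSpace
open Metric Filter Topology MeasureTheory

namespace Pool.Agent.MP_16e930_an.H98

noncomputable def bv (i : Fin 3) : E := EuclideanSpace.single i 1

theorem norm_bv (i : Fin 3) : ‖bv i‖ = 1 := by simp [bv]

def D3 (a b c : Fin 3 → ℝ) : ℝ :=
  a 0 * (b 1 * c 2 - b 2 * c 1) + a 1 * (b 2 * c 0 - b 0 * c 2) + a 2 * (b 0 * c 1 - b 1 * c 0)

noncomputable def Om (α : E →L[ℝ] ℝ) (A : E →L[ℝ] E) (e : E) : ℝ :=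
  e 0 * D3 (fun i => α (bv i)) (fun i => A (bv i) 1) (fun i => A (bv i) 2) +
  e 1 * D3 (fun i => α (bv i)) (fun i => A (bv i) 2) (fun i => A (bv i) 0) +
  e 2 * D3 (fun i => α (bv i)) (fun i => A (bv i) 0) (fun i => A (bv i) 1)

theorem ibp {g c : E → ℝ} (hg : ContDiff ℝ 1 g) (hgc : HasCompactSupport g)
    (hc : ContDiff ℝ 1 c) (v : E) :
    Integrable (fun x => fderiv ℝ g x v * c x) ∧ Integrable (fun x => g x * fderiv ℝ c x v) ∧
      ∫ x, fderiv ℝ g x v * c x = -∫ x, g x * fderiv ℝ c x v := by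
  have c1 : Continuous fun x => fderiv ℝ g x v :=
    (hg.continuous_fderiv one_ne_zero).clm_apply continuous_const
  have c2 : Continuous fun x => fderiv ℝ c x v :=
    (hc.continuous_fderiv one_ne_zero).clm_apply continuous_const
  have i1 : Integrable fun x => fderiv ℝ g x v * c x :=
    (c1.mul hc.continuous).integrable_of_hasCompactSupport (hgc.fderiv_apply ℝ v).mul_right
  have i2 : Integrable fun x => g x * fderiv ℝ c x v :=
    (hg.continuous.mul c2).integrable_of_hasCompactSupport hgc.mul_right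
  have i3 : Integrable fun x => g x * c x :=
    (hg.continuous.mul hc.continuous).integrable_of_hasCompactSupport hgc.mul_right
  refine ⟨i1, i2, ?_⟩
  rw [integral_mul_fderiv_eq_neg_fderiv_mul_of_integrable i1 i2 i3
    (fun x _ => hg.differentiable one_ne_zero x) (fun x _ => hc.differentiable one_ne_zero x),
    neg_neg]

theorem null3 {g p q : E → ℝ} (hg : ContDiff ℝ 1 g) (hgc : HasCompactSupport g)
    (hp : ContDiff ℝ 2 p) (hq : ContDiff ℝ 2 q) :
    Integrable (fun x => D3 (fun i => fderiv ℝ g x (bv i)) (fun i => fderiv ℝ p x (bv i))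
      (fun i => fderiv ℝ q x (bv i))) ∧
    ∫ x, D3 (fun i => fderiv ℝ g x (bv i)) (fun i => fderiv ℝ p x (bv i))
      (fun i => fderiv ℝ q x (bv i)) = 0 := by
  have hd : ∀ {p : E → ℝ}, ContDiff ℝ 2 p → ∀ j, ContDiff ℝ 1 fun x => fderiv ℝ p x (bv j) :=
    fun hp j => (hp.fderiv_right (m := 1) (by norm_num)).clm_apply contDiff_const
  have hd2 : ∀ {p : E → ℝ}, ContDiff ℝ 2 p → ∀ j x, HasFDerivAt (fun x => fderiv ℝ p x (bv j))
      ((fderiv ℝ (fderiv ℝ p) x).flip (bv j)) x := fun {p} hp j x => by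
    have h1 := ((hp.fderiv_right (m := 1) (by norm_num)).differentiable one_ne_zero x).hasFDerivAt
    have h2 := h1.clm_apply (hasFDerivAt_const (bv j) x)
    simpa using h2
  have hs : ∀ {p : E → ℝ}, ContDiff ℝ 2 p → ∀ x v w,
      fderiv ℝ (fderiv ℝ p) x v w = fderiv ℝ (fderiv ℝ p) x w v := fun hp x v w =>
    (hp.contDiffAt.isSymmSndFDerivAt (by simp)).eq v w
  set cf : Fin 3 → Fin 3 → E → ℝ := fun j k x =>
    fderiv ℝ p x (bv j) * fderiv ℝ q x (bv k) - fderiv ℝ p x (bv k) * fderiv ℝ q x (bv j) with hcf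
  have hc : ∀ j k, ContDiff ℝ 1 (cf j k) := fun j k =>
    ((hd hp j).mul (hd hq k)).sub ((hd hp k).mul (hd hq j))
  have hcd : ∀ j k x v, fderiv ℝ (cf j k) x v =
      fderiv ℝ p x (bv j) * fderiv ℝ (fderiv ℝ q) x v (bv k) +
      fderiv ℝ q x (bv k) * fderiv ℝ (fderiv ℝ p) x v (bv j) -
      (fderiv ℝ p x (bv k) * fderiv ℝ (fderiv ℝ q) x v (bv j) +
      fderiv ℝ q x (bv j) * fderiv ℝ (fderiv ℝ p) x v (bv k)) := fun j k x v => by
    have h1 : HasFDerivAt (cf j k) _ x :=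
      ((hd2 hp j x).mul (hd2 hq k x)).sub ((hd2 hp k x).mul (hd2 hq j x))
    rw [h1.fderiv]
    simp
  obtain ⟨a0, b0, c0⟩ := ibp hg hgc (hc 1 2) (bv 0)
  obtain ⟨a1, b1, c1⟩ := ibp hg hgc (hc 2 0) (bv 1)
  obtain ⟨a2, b2, c2⟩ := ibp hg hgc (hc 0 1) (bv 2)
  have a01 : Integrable fun x => fderiv ℝ g x (bv 0) * cf 1 2 x +
    fderiv ℝ g x (bv 1) * cf 2 0 x := a0.add a1
  have b01 : Integrable fun x => g x * fderiv ℝ (cf 1 2) x (bv 0) +
    g x * fderiv ℝ (cf 2 0) x (bv 1) := b0.add b1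
  refine ⟨a01.add a2, ?_⟩
  have e1 : ∫ x, D3 (fun i => fderiv ℝ g x (bv i)) (fun i => fderiv ℝ p x (bv i))
      (fun i => fderiv ℝ q x (bv i)) = ∫ x, (fderiv ℝ g x (bv 0) * cf 1 2 x +
      fderiv ℝ g x (bv 1) * cf 2 0 x + fderiv ℝ g x (bv 2) * cf 0 1 x) := rfl
  rw [e1, integral_add a01 a2, integral_add a0 a1, c0, c1, c2, ← neg_add, ← neg_add,
    ← integral_add b0 b1, ← integral_add b01 b2, neg_eq_zero]
  refine (integral_congr_ae (Eventually.of_forall fun x => ?_)).trans (integral_zero E ℝ)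
  simp only [hcd, hs hp x (bv 1) (bv 0), hs hp x (bv 2) (bv 0), hs hp x (bv 2) (bv 1),
    hs hq x (bv 1) (bv 0), hs hq x (bv 2) (bv 0), hs hq x (bv 2) (bv 1)]
  ring

theorem null {g : E → ℝ} {F : E → E} (hg : ContDiff ℝ 1 g) (hgc : HasCompactSupport g)
    (hF : ContDiff ℝ 2 F) (e : E) : ∫ x, Om (fderiv ℝ g x) (fderiv ℝ F x) e = 0 := by
  have hk : ∀ k : Fin 3, ContDiff ℝ 2 fun x => F x k := fun k =>
    (EuclideanSpace.proj (𝕜 := ℝ) k).contDiff.comp hF
  have hd : ∀ (k : Fin 3) x v, fderiv ℝ F x v k = fderiv ℝ (fun x => F x k) x v := fun k x v => by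
    have h1 : HasFDerivAt (fun x => F x k) _ x :=
      (EuclideanSpace.proj (𝕜 := ℝ) k).hasFDerivAt.comp x
        (hF.differentiable (by norm_num) x).hasFDerivAt
    rw [h1.fderiv]; rfl
  obtain ⟨a0, b0⟩ := null3 hg hgc (hk 1) (hk 2)
  obtain ⟨a1, b1⟩ := null3 hg hgc (hk 2) (hk 0)
  obtain ⟨a2, b2⟩ := null3 hg hgc (hk 0) (hk 1)
  simp only [Om, hd]
  rw [integral_add (by exact (a0.const_mul _).add (a1.const_mul _)) (a2.const_mul _),
    integral_add (a0.const_mul _) (a1.const_mul _), integral_const_mul, integral_const_mul,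
    integral_const_mul, b0, b1, b2]
  simp

theorem Om_add_smul (s t : ℝ) (α β : E →L[ℝ] ℝ) (A : E →L[ℝ] E) (e : E) :
    Om (s • α + t • β) A e = s * Om α A e + t * Om β A e := by
  simp only [Om, D3, add_apply, smul_apply, smul_eq_mul]
  ring

theorem det_eq (A : E →L[ℝ] E) : LinearMap.det A.toLinearMap =
    D3 (fun i => A (bv i) 0) (fun i => A (bv i) 1) (fun i => A (bv i) 2) := by
  rw [← LinearMap.det_toMatrix (EuclideanSpace.basisFun (Fin 3) ℝ).toBasis, Matrix.det_fin_three]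
  simp only [LinearMap.toMatrix_apply, OrthonormalBasis.coe_toBasis, EuclideanSpace.basisFun_apply,
    OrthonormalBasis.coe_toBasis_repr_apply, EuclideanSpace.basisFun_repr, D3, bv,
    ContinuousLinearMap.coe_coe]
  ring

theorem Om_self (A : E →L[ℝ] E) (e : E) :
    Om ((innerSL ℝ e).comp A) A e = ‖e‖ ^ 2 * LinearMap.det A.toLinearMap := by
  rw [det_eq, EuclideanSpace.real_norm_sq_eq]
  simp only [Om, D3, ContinuousLinearMap.comp_apply, innerSL_apply_apply, PiLp.inner_apply,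
    Fin.sum_univ_three, RCLike.inner_apply, conj_trivial]
  ring

theorem abs_D3_le {a b c : Fin 3 → ℝ} {s t : ℝ} (ha : ∀ i, |a i| ≤ s) (hb : ∀ i, |b i| ≤ t)
    (hc : ∀ i, |c i| ≤ t) : |D3 a b c| ≤ 6 * s * t ^ 2 := by
  have hs : 0 ≤ s := (abs_nonneg _).trans (ha 0)
  have ht : 0 ≤ t := (abs_nonneg _).trans (hb 0)
  have h1 : ∀ i j k l m, |a i * (b j * c k - b l * c m)| ≤ 2 * s * t ^ 2 := fun i j k l m => by
    rw [abs_mul]
    have h2 : |b j * c k - b l * c m| ≤ t * t + t * t := by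
      refine (abs_sub _ _).trans (add_le_add ?_ ?_) <;> rw [abs_mul] <;> gcongr <;> simp [hb, hc]
    calc |a i| * |b j * c k - b l * c m| ≤ s * (t * t + t * t) := by gcongr; exact ha i
      _ = _ := by ring
  unfold D3
  refine (abs_add_three _ _ _).trans ?_
  linarith [h1 0 1 2 2 1, h1 1 2 0 0 2, h1 2 0 1 1 0]

theorem abs_coord_le (v : E) (k : Fin 3) : |v k| ≤ ‖v‖ := by
  simpa using PiLp.norm_apply_le v k

theorem abs_Om_le (α : E →L[ℝ] ℝ) (A : E →L[ℝ] E) (e : E) :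
    |Om α A e| ≤ 18 * ‖e‖ * ‖α‖ * ‖A‖ ^ 2 := by
  have ha : ∀ i, |α (bv i)| ≤ ‖α‖ := fun i => by
    simpa [norm_bv] using α.le_opNorm (bv i)
  have hA : ∀ k i, |A (bv i) k| ≤ ‖A‖ := fun k i =>
    (abs_coord_le _ k).trans (by simpa [norm_bv] using A.le_opNorm (bv i))
  have h1 : ∀ m j k : Fin 3, |e m * D3 (fun i => α (bv i)) (fun i => A (bv i) j)
      (fun i => A (bv i) k)| ≤ ‖e‖ * (6 * ‖α‖ * ‖A‖ ^ 2) := fun m j k => by
    rw [abs_mul]
    exact mul_le_mul (abs_coord_le e m) (abs_D3_le ha (hA j) (hA k)) (abs_nonneg _)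
      (norm_nonneg _)
  unfold Om
  refine (abs_add_three _ _ _).trans ?_
  linarith [h1 0 1 2, h1 1 2 0, h1 2 0 1]

theorem continuous_Om {T : Type} [TopologicalSpace T] {α : T → E →L[ℝ] ℝ} {A : T → E →L[ℝ] E}
    (hα : Continuous α) (hA : Continuous A) (e : E) : Continuous fun t => Om (α t) (A t) e := by
  unfold Om D3
  fun_prop

end Pool.Agent.MP_16e930_an.H98
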