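import Mathlib

set_option autoImplicit false
open scoped ENNReal

namespace Pool.Agent.MP_16e930_an.H98

/-- A finite-range Markov chain on `X` with heights `h`. -/
structure Chain (X : Type) [PseudoMetricSpace X] (h : X → ℝ) (ι : Type) [Fintype ι] where
  w : X → ι → ℝ
  z : X → ι → X
  R : ℝ
  ε : ℝ
  γ : ℝ
  lam : ℝ
  hpos : ∀ x, 0 < h x
  hlip : ∀ a b, h a ≤ h b + dist a b
  w0 : ∀ x i, 0 ≤ w x i
  w1 : ∀ x, ∑ i, w x i = 1
  R0 : 0 < R
  ε0 : 0 < ε
  γ0 : 0 < γ
  γ1 : γ ≤ 1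
  lam0 : 0 ≤ lam
  lam1 : lam < 1
  range : ∀ x i, dist (z x i) x ≤ R * h x
  low : ∀ x i, ε * h x ≤ h (z x i)
  drift : ∀ x, ∑ i, w x i * h (z x i) ^ γ ≤ lam * h x ^ γ

namespace Chain

variable {X : Type} [PseudoMetricSpace X] {h : X → ℝ} {ι : Type} [Fintype ι] (c : Chain X h ι)

noncomputable def P (g : X → ℝ≥0∞) (x : X) : ℝ≥0∞ :=
  ∑ i, ENNReal.ofReal (c.w x i) * g (c.z x i)

theorem P_mono {g g' : X → ℝ≥0∞} {x : X} (H : ∀ i, g (c.z x i) ≤ g' (c.z x i)) :
    c.P g x ≤ c.P g' x :=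
  Finset.sum_le_sum fun i _ => by gcongr; exact H i

theorem P_add (g g' : X → ℝ≥0∞) (x : X) :
    c.P (fun y => g y + g' y) x = c.P g x + c.P g' x := by
  simp only [P, mul_add, Finset.sum_add_distrib]

theorem P_mul (a : ℝ≥0∞) (g : X → ℝ≥0∞) (x : X) :
    c.P (fun y => a * g y) x = a * c.P g x := by
  simp only [P, Finset.mul_sum]
  exact Finset.sum_congr rfl fun i _ => by ring

theorem P_const (a : ℝ≥0∞) (x : X) : c.P (fun _ => a) x = a := by
  simp only [P]
  rw [← Finset.sum_mul, ← ENNReal.ofReal_sum_of_nonneg (fun i _ => c.w0 x i), c.w1 x]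
  simp

theorem P_tsum {κ : Type} (g : κ → X → ℝ≥0∞) (x : X) :
    c.P (fun y => ∑' k, g k y) x = ∑' k, c.P (g k) x := by
  simp only [P]
  rw [Summable.tsum_finsetSum (fun _ _ => ENNReal.summable)]
  exact Finset.sum_congr rfl fun i _ => by rw [ENNReal.tsum_mul_left]

theorem P_sum {κ : Type} (s : Finset κ) (g : κ → X → ℝ≥0∞) (x : X) :
    c.P (fun y => ∑ k ∈ s, g k y) x = ∑ k ∈ s, c.P (g k) x := by
  simp only [P, Finset.mul_sum]
  rw [Finset.sum_comm]

theorem P_iSup (g : ℕ → X → ℝ≥0∞) (hg : ∀ y, Monotone fun n => g n y) (x : X) :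
    c.P (fun y => ⨆ n, g n y) x = ⨆ n, c.P (g n) x := by
  simp only [P, ENNReal.mul_iSup]
  rw [ENNReal.finsetSum_iSup_of_monotone]
  intro i a b hab
  exact mul_le_mul_right (hg _ hab) _

theorem P_ofReal {W : X → ℝ} (hW : ∀ y, 0 ≤ W y) (x : X) :
    c.P (fun y => ENNReal.ofReal (W y)) x = ENNReal.ofReal (∑ i, c.w x i * W (c.z x i)) := by
  simp only [P]
  rw [ENNReal.ofReal_sum_of_nonneg (fun i _ => mul_nonneg (c.w0 x i) (hW _))]
  exact Finset.sum_congr rfl fun i _ => by rw [ENNReal.ofReal_mul (c.w0 x i)]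

theorem le_P (g : X → ℝ≥0∞) (x : X) (i : ι) :
    ENNReal.ofReal (c.w x i) * g (c.z x i) ≤ c.P g x :=
  Finset.single_le_sum (f := fun i => ENNReal.ofReal (c.w x i) * g (c.z x i))
    (fun _ _ => zero_le) (Finset.mem_univ i)

open Classical in
noncomputable def r (A : Set X) : ℕ → X → ℝ≥0∞
  | 0 => fun x => if x ∈ A then 1 else 0
  | n + 1 => fun x => if x ∈ A then 1 else c.P (r A n) x

/-- The hitting probability. -/
noncomputable def hit (A : Set X) (x : X) : ℝ≥0∞ := ⨆ n, c.r A n x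

theorem r_mono (A : Set X) (y : X) : Monotone fun n => c.r A n y := by
  have : ∀ n y, c.r A n y ≤ c.r A (n + 1) y := by
    intro n
    induction n with
    | zero => intro y; by_cases hy : y ∈ A <;> simp [r, hy]
    | succ n ih =>
      intro y
      by_cases hy : y ∈ A
      · simp [r, hy]
      · have := c.P_mono (x := y) (fun i => ih (c.z y i))
        simpa [r, hy] using this
  exact monotone_nat_of_le_succ fun n => this n y

theorem hit_le {A : Set X} {g : X → ℝ≥0∞} (h1 : ∀ x ∈ A, 1 ≤ g x)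
    (h2 : ∀ x, x ∉ A → c.P g x ≤ g x) (x : X) : c.hit A x ≤ g x := by
  refine iSup_le fun n => ?_
  induction n generalizing x with
  | zero => by_cases hx : x ∈ A <;> simp [r, hx, h1]
  | succ n ih =>
    by_cases hx : x ∈ A
    · simp [r, hx, h1]
    · simp only [r, hx, if_false]
      exact (c.P_mono fun i => ih _).trans (h2 x hx)

theorem hit_le_one (A : Set X) (x : X) : c.hit A x ≤ 1 :=
  c.hit_le (g := fun _ => 1) (fun _ _ => le_rfl) (fun x _ => (c.P_const 1 x).le) x

theorem hit_mem {A : Set X} {x : X} (hx : x ∈ A) : c.hit A x = 1 :=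
  le_antisymm (c.hit_le_one A x) (le_iSup_of_le 0 (by simp [r, hx]))

theorem hit_notMem {A : Set X} {x : X} (hx : x ∉ A) : c.hit A x = c.P (c.hit A) x := by
  have h1 : c.P (c.hit A) x = ⨆ n, c.P (c.r A n) x := c.P_iSup (c.r A) (c.r_mono A) x
  rw [h1]
  unfold hit
  rw [← (c.r_mono A x).iSup_nat_add 1]
  simp [r, hx]

theorem hit_super (A : Set X) (x : X) : c.P (c.hit A) x ≤ c.hit A x := by
  by_cases hx : x ∈ A
  · rw [c.hit_mem hx]
    exact (c.P_mono fun i => c.hit_le_one A _).trans (c.P_const 1 x).le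
  · exact (c.hit_notMem hx).ge

theorem hit_mono {A B : Set X} (hAB : A ⊆ B) (x : X) : c.hit A x ≤ c.hit B x :=
  c.hit_le (fun _ hy => (c.hit_mem (hAB hy)).ge) (fun y _ => c.hit_super B y) x

/-- Maximum principle for functions dominated by a hitting probability. -/
theorem maxp {A : Set X} {k g : X → ℝ≥0∞} {C : ℝ≥0∞} (hC : C ≠ ⊤)
    (h0 : ∀ x, k x ≤ C * c.hit A x) (h1 : ∀ x, x ∉ A → k x ≤ c.P k x)
    (h2 : ∀ x ∈ A, k x ≤ g x) (h3 : ∀ x, x ∉ A → c.P g x ≤ g x) (x : X) : k x ≤ g x := by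
  have key : ∀ n x, k x + C * c.r A n x ≤ g x + C * c.hit A x := by
    intro n
    induction n with
    | zero =>
      intro x
      by_cases hx : x ∈ A
      · simp only [r, hx, if_true, c.hit_mem hx]
        gcongr
        exact h2 x hx
      · simp only [r, hx, if_false, mul_zero, add_zero]
        exact (h0 x).trans le_add_self
    | succ n ih =>
      intro x
      by_cases hx : x ∈ A
      · simp only [r, hx, if_true, c.hit_mem hx]
        gcongr
        exact h2 x hx
      · simp only [r, hx, if_false]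
        calc k x + C * c.P (c.r A n) x ≤ c.P k x + C * c.P (c.r A n) x := by
              gcongr; exact h1 x hx
          _ = c.P (fun y => k y + C * c.r A n y) x := by rw [c.P_add, c.P_mul]
          _ ≤ c.P (fun y => g y + C * c.hit A y) x := c.P_mono fun i => ih _
          _ = c.P g x + C * c.P (c.hit A) x := by rw [c.P_add, c.P_mul]
          _ ≤ g x + C * c.hit A x := by
              gcongr
              · exact h3 x hx
              · exact c.hit_super A x
  have h4 : k x + C * c.hit A x ≤ g x + C * c.hit A x := by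
    conv_lhs => unfold hit
    rw [ENNReal.mul_iSup, ENNReal.add_iSup]
    exact iSup_le fun n => key n x
  exact (ENNReal.add_le_add_iff_right
    (ENNReal.mul_ne_top hC (ne_top_of_le_ne_top ENNReal.one_ne_top (c.hit_le_one A x)))).1 h4

/-! ### Barriers -/

noncomputable def κ : ℝ := (1 - c.lam) / (4 * c.R)

theorem κ_pos : 0 < c.κ := div_pos (by linarith [c.lam1]) (by linarith [c.R0])

theorem drift' {H : ℝ} (hH : 0 < H) (x : X) :
    ∑ i, c.w x i * (h (c.z x i) / H) ^ c.γ ≤ c.lam * (h x / H) ^ c.γ := by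
  have := c.drift x
  simp only [Real.div_rpow (c.hpos _).le hH.le]
  have h2 : 0 < H ^ c.γ := Real.rpow_pos_of_pos hH _
  calc ∑ i, c.w x i * (h (c.z x i) ^ c.γ / H ^ c.γ)
      = (∑ i, c.w x i * h (c.z x i) ^ c.γ) / H ^ c.γ := by
        rw [Finset.sum_div]; exact Finset.sum_congr rfl fun i _ => by ring
    _ ≤ (c.lam * h x ^ c.γ) / H ^ c.γ := by gcongr
    _ = _ := by ring

noncomputable def bar (d : X → ℝ) (H : ℝ) (y : X) : ℝ :=
  Real.exp (c.κ * d y / H) * (1 + (h y / H) ^ c.γ)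

theorem hpow_nonneg {H : ℝ} (hH : 0 < H) (y : X) : 0 ≤ (h y / H) ^ c.γ :=
  Real.rpow_nonneg (div_nonneg (c.hpos y).le hH.le) _

theorem hpow_le_one {H : ℝ} (hH : 0 < H) {y : X} (hy : h y ≤ H) : (h y / H) ^ c.γ ≤ 1 :=
  Real.rpow_le_one (div_nonneg (c.hpos y).le hH.le) ((div_le_one hH).2 hy) c.γ0.le

theorem one_le_hpow {H : ℝ} (hH : 0 < H) {y : X} (hy : H ≤ h y) : 1 ≤ (h y / H) ^ c.γ :=
  Real.one_le_rpow ((one_le_div hH).2 hy) c.γ0.le

theorem bar_pos (d : X → ℝ) {H : ℝ} (hH : 0 < H) (y : X) : 0 < c.bar d H y :=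
  mul_pos (Real.exp_pos _) (by linarith [c.hpow_nonneg hH y])

theorem exp_le_bar (d : X → ℝ) {H : ℝ} (hH : 0 < H) (y : X) :
    Real.exp (c.κ * d y / H) ≤ c.bar d H y :=
  le_mul_of_one_le_right (Real.exp_pos _).le (by linarith [c.hpow_nonneg hH y])

theorem bar_le (d : X → ℝ) {H : ℝ} (hH : 0 < H) {y : X} (hy : h y ≤ H) :
    c.bar d H y ≤ 2 * Real.exp (c.κ * d y / H) := by
  unfold bar
  nlinarith [c.hpow_le_one hH hy, Real.exp_pos (c.κ * d y / H)]

theorem bar_super {d : X → ℝ} (hd : ∀ a b, d a ≤ d b + dist a b) {H : ℝ} (hH : 0 < H) {x : X}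
    (hx : h x ≤ H) : ∑ i, c.w x i * c.bar d H (c.z x i) ≤ c.bar d H x := by
  set t := h x / H with ht
  have ht0 : 0 < t := div_pos (c.hpos x) hH
  have ht1 : t ≤ 1 := (div_le_one hH).2 hx
  set s := c.κ * c.R * t with hs
  have hs' : s = (1 - c.lam) / 4 * t := by
    rw [hs, κ]; field_simp [c.R0.ne']
  have hl0 := c.lam0
  have hl1 := c.lam1
  have hs0 : 0 ≤ s := by rw [hs']; positivity
  have hs1 : s ≤ 1 := by rw [hs']; nlinarith
  have he : Real.exp s ≤ 1 + 2 * s := by
    have := Real.abs_exp_sub_one_le (x := s) (by rw [abs_of_nonneg hs0]; exact hs1)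
    rw [abs_of_nonneg hs0] at this
    linarith [le_abs_self (Real.exp s - 1)]
  have htg : t ≤ t ^ c.γ := by
    conv_lhs => rw [← Real.rpow_one t]
    exact Real.rpow_le_rpow_of_exponent_ge ht0 ht1 c.γ1
  have htg1 : t ^ c.γ ≤ 1 := c.hpow_le_one hH hx
  have h1 : ∀ i, c.bar d H (c.z x i) ≤
      Real.exp (c.κ * d x / H) * Real.exp s * (1 + (h (c.z x i) / H) ^ c.γ) := by
    intro i
    unfold bar
    rw [← Real.exp_add]
    have : c.κ * d (c.z x i) / H ≤ c.κ * d x / H + s := by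
      rw [hs, ht]
      have h2 : d (c.z x i) ≤ d x + c.R * h x := (hd _ _).trans (by linarith [c.range x i])
      have h3 : c.κ * d x / H + c.κ * c.R * (h x / H) = c.κ * (d x + c.R * h x) / H := by ring
      rw [h3]
      have := c.κ_pos
      gcongr
    have h4 := c.hpow_nonneg hH (c.z x i)
    gcongr
  have hE := Real.exp_pos (c.κ * d x / H)
  calc ∑ i, c.w x i * c.bar d H (c.z x i)
      ≤ ∑ i, c.w x i * (Real.exp (c.κ * d x / H) * Real.exp s * (1 + (h (c.z x i) / H) ^ c.γ)) :=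
        Finset.sum_le_sum fun i _ => mul_le_mul_of_nonneg_left (h1 i) (c.w0 x i)
    _ = Real.exp (c.κ * d x / H) * Real.exp s *
          (∑ i, c.w x i + ∑ i, c.w x i * (h (c.z x i) / H) ^ c.γ) := by
        rw [← Finset.sum_add_distrib, Finset.mul_sum]
        exact Finset.sum_congr rfl fun i _ => by ring
    _ ≤ Real.exp (c.κ * d x / H) * (1 + 2 * s) * (1 + c.lam * t ^ c.γ) := by
        rw [c.w1 x]
        have := c.drift' hH x
        have h5 : 0 ≤ ∑ i, c.w x i * (h (c.z x i) / H) ^ c.γ :=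
          Finset.sum_nonneg fun i _ => mul_nonneg (c.w0 x i) (c.hpow_nonneg hH _)
        gcongr
    _ ≤ c.bar d H x := by
        unfold bar
        rw [mul_assoc, ← ht]
        apply mul_le_mul_of_nonneg_left _ hE.le
        have h6 : c.lam * t ^ c.γ ≤ 1 := by nlinarith
        have h7 : 4 * s ≤ (1 - c.lam) * t ^ c.γ := by rw [hs']; nlinarith
        nlinarith

theorem bar_super' {d : X → ℝ} (hd : ∀ a b, d a ≤ d b + dist a b) {H : ℝ} (hH : 0 < H) {x : X}
    (hx : h x ≤ H) :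
    c.P (fun y => ENNReal.ofReal (c.bar d H y)) x ≤ ENNReal.ofReal (c.bar d H x) := by
  rw [c.P_ofReal fun y => (c.bar_pos d hH y).le]
  exact ENNReal.ofReal_le_ofReal (c.bar_super hd hH hx)

theorem hpow_super {H : ℝ} (hH : 0 < H) (x : X) :
    c.P (fun y => ENNReal.ofReal ((h y / H) ^ c.γ)) x ≤
      ENNReal.ofReal c.lam * ENNReal.ofReal ((h x / H) ^ c.γ) := by
  rw [c.P_ofReal fun y => c.hpow_nonneg hH y, ← ENNReal.ofReal_mul c.lam0]
  exact ENNReal.ofReal_le_ofReal (c.drift' hH x)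

theorem hpow_super' {H : ℝ} (hH : 0 < H) (x : X) :
    c.P (fun y => ENNReal.ofReal ((h y / H) ^ c.γ)) x ≤ ENNReal.ofReal ((h x / H) ^ c.γ) :=
  (c.hpow_super hH x).trans (mul_le_of_le_one_left' (by
    rw [← ENNReal.ofReal_one]; exact ENNReal.ofReal_le_ofReal c.lam1.le))

/-- A superharmonic function that is at least one near the boundary is at least one. -/
theorem one_le_of_boundary {g : X → ℝ≥0∞} (hg : ∀ x, c.P g x ≤ g x) {H : ℝ} (hH : 0 < H)
    (h1 : ∀ x, h x < H → 1 ≤ g x) (x : X) : 1 ≤ g x := by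
  have key : ∀ n : ℕ, ∀ x, 1 ≤ g x +
      ENNReal.ofReal c.lam ^ n * ENNReal.ofReal ((h x / H) ^ c.γ) := by
    intro n
    induction n with
    | zero =>
      intro x
      rcases lt_or_ge (h x) H with hx | hx
      · exact (h1 x hx).trans le_self_add
      · refine le_trans ?_ le_add_self
        rw [pow_zero, one_mul, ← ENNReal.ofReal_one]
        exact ENNReal.ofReal_le_ofReal (c.one_le_hpow hH hx)
    | succ n ih =>
      intro x
      calc (1 : ℝ≥0∞) = c.P (fun _ => 1) x := (c.P_const 1 x).symm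
        _ ≤ c.P (fun y => g y + ENNReal.ofReal c.lam ^ n *
              ENNReal.ofReal ((h y / H) ^ c.γ)) x := c.P_mono fun i => ih _
        _ = c.P g x + ENNReal.ofReal c.lam ^ n *
              c.P (fun y => ENNReal.ofReal ((h y / H) ^ c.γ)) x := by rw [c.P_add, c.P_mul]
        _ ≤ g x + ENNReal.ofReal c.lam ^ n *
              (ENNReal.ofReal c.lam * ENNReal.ofReal ((h x / H) ^ c.γ)) := by
            gcongr
            · exact hg x
            · exact c.hpow_super hH x
        _ = _ := by rw [pow_succ, mul_assoc]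
  have hlim : Filter.Tendsto (fun n : ℕ => g x +
      ENNReal.ofReal c.lam ^ n * ENNReal.ofReal ((h x / H) ^ c.γ)) Filter.atTop
      (nhds (g x + 0 * ENNReal.ofReal ((h x / H) ^ c.γ))) := by
    refine Filter.Tendsto.const_add _ (ENNReal.Tendsto.mul_const ?_ (Or.inr ENNReal.ofReal_ne_top))
    exact ENNReal.tendsto_pow_atTop_nhds_zero_of_lt_one (by
      rw [← ENNReal.ofReal_one]; exact (ENNReal.ofReal_lt_ofReal_iff one_pos).2 c.lam1)
  have := ge_of_tendsto' hlim fun n => key n x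
  simpa using this

end Chain

end Pool.Agent.MP_16e930_an.H98
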