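import Pool.Agent.MP_16e930_an.H98.Pot

set_option autoImplicit false
open scoped ENNReal
open Metric Filter

namespace Pool.Agent.MP_16e930_an.H98

namespace Chain

variable {X : Type} [PseudoMetricSpace X] {h : X → ℝ} {ι : Type} [Fintype ι] (c : Chain X h ι)

theorem exists_exp_le {k : ℝ} (hk : 0 < k) {δ : ℝ} (hδ : 0 < δ) :
    ∃ L : ℝ, 0 < L ∧ ∀ s, L ≤ s → Real.exp (-(k * s)) ≤ δ := by
  refine ⟨1 / (k * δ), by positivity, fun s hs => ?_⟩
  have h1 : 1 / δ ≤ k * s := by
    have : k * (1 / (k * δ)) = 1 / δ := by field_simp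
    rw [← this]; gcongr
  have h2 : k * s ≤ Real.exp (k * s) := by linarith [Real.add_one_le_exp (k * s)]
  rw [Real.exp_neg, inv_le_comm₀ (Real.exp_pos _) hδ, inv_eq_one_div]
  linarith

theorem escape : ∃ A0 : ℝ, 2 ≤ A0 ∧ ∀ y z : X, dist z y ≤ h y →
    c.hit (closedBall y (A0 * h y))ᶜ z ≤ 1 / 2 := by
  set M : ℝ := 2 * 4 ^ (1 / c.γ) with hM
  have h4 : (1 : ℝ) ≤ 4 ^ (1 / c.γ) := Real.one_le_rpow (by norm_num) (by have := c.γ0; positivity)
  have hM2 : 2 ≤ M := by linarith
  have hMγ : (2 / M) ^ c.γ = 1 / 4 := by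
    have : 2 / M = (4 : ℝ) ^ (-(1 / c.γ)) := by
      rw [hM, Real.rpow_neg (by norm_num)]; field_simp
    rw [this, ← Real.rpow_mul (by norm_num)]
    have : -(1 / c.γ) * c.γ = -1 := by field_simp [c.γ0.ne']
    rw [this, Real.rpow_neg_one]; norm_num
  obtain ⟨L, hL, hL'⟩ := exists_exp_le (k := c.κ / M) (div_pos c.κ_pos (by linarith))
    (δ := 1 / 8) (by norm_num)
  refine ⟨L + 2, by linarith, fun y z hz => ?_⟩
  have hy := c.hpos y
  set H := M * h y with hH
  have hH0 : 0 < H := by positivity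
  set d : X → ℝ := fun x => dist x y - (L + 2) * h y with hd
  have hd' : ∀ a b, d a ≤ d b + dist a b := fun a b => by
    simp only [hd]; linarith [dist_triangle a b y]
  set V : X → ℝ≥0∞ := fun x => ENNReal.ofReal (c.bar d H x) + ENNReal.ofReal ((h x / H) ^ c.γ)
    with hV
  have key := c.hit_le (A := (closedBall y ((L + 2) * h y))ᶜ) (g := fun x => min 1 (V x))
    (fun x hx => by
      refine le_min le_rfl (le_trans ?_ le_self_add)
      rw [← ENNReal.ofReal_one]
      refine ENNReal.ofReal_le_ofReal (le_trans ?_ (c.exp_le_bar d hH0 x))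
      refine Real.one_le_exp (div_nonneg (mul_nonneg c.κ_pos.le ?_) hH0.le)
      simp only [Set.mem_compl_iff, mem_closedBall, not_le] at hx
      simp only [hd]; linarith)
    (fun x _ => by
      have h1 : c.P (fun x => min 1 (V x)) x ≤ 1 :=
        (c.P_mono fun i => min_le_left _ _).trans (c.P_const 1 x).le
      refine le_min h1 ?_
      rcases le_total (h x) H with hx | hx
      · refine (c.P_mono (g' := V) fun i => min_le_right _ _).trans ?_
        rw [hV, c.P_add]
        exact add_le_add (c.bar_super' hd' hH0 hx) (c.hpow_super' hH0 x)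
      · refine h1.trans (le_trans ?_ le_add_self)
        rw [← ENNReal.ofReal_one]
        exact ENNReal.ofReal_le_ofReal (c.one_le_hpow hH0 hx)) z
  refine key.trans ((min_le_right _ _).trans ?_)
  have hz2 : h z ≤ 2 * h y := by linarith [c.hlip z y]
  have hzH : h z ≤ H := by rw [hH]; nlinarith
  have e1 : c.bar d H z ≤ 1 / 4 := by
    refine (c.bar_le d hH0 hzH).trans ?_
    have h5 := hL' (L + 1) (by linarith)
    have h6 : c.κ * d z / H ≤ -(c.κ / M * (L + 1)) := by
      have : -(c.κ / M * (L + 1)) = c.κ * (-((L + 1) * h y)) / H := by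
        rw [hH]; field_simp
      rw [this]
      have := c.κ_pos
      have h7 : d z ≤ -((L + 1) * h y) := by simp only [hd]; linarith
      gcongr
    linarith [Real.exp_le_exp.2 h6]
  have e2 : (h z / H) ^ c.γ ≤ 1 / 4 := by
    rw [← hMγ]
    refine Real.rpow_le_rpow (div_nonneg (c.hpos z).le hH0.le) ?_ c.γ0.le
    rw [hH, div_le_div_iff₀ hH0 (by linarith)]
    nlinarith
  simp only [hV]
  rw [← ENNReal.ofReal_add (c.bar_pos d hH0 z).le (c.hpow_nonneg hH0 z)]
  have : (1 / 2 : ℝ≥0∞) = ENNReal.ofReal (1 / 2) := by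
    rw [ENNReal.ofReal_div_of_pos (by norm_num)]; simp
  rw [this]
  exact ENNReal.ofReal_le_ofReal (by linarith)

theorem crossing {y : X} {η r ρ r' b : ℝ} (hη : 0 < η) (h1 : r ≤ ρ) (h2 : ρ ≤ r') {H : Set X}
    (HH : ∀ z, z ∉ H → (dist z y ≤ r' ∨ ∃ i, dist (c.z z i) y ≤ r') → h z ≤ η)
    (hb1 : 2 * Real.exp (c.κ * (ρ - r') / η) ≤ 1 / 2)
    (hb2 : 4 * Real.exp (c.κ * (r - ρ + c.R * η) / η) ≤ b) {x : X} (hx : ρ < dist x y) :
    c.hit (closedBall y r) x ≤ c.hit H x + ENNReal.ofReal b * c.hit (closedBall y r') x := by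
  classical
  have hb0 : 0 < b := by linarith [Real.exp_pos (c.κ * (r - ρ + c.R * η) / η)]
  set d1 : X → ℝ := fun z => r - dist z y with hd1
  set d2 : X → ℝ := fun z => dist z y - r' with hd2
  have hd1' : ∀ a b, d1 a ≤ d1 b + dist a b := fun a b => by
    simp only [hd1]; linarith [dist_triangle b a y, dist_comm a b]
  have hd2' : ∀ a b, d2 a ≤ d2 b + dist a b := fun a b => by
    simp only [hd2]; linarith [dist_triangle a b y]
  set W : X → ℝ≥0∞ := fun z => ENNReal.ofReal (c.bar d1 η z) +
    ENNReal.ofReal b * ENNReal.ofReal (c.bar d2 η z) with hW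
  set Ws : X → ℝ≥0∞ := fun z => if z ∈ H then 0 else if dist z y ≤ ρ then W z else
    min (W z) (ENNReal.ofReal b * c.hit (closedBall y r') z) with hWs
  have hWW : ∀ z, Ws z ≤ W z := fun z => by
    simp only [hWs]
    split_ifs
    · exact zero_le
    · exact le_rfl
    · exact min_le_left _ _
  have hlow : ∀ z, h z ≤ η → c.P Ws z ≤ W z := fun z hz => by
    refine (c.P_mono (g' := W) fun i => hWW _).trans ?_
    rw [hW, c.P_add, c.P_mul]
    exact add_le_add (c.bar_super' hd1' hη hz) (mul_le_mul_right (c.bar_super' hd2' hη hz) _)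
  have hκ := c.κ_pos
  have key := c.hit_le (A := closedBall y r ∪ H) (g := fun z => c.hit H z + Ws z)
    (fun z hz => by
      by_cases hzH : z ∈ H
      · rw [c.hit_mem hzH]; exact le_self_add
      · have hz' : dist z y ≤ r := by simpa [hzH] using hz
        refine le_trans ?_ le_add_self
        simp only [hWs, hzH, hz'.trans h1, if_true, if_false, hW]
        refine le_trans ?_ le_self_add
        rw [← ENNReal.ofReal_one]
        refine ENNReal.ofReal_le_ofReal (le_trans ?_ (c.exp_le_bar d1 hη z))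
        refine Real.one_le_exp (div_nonneg (mul_nonneg hκ.le ?_) hη.le)
        simp only [hd1]; linarith)
    (fun z hz => by
      have hzH : z ∉ H := fun h' => hz (Or.inr h')
      rw [c.P_add]
      refine add_le_add (c.hit_super H z) ?_
      by_cases hzρ : dist z y ≤ ρ
      · have : Ws z = W z := by simp only [hWs, hzH, hzρ, if_true, if_false]
        rw [this]
        exact hlow z (HH z hzH (Or.inl (hzρ.trans h2)))
      · have : Ws z = min (W z) (ENNReal.ofReal b * c.hit (closedBall y r') z) := by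
          simp only [hWs, hzH, hzρ, if_false]
        rw [this]
        have hii : c.P Ws z ≤ ENNReal.ofReal b * c.hit (closedBall y r') z := by
          refine le_trans (c.P_mono (g' := fun z => ENNReal.ofReal b *
            c.hit (closedBall y r') z) fun i => ?_) ?_
          · set z' := c.z z i with hz'
            simp only [hWs]
            split_ifs with ha hb
            · exact zero_le
            · have hzl : h z ≤ η := HH z hzH (Or.inr ⟨i, hb.trans h2⟩)
              have hzl' : h z' ≤ η := HH z' ha (Or.inl (hb.trans h2))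
              rw [c.hit_mem (show z' ∈ closedBall y r' from hb.trans h2), mul_one]
              have hr := c.range z i
              have hR := c.R0
              have e0 : ρ - c.R * η ≤ dist z' y := by
                have := dist_triangle z z' y
                rw [dist_comm z z'] at this
                have h3 : c.R * h z ≤ c.R * η := by gcongr
                linarith [not_le.1 hzρ]
              have e1 : c.bar d1 η z' ≤ b / 2 := by
                refine (c.bar_le d1 hη hzl').trans ?_
                have : c.κ * d1 z' / η ≤ c.κ * (r - ρ + c.R * η) / η := by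
                  have : d1 z' ≤ r - ρ + c.R * η := by simp only [hd1]; linarith
                  gcongr
                linarith [Real.exp_le_exp.2 this]
              have e2 : c.bar d2 η z' ≤ 1 / 2 := by
                refine (c.bar_le d2 hη hzl').trans ?_
                have : c.κ * d2 z' / η ≤ c.κ * (ρ - r') / η := by
                  have : d2 z' ≤ ρ - r' := by simp only [hd2]; linarith
                  gcongr
                linarith [Real.exp_le_exp.2 this]
              simp only [hW]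
              rw [← ENNReal.ofReal_mul hb0.le, ← ENNReal.ofReal_add (c.bar_pos _ hη _).le
                (mul_nonneg hb0.le (c.bar_pos _ hη _).le)]
              exact ENNReal.ofReal_le_ofReal (by nlinarith)
            · exact min_le_right _ _
          · rw [c.P_mul]
            exact mul_le_mul_right (c.hit_super _ z) _
        refine le_min ?_ hii
        by_cases hzr : dist z y ≤ r'
        · exact hlow z (HH z hzH (Or.inl hzr))
        · refine hii.trans (le_trans ?_ le_add_self)
          refine mul_le_mul_right ((c.hit_le_one _ _).trans ?_) _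
          rw [← ENNReal.ofReal_one]
          refine ENNReal.ofReal_le_ofReal (le_trans ?_ (c.exp_le_bar d2 hη z))
          refine Real.one_le_exp (div_nonneg (mul_nonneg hκ.le ?_) hη.le)
          simp only [hd2]; linarith [not_le.1 hzr]) x
  refine (c.hit_mono Set.subset_union_left x).trans (key.trans ?_)
  refine add_le_add le_rfl ?_
  simp only [hWs]
  split_ifs with ha hb
  · exact zero_le
  · exact absurd hb (not_le.2 hx)
  · exact min_le_right _ _

/-- Harnack chain condition for the targets `U y`. -/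
def HC (U : X → Set X) : Prop :=
  ∀ L : ℝ, 0 < L → ∃ C : ℝ, 1 ≤ C ∧ ∀ (y z : X) (j : ℕ), h y / 2 ^ j ≤ h z →
    dist z y ≤ L * h y → 1 ≤ ENNReal.ofReal C ^ (j + 1) * c.hit (U y) z

theorem ancona {U : X → Set X} (hU : c.HC U) {A1 : ℝ} (hA1 : 0 < A1) :
    ∃ Cs : ℝ≥0∞, Cs ≠ ⊤ ∧ ∀ y x : X, (A1 + 2) * h y < dist x y →
      c.hit (closedBall y (A1 * h y)) x ≤ Cs * c.hit (U y) x := by
  have hR := c.R0
  have hε := c.ε0
  have hκ := c.κ_pos
  set A3 : ℝ := A1 + 2 + c.R * ((1 + (A1 + 2)) / c.ε) with hA3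
  obtain ⟨C, hC1, hC⟩ := hU A3 (by positivity)
  obtain ⟨L, hL, hL'⟩ := exists_exp_le hκ (δ := 1 / (8 * C)) (by positivity)
  obtain ⟨j0, hj0⟩ : ∃ j0 : ℕ, 2 * (L + c.R) ≤ 2 ^ j0 :=
    (pow_unbounded_of_one_lt (2 * (L + c.R)) (by norm_num : (1 : ℝ) < 2)).imp fun _ h => h.le
  set D := ENNReal.ofReal C with hD
  set β := ENNReal.ofReal (1 / (2 * C)) with hβ
  have hβD : 2 * (β * D) = 1 := by
    rw [hβ, hD, ← ENNReal.ofReal_mul (by positivity)]
    have : 1 / (2 * C) * C = 1 / 2 := by field_simp
    rw [this, ← ENNReal.ofReal_ofNat 2, ← ENNReal.ofReal_mul (by norm_num)]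
    norm_num
  have hβ1 : β < 1 := by
    rw [hβ, ← ENNReal.ofReal_one]
    refine (ENNReal.ofReal_lt_ofReal_iff one_pos).2 ?_
    rw [div_lt_one (by positivity)]; linarith
  refine ⟨2 * D ^ (0 + j0 + 1), ENNReal.mul_ne_top (by norm_num)
    (ENNReal.pow_ne_top ENNReal.ofReal_ne_top), fun y x hx => ?_⟩
  have hy := c.hpos y
  set rr : ℕ → ℝ := fun j => (A1 + 2 - 2 / 2 ^ j) * h y with hrr
  have hstep : ∀ j, c.hit (closedBall y (rr j)) x ≤ D ^ (j + j0 + 1) * c.hit (U y) x +
      β * c.hit (closedBall y (rr (j + 1))) x := by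
    intro j
    set η := h y / 2 ^ (j + j0) with hη
    have hη0 : 0 < η := by positivity
    have hp : (0 : ℝ) < 2 ^ j := by positivity
    have hq : (0 : ℝ) < 2 ^ j0 := by positivity
    have e1 : rr (j + 1) = rr j + 2 ^ j0 * η := by
      simp only [hrr, hη, pow_succ, pow_add]; field_simp; ring
    have e2 : rr (j + 1) ≤ (A1 + 2) * h y := by
      simp only [hrr]
      have : (0 : ℝ) < 2 / 2 ^ (j + 1) := by positivity
      nlinarith
    have hA23 : (A1 + 2) * h y ≤ A3 * h y := by
      have : 0 ≤ c.R * ((1 + (A1 + 2)) / c.ε) := by positivity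
      rw [hA3]; nlinarith
    have hpos : 0 < 2 ^ j0 * η := by positivity
    have := c.crossing (y := y) (η := η) (r := rr j) (ρ := rr j + 2 ^ j0 * η / 2)
      (r' := rr (j + 1)) (b := 1 / (2 * C)) hη0 (by linarith) (by rw [e1]; linarith)
      (H := {z | η ≤ h z ∧ dist z y ≤ A3 * h y})
      (fun z hz hz' => by
        by_contra hcon
        refine hz ⟨(not_le.1 hcon).le, ?_⟩
        rcases hz' with hz' | ⟨i, hi⟩
        · linarith
        · have a1 := c.hlip (c.z z i) y
          have a2 := c.low z i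
          have a3 := c.range z i
          have a4 : h z ≤ (1 + (A1 + 2)) / c.ε * h y := by
            rw [div_mul_eq_mul_div, le_div_iff₀ hε]; nlinarith
          have a5 := dist_triangle z (c.z z i) y
          rw [dist_comm z (c.z z i)] at a5
          have a6 : c.R * h z ≤ c.R * ((1 + (A1 + 2)) / c.ε * h y) := by gcongr
          rw [hA3]; nlinarith)
      (by
        have a1 : c.κ * (rr j + 2 ^ j0 * η / 2 - rr (j + 1)) / η = -(c.κ * (2 ^ j0 / 2)) := by
          rw [e1]; field_simp; ring
        rw [a1]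
        have a2 := hL' (2 ^ j0 / 2) (by linarith)
        have a3 : 1 / (8 * C) ≤ 1 / 8 := by
          apply one_div_le_one_div_of_le <;> linarith
        linarith)
      (by
        have a1 : c.κ * (rr j - (rr j + 2 ^ j0 * η / 2) + c.R * η) / η =
            -(c.κ * (2 ^ j0 / 2 - c.R)) := by
          field_simp; ring
        rw [a1]
        have a2 := hL' (2 ^ j0 / 2 - c.R) (by linarith)
        have a3 : 4 * (1 / (8 * C)) = 1 / (2 * C) := by field_simp; ring
        linarith)
      (x := x) (by linarith)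
    refine this.trans (add_le_add ?_ le_rfl)
    exact c.hit_le (g := fun z => D ^ (j + j0 + 1) * c.hit (U y) z)
      (fun z hz => hC y z (j + j0) hz.1 hz.2)
      (fun z _ => by rw [c.P_mul]; exact mul_le_mul_right (c.hit_super _ z) _) x
  have hind : ∀ n j, c.hit (closedBall y (rr j)) x ≤
      2 * D ^ (j + j0 + 1) * c.hit (U y) x + β ^ n := by
    intro n
    induction n with
    | zero => intro j; rw [pow_zero]; exact (c.hit_le_one _ _).trans le_add_self
    | succ n ih =>
      intro j
      refine (hstep j).trans ?_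
      calc D ^ (j + j0 + 1) * c.hit (U y) x + β * c.hit (closedBall y (rr (j + 1))) x
          ≤ D ^ (j + j0 + 1) * c.hit (U y) x +
            β * (2 * D ^ (j + 1 + j0 + 1) * c.hit (U y) x + β ^ n) := by
            gcongr; exact ih (j + 1)
        _ = D ^ (j + j0 + 1) * c.hit (U y) x +
            2 * (β * D) * (D ^ (j + j0 + 1) * c.hit (U y) x) + β ^ (n + 1) := by ring
        _ = _ := by rw [hβD]; ring
  have hlim : Tendsto (fun n : ℕ => 2 * D ^ (0 + j0 + 1) * c.hit (U y) x + β ^ n) atTop
      (nhds (2 * D ^ (0 + j0 + 1) * c.hit (U y) x + 0)) :=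
    Tendsto.const_add _ (ENNReal.tendsto_pow_atTop_nhds_zero_of_lt_one hβ1)
  have := ge_of_tendsto' hlim fun n => hind n 0
  have e0 : rr 0 = A1 * h y := by simp only [hrr]; ring
  rw [e0, add_zero] at this
  exact this

theorem dom {κ : Type} (J : Finset κ) (U : κ → Set X) (s : ℝ≥0∞)
    (hs : ∀ z ∈ ⋃ j ∈ J, U j, ∑ j ∈ J, c.hit (U j) z ≤ s) (x : X) :
    ∑ j ∈ J, c.hit (U j) x ≤ s * c.hit (⋃ j ∈ J, U j) x := by
  refine c.maxp (A := ⋃ j ∈ J, U j) (k := fun x => ∑ j ∈ J, c.hit (U j) x)
    (g := fun x => s * c.hit (⋃ j ∈ J, U j) x) (C := J.card) (ENNReal.natCast_ne_top _)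
    (fun x => ?_) (fun x hx => ?_) (fun x hx => ?_) (fun x _ => ?_) x
  · rw [← nsmul_eq_mul]
    exact Finset.sum_le_card_nsmul _ _ _ fun j hj =>
      c.hit_mono (Set.subset_biUnion_of_mem (u := U) (Finset.mem_coe.2 hj)) x
  · rw [c.P_sum]
    refine Finset.sum_le_sum fun j hj => (c.hit_notMem fun h' => hx ?_).le
    exact Set.mem_biUnion (Finset.mem_coe.2 hj) h'
  · rw [c.hit_mem hx, mul_one]; exact hs x hx
  · rw [c.P_mul]; exact mul_le_mul_right (c.hit_super _ x) _

theorem sum_hit_le {κ : Type} [DecidableEq κ] (J : Finset κ) (U : κ → Set X)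
    (hU : ∀ i ∈ J, ∀ z ∈ U i, c.hit (⋃ j ∈ J.erase i, U j) z ≤ 1 / 2) (x : X) :
    ∑ j ∈ J, c.hit (U j) x ≤ 2 * c.hit (⋃ j ∈ J, U j) x := by
  set s : ℝ≥0∞ := ⨆ z ∈ ⋃ j ∈ J, U j, ∑ j ∈ J, c.hit (U j) z with hs
  have hs1 : ∀ z ∈ ⋃ j ∈ J, U j, ∑ j ∈ J, c.hit (U j) z ≤ s := fun z hz =>
    le_iSup₂_of_le (f := fun z (_ : z ∈ ⋃ j ∈ J, U j) => ∑ j ∈ J, c.hit (U j) z) z hz le_rfl
  have hs2 : s ≠ ⊤ := by
    refine ne_top_of_le_ne_top (ENNReal.natCast_ne_top J.card) (iSup₂_le fun z _ => ?_)
    have := Finset.sum_le_card_nsmul J (fun j => c.hit (U j) z) 1 fun j _ => c.hit_le_one _ z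
    simpa using this
  have hs3 : s ≤ 1 + s * (1 / 2) := by
    refine iSup₂_le fun z hz => ?_
    obtain ⟨i, hi, hz'⟩ : ∃ i ∈ J, z ∈ U i := by simpa using hz
    rw [← Finset.add_sum_erase J _ hi]
    refine add_le_add (c.hit_le_one _ _) ?_
    refine (c.dom (J.erase i) U s (fun z' hz'' => ?_) z).trans
      (mul_le_mul_right (hU i hi z hz') _)
    refine le_trans (Finset.sum_le_sum_of_subset (Finset.erase_subset _ _)) (hs1 z' ?_)
    obtain ⟨j, hj, hz3⟩ : ∃ j ∈ J.erase i, z' ∈ U j := by simpa using hz''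
    exact Set.mem_biUnion (Finset.mem_coe.2 (Finset.mem_of_mem_erase hj)) hz3
  have hs4 : s ≤ 2 := by
    clear_value s
    lift s to NNReal using hs2
    have h12 : (1 / 2 : ℝ≥0∞) = ((1 / 2 : NNReal) : ℝ≥0∞) := by simp
    rw [h12] at hs3
    have h5 : s ≤ 1 + s * (1 / 2) := by exact_mod_cast hs3
    have h6 : (s : ℝ) ≤ 1 + s * (1 / 2) := by exact_mod_cast h5
    have h7 : (s : ℝ) ≤ 2 := by linarith
    exact_mod_cast h7
  exact c.dom J U 2 (fun z hz => (hs1 z hz).trans hs4) x

end Chain

end Pool.Agent.MP_16e930_an.H98
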