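import Pool.Agent.MP_16e930_an.H98.Pot2

set_option autoImplicit false
open scoped ENNReal
open Metric Filter

namespace Pool.Agent.MP_16e930_an.H98

namespace Chain

variable {X : Type} [PseudoMetricSpace X] {h : X → ℝ} {ι : Type} [Fintype ι] (c : Chain X h ι)
variable {Z : Type} (N : Z → Filter X)

def Up (S : Set Z) (g : X → ℝ≥0∞) : Prop :=
  (∀ x, c.P g x ≤ g x) ∧ ∀ ζ ∈ S, ∀ᶠ x in N ζ, 1 ≤ g x

/-- The upper Perron solution. -/
noncomputable def om (S : Set Z) (x : X) : ℝ≥0∞ := ⨅ (g : X → ℝ≥0∞) (_ : c.Up N S g), g x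

theorem om_le {S : Set Z} {g : X → ℝ≥0∞} (hg : c.Up N S g) (x : X) : c.om N S x ≤ g x :=
  iInf₂_le_of_le g hg le_rfl

theorem up_one (S : Set Z) : c.Up N S fun _ => 1 :=
  ⟨fun x => (c.P_const 1 x).le, fun _ _ => Eventually.of_forall fun _ => le_rfl⟩

theorem om_le_one (S : Set Z) (x : X) : c.om N S x ≤ 1 := c.om_le N (c.up_one N S) x

theorem up_min {S : Set Z} {g g' : X → ℝ≥0∞} (hg : c.Up N S g) (hg' : c.Up N S g') :
    c.Up N S fun x => min (g x) (g' x) :=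
  ⟨fun x => le_min ((c.P_mono fun _ => min_le_left _ _).trans (hg.1 x))
      ((c.P_mono fun _ => min_le_right _ _).trans (hg'.1 x)),
    fun ζ hζ => ((hg.2 ζ hζ).and (hg'.2 ζ hζ)).mono fun _ hx => le_min hx.1 hx.2⟩

theorem exists_up {S : Set Z} (x : X) {δ : ℝ≥0∞} (hδ : δ ≠ 0) :
    ∃ g, c.Up N S g ∧ g x ≤ c.om N S x + δ := by
  have h1 : c.om N S x < c.om N S x + δ :=
    ENNReal.lt_add_right (ne_top_of_le_ne_top ENNReal.one_ne_top (c.om_le_one N S x)) hδ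
  conv_lhs at h1 => unfold om
  obtain ⟨g, hg⟩ := iInf_lt_iff.1 h1
  obtain ⟨hg1, hg2⟩ := iInf_lt_iff.1 hg
  exact ⟨g, hg1, hg2.le⟩

theorem om_sub (hN : ∀ ζ, ∀ S ∈ N ζ, {x | ∀ i, c.z x i ∈ S} ∈ N ζ) (S : Set Z) (x : X) :
    c.om N S x ≤ c.P (c.om N S) x := by
  classical
  refine ENNReal.le_of_forall_pos_le_add fun δ hδ _ => ?_
  have hδ' : (δ : ℝ≥0∞) ≠ 0 := by exact_mod_cast hδ.ne'
  have key : ∀ s : Finset ι, ∃ g, c.Up N S g ∧
      ∀ i ∈ s, g (c.z x i) ≤ c.om N S (c.z x i) + δ := by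
    intro s
    induction s using Finset.induction_on with
    | empty => exact ⟨_, c.up_one N S, by simp⟩
    | insert a s _ ih =>
      obtain ⟨g, hg, hg'⟩ := ih
      obtain ⟨g1, hg1, hg1'⟩ := c.exists_up N (S := S) (c.z x a) hδ'
      refine ⟨_, c.up_min N hg hg1, fun i hi => ?_⟩
      rcases Finset.mem_insert.1 hi with rfl | hi
      · exact (min_le_right _ _).trans hg1'
      · exact (min_le_left _ _).trans (hg' i hi)
  obtain ⟨g, hg, hg'⟩ := key Finset.univ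
  have hPg : c.Up N S (c.P g) := by
    refine ⟨fun y => c.P_mono fun i => hg.1 _, fun ζ hζ => ?_⟩
    filter_upwards [hN ζ _ (hg.2 ζ hζ)] with y hy
    exact (c.P_const 1 y).ge.trans (c.P_mono hy)
  calc c.om N S x ≤ c.P g x := c.om_le N hPg x
    _ ≤ c.P (fun y => c.om N S y + δ) x := c.P_mono fun i => hg' i (Finset.mem_univ i)
    _ = _ := by rw [c.P_add, c.P_const]

theorem om_le_hit {U : X → Set X} (hU : c.HC U) (hU' : ∀ y, ∀ z ∈ U y, dist z y ≤ h y)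
    {S : Set Z} {Y0 Y : Set X} {C0 : ℝ≥0∞} (hC0 : C0 ≠ ⊤)
    (hS : ∀ ζ ∈ S, ∀ η : ℝ, 0 < η → ∃ y ∈ Y0, h y ≤ η ∧ closedBall y (2 * h y) ∈ N ζ)
    (hY : ∀ y ∈ Y0, ∀ z ∈ U y, 1 ≤ C0 * c.hit Y z) :
    ∃ C : ℝ≥0∞, C ≠ ⊤ ∧ ∀ x, c.om N S x ≤ C * c.hit Y x := by
  classical
  obtain ⟨A0, hA0, hesc⟩ := c.escape
  obtain ⟨Cs, hCs, hanc⟩ := c.ancona hU (A1 := 5 * A0) (by linarith)
  refine ⟨Cs * (2 * C0), ENNReal.mul_ne_top hCs (ENNReal.mul_ne_top (by norm_num) hC0),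
    fun x => ?_⟩
  have hx := c.hpos x
  set η := h x / (5 * A0 + 4) with hη
  have hη0 : 0 < η := div_pos hx (by linarith)
  obtain ⟨u, hu1, hu2, hu3⟩ := Vitali.exists_disjoint_subfamily_covering_enlargement_closedBall
    {y ∈ Y0 | h y ≤ η} (fun y => y) (fun y => A0 * h y) (A0 * η)
    (fun a ha => mul_le_mul_of_nonneg_left ha.2 (by linarith)) 5 (by norm_num)
  have hg : c.Up N S fun z => ∑' y : u, c.hit (closedBall (y : X) (5 * A0 * h y)) z := by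
    refine ⟨fun z => ?_, fun ζ hζ => ?_⟩
    · rw [c.P_tsum]
      exact ENNReal.tsum_le_tsum fun y => c.hit_super _ z
    · obtain ⟨y, hy, hy1, hy2⟩ := hS ζ hζ η hη0
      obtain ⟨b, hb, hb'⟩ := hu3 y ⟨hy, hy1⟩
      filter_upwards [hy2] with z hz
      have h1 : z ∈ closedBall b (5 * A0 * h b) := by
        rw [mul_assoc]
        exact hb' (closedBall_subset_closedBall (by nlinarith [c.hpos y]) hz)
      exact (c.hit_mem h1).ge.trans (ENNReal.le_tsum (f := fun y : u =>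
        c.hit (closedBall (y : X) (5 * A0 * h y)) z) ⟨b, hb⟩)
  refine (c.om_le N hg x).trans ?_
  rw [ENNReal.tsum_eq_iSup_sum]
  refine iSup_le fun J => ?_
  have h1 : ∀ y : u, c.hit (closedBall (y : X) (5 * A0 * h y)) x ≤ Cs * c.hit (U y) x := by
    intro y
    refine hanc y x ?_
    have a1 := c.hlip x y
    have a2 : h y ≤ η := (hu1 y.2).2
    have a3 : h x = (5 * A0 + 4) * η := by rw [hη]; field_simp
    nlinarith
  have h2 := c.sum_hit_le J (fun y : u => U y) (fun i _ z hz => by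
    refine le_trans (c.hit_mono ?_ z) (hesc i z (hU' i z hz))
    intro z' hz'
    obtain ⟨j, hj, hz''⟩ : ∃ j ∈ J.erase i, z' ∈ U j := by simpa using hz'
    have hne : (j : X) ≠ i := fun h' => (Finset.mem_erase.1 hj).1 (Subtype.ext h')
    have hd := hu2 j.2 i.2 hne
    refine Set.disjoint_left.1 hd ?_
    exact (hU' j z' hz'').trans (by nlinarith [c.hpos j])) x
  have h3 : c.hit (⋃ j ∈ J, U j) x ≤ C0 * c.hit Y x :=
    c.hit_le (g := fun z => C0 * c.hit Y z) (fun z hz => by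
      obtain ⟨j, _, hz'⟩ : ∃ j ∈ J, z ∈ U j := by simpa using hz
      exact hY j (hu1 j.2).1 z hz')
      (fun z _ => by rw [c.P_mul]; exact mul_le_mul_right (c.hit_super _ z) _) x
  calc ∑ y ∈ J, c.hit (closedBall (y : X) (5 * A0 * h y)) x
      ≤ ∑ y ∈ J, Cs * c.hit (U y) x := Finset.sum_le_sum fun y _ => h1 y
    _ = Cs * ∑ y ∈ J, c.hit (U y) x := by rw [Finset.mul_sum]
    _ ≤ Cs * (2 * (C0 * c.hit Y x)) := by
        gcongr
        exact h2.trans (mul_le_mul_right h3 _)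
    _ = _ := by ring

theorem eq_zero_of_cross {k F : X → ℝ≥0∞} (hk1 : ∀ x, k x ≤ 1) (hk : ∀ x, k x ≤ c.P k x)
    (hF : ∀ x, c.P F x ≤ F x) {a b : ℝ≥0∞} (hab : a < b) (hb : b ≠ ⊤) {C C' : ℝ≥0∞}
    (hC : C ≠ ⊤) (hC' : C' ≠ ⊤) (h0 : ∀ x, k x ≤ C * c.hit {y | F y ≤ a} x)
    (h1 : ∀ x, k x ≤ C' * c.hit {y | b ≤ F y} x) (x : X) : k x = 0 := by
  set s := ⨆ x, k x with hs
  have hs1 : s ≤ 1 := iSup_le hk1
  have hs2 : ∀ x, k x ≤ s := fun x => le_iSup k x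
  have hb0 : b ≠ 0 := (lt_of_le_of_lt zero_le hab).ne'
  have e1 : ∀ x, k x ≤ s * b⁻¹ * F x := c.maxp hC' h1 (fun x _ => hk x)
    (fun x hx => by
      calc k x ≤ s := hs2 x
        _ = s * b⁻¹ * b := by rw [mul_assoc, ENNReal.inv_mul_cancel hb0 hb, mul_one]
        _ ≤ _ := mul_le_mul_right hx _)
    (fun x _ => by rw [c.P_mul]; exact mul_le_mul_right (hF x) _)
  have e2 : ∀ x, k x ≤ s * b⁻¹ * a := c.maxp (g := fun _ => s * b⁻¹ * a) hC h0 (fun x _ => hk x)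
    (fun x hx => (e1 x).trans (mul_le_mul_right hx _)) (fun x _ => (c.P_const _ x).le)
  have e3 : s ≤ s * b⁻¹ * a := iSup_le e2
  have e4 : s = 0 := by
    by_contra hne
    have hlt : b⁻¹ * a < 1 := by
      rw [← ENNReal.inv_mul_cancel hb0 hb]
      exact ENNReal.mul_lt_mul_right (ENNReal.inv_ne_zero.2 hb) (ENNReal.inv_ne_top.2 hb0) hab
    have : s * (b⁻¹ * a) < s * 1 :=
      ENNReal.mul_lt_mul_right hne (ne_top_of_le_ne_top ENNReal.one_ne_top hs1) hlt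
    rw [mul_one, ← mul_assoc] at this
    exact absurd e3 (not_le.2 this)
  exact le_antisymm (e4 ▸ hs2 x) zero_le

theorem not_cover {κ : Type} [Countable κ] (S : κ → Set Z) (x0 : X)
    (h0 : ∀ k, c.om N (S k) x0 = 0) (hS : ∀ ζ, ∃ k, ζ ∈ S k)
    (hN : ∀ T : Set X, (∀ ζ, T ∈ N ζ) → ∃ H : ℝ, 0 < H ∧ ∀ x, h x < H → x ∈ T) : False := by
  obtain ⟨δ, hδ, hδ'⟩ := ENNReal.exists_pos_sum_of_countable (ε := 1) one_ne_zero κ
  have : ∀ k, ∃ g, c.Up N (S k) g ∧ g x0 ≤ δ k := fun k => by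
    obtain ⟨g, hg, hg'⟩ := c.exists_up N (S := S k) x0 (δ := δ k) (by exact_mod_cast (hδ k).ne')
    exact ⟨g, hg, by simpa [h0 k] using hg'⟩
  choose g hg hg' using this
  obtain ⟨H, hH, hH'⟩ := hN {x | 1 ≤ ∑' k, g k x} fun ζ => by
    obtain ⟨k, hk⟩ := hS ζ
    filter_upwards [(hg k).2 ζ hk] with x hx
    exact hx.trans (ENNReal.le_tsum (f := fun k => g k x) k)
  have := c.one_le_of_boundary (g := fun x => ∑' k, g k x) (fun x => by
    rw [c.P_tsum]; exact ENNReal.tsum_le_tsum fun k => (hg k).1 x) hH hH' x0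
  exact absurd (this.trans (ENNReal.tsum_le_tsum hg')) (not_le.2 hδ')

end Chain

end Pool.Agent.MP_16e930_an.H98
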