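import Pool.Agent.MP_16e930_an.H98.Pot3

set_option autoImplicit false
open scoped ENNReal RealInnerProductSpace
open Metric Filter Topology

namespace Pool.Agent.MP_16e930_an.H98

abbrev E := EuclideanSpace ℝ (Fin 3)

/-- The two Harnack-type properties that the probabilistic part uses. -/
structure Good (f : E → E) (c : ℝ) : Prop where
  c0 : 0 < c
  c1 : c ≤ 1
  maps : ∀ x ∈ ball (0 : E) 1, f x ∈ ball (0 : E) 1
  cont : ContinuousOn f (ball 0 1)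
  bot : ∀ x : E, ‖x‖ < 1 → ∀ ε : ℝ, 0 < ε → ε < 1 → ∀ (e : E) (m M : ℝ), 0 ≤ M →
    (∀ z, dist z x ≤ 5 * (1 - ‖x‖) → ‖z‖ ≤ 1 - ε * (1 - ‖x‖) / 2 → m ≤ ⟪e, f z⟫) →
    (∀ z, dist z x ≤ 5 * (1 - ‖x‖) → ‖z‖ ≤ 1 - ε * (1 - ‖x‖) / 2 →
      1 - ε * (1 - ‖x‖) ≤ ‖z‖ → m + M ≤ ⟪e, f z⟫) → m + c * M ≤ ⟪e, f x⟫
  int : ∀ x : E, ‖x‖ < 1 → ∀ y, dist y x ≤ (1 - ‖x‖) / 20 → ∀ (e : E) (m : ℝ),
    (∀ z, dist z x ≤ (1 - ‖x‖) / 2 → m ≤ ⟪e, f z⟫) → m + c * (⟪e, f y⟫ - m) ≤ ⟪e, f x⟫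

theorem hull4 {K : Set E} {p : E} (hp : p ∈ convexHull ℝ K) :
    ∃ (w : Fin 4 → ℝ) (y : Fin 4 → E), (∀ i, 0 ≤ w i) ∧ ∑ i, w i = 1 ∧ (∀ i, y i ∈ K) ∧
      ∑ i, w i • y i = p := by
  classical
  obtain ⟨ι, _, z, w, hz, hai, hw, hw1, hp'⟩ := eq_pos_convex_span_of_mem_convexHull hp
  have hcard : Fintype.card ι ≤ Fintype.card (Fin 4) := by
    have h1 := hai.card_le_finrank_succ
    have h2 : Module.finrank ℝ (vectorSpan ℝ (Set.range z)) ≤ Module.finrank ℝ E :=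
      Submodule.finrank_le _
    have h3 : Module.finrank ℝ E = 3 := by simp
    rw [Fintype.card_fin]; omega
  obtain ⟨φ⟩ := Function.Embedding.nonempty_of_card_le hcard
  have hne : Nonempty ι := by
    by_contra h
    rw [not_nonempty_iff] at h
    simp at hw1
  obtain ⟨i0⟩ := hne
  have hsum : ∀ {M : Type} [AddCommMonoid M] (g : Fin 4 → M),
      (∀ j, (¬ ∃ i, φ i = j) → g j = 0) → ∑ j, g j = ∑ i, g (φ i) := by
    intro M _ g hg
    rw [← Finset.sum_map Finset.univ φ g]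
    symm
    refine Finset.sum_subset (Finset.subset_univ _) fun j _ hj => hg j ?_
    rintro ⟨i, rfl⟩
    exact hj (Finset.mem_map_of_mem φ (Finset.mem_univ i))
  refine ⟨Function.extend φ w 0, Function.extend φ z fun _ => z i0, fun j => ?_, ?_,
    fun j => ?_, ?_⟩
  · by_cases hj : ∃ i, φ i = j
    · obtain ⟨i, rfl⟩ := hj
      rw [φ.injective.extend_apply]; exact (hw i).le
    · rw [Function.extend_apply' _ _ _ hj]; exact le_rfl
  · rw [hsum _ fun j hj => by rw [Function.extend_apply' _ _ _ hj]; rfl, ← hw1]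
    exact Finset.sum_congr rfl fun i _ => φ.injective.extend_apply _ _ _
  · by_cases hj : ∃ i, φ i = j
    · obtain ⟨i, rfl⟩ := hj
      rw [φ.injective.extend_apply]; exact hz ⟨i, rfl⟩
    · rw [Function.extend_apply' _ _ _ hj]; exact hz ⟨i0, rfl⟩
  · rw [hsum _ fun j hj => by rw [Function.extend_apply' _ _ _ hj]; simp, ← hp']
    exact Finset.sum_congr rfl fun i _ => by
      rw [φ.injective.extend_apply, φ.injective.extend_apply]

theorem isCompact_hull {K : Set E} (hK : IsCompact K) : IsCompact (convexHull ℝ K) := by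
  have h1 : IsCompact ((stdSimplex ℝ (Fin 4)) ×ˢ (Set.pi Set.univ fun _ : Fin 4 => K)) :=
    (isCompact_stdSimplex ℝ (Fin 4)).prod (isCompact_univ_pi fun _ => hK)
  have h2 := h1.image (f := fun q : (Fin 4 → ℝ) × (Fin 4 → E) => ∑ i, q.1 i • q.2 i)
    (by fun_prop)
  convert h2 using 1
  ext p
  constructor
  · intro hp
    obtain ⟨w, y, hw, hw1, hy, hp'⟩ := hull4 hp
    exact ⟨(w, y), ⟨⟨hw, hw1⟩, fun i _ => hy i⟩, hp'⟩
  · rintro ⟨⟨w, y⟩, ⟨⟨hw, hw1⟩, hy⟩, rfl⟩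
    exact (convex_convexHull ℝ K).sum_mem (fun i _ => hw i) hw1
      fun i _ => subset_convexHull ℝ K (hy i (Set.mem_univ i))

theorem exists_norm_eq (x : E) {ρ : ℝ} (hρ : ‖x‖ ≤ ρ) :
    ∃ z : E, ‖z‖ = ρ ∧ dist z x = ρ - ‖x‖ := by
  by_cases hx : x = 0
  · subst hx
    have hρ' : 0 ≤ ρ := by simpa using hρ
    refine ⟨EuclideanSpace.single 0 ρ, ?_, ?_⟩ <;> simp [abs_of_nonneg hρ']
  · have h0 : 0 < ‖x‖ := norm_pos_iff.2 hx
    have hρ' : 0 < ρ := lt_of_lt_of_le h0 hρ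
    refine ⟨(ρ / ‖x‖) • x, ?_, ?_⟩
    · rw [norm_smul, Real.norm_eq_abs, abs_of_pos (by positivity)]; field_simp
    · rw [dist_eq_norm]
      have : (ρ / ‖x‖) • x - x = ((ρ - ‖x‖) / ‖x‖) • x := by
        rw [sub_div, div_self h0.ne', sub_smul, one_smul]
      rw [this, norm_smul, Real.norm_eq_abs, abs_of_nonneg (div_nonneg (by linarith) h0.le)]
      field_simp

theorem rep {f : E → E} {c : ℝ} (G : Good f c) {κ : Type} [Fintype κ] [Nonempty κ] {ε : ℝ}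
    (hε : 0 < ε) (hε1 : ε < 1) {x : E} (hx : ‖x‖ < 1) (y : κ → E)
    (hy : ∀ k, dist (y k) x ≤ (1 - ‖x‖) / 20) :
    ∃ (w1 w2 : Fin 4 → ℝ) (z1 z2 : Fin 4 → E), (∀ i, 0 ≤ w1 i) ∧ ∑ i, w1 i = 1 ∧
      (∀ i, 0 ≤ w2 i) ∧ ∑ i, w2 i = 1 ∧
      (∀ i, (dist (z1 i) x ≤ 5 * (1 - ‖x‖) ∧ ‖z1 i‖ ≤ 1 - ε * (1 - ‖x‖) / 2) ∧
        1 - ε * (1 - ‖x‖) ≤ ‖z1 i‖) ∧
      (∀ i, dist (z2 i) x ≤ 5 * (1 - ‖x‖) ∧ ‖z2 i‖ ≤ 1 - ε * (1 - ‖x‖) / 2) ∧
      (c / 2) • ∑ i, w1 i • f (z1 i) + ∑ k, (c / (2 * Fintype.card κ)) • f (y k) +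
        (1 - c) • ∑ i, w2 i • f (z2 i) = f x := by
  set h := 1 - ‖x‖ with hh
  have h0 : 0 < h := by linarith
  set D : Set E := {z | dist z x ≤ 5 * h ∧ ‖z‖ ≤ 1 - ε * h / 2} with hD
  set Bt : Set E := {z | (dist z x ≤ 5 * h ∧ ‖z‖ ≤ 1 - ε * h / 2) ∧ 1 - ε * h ≤ ‖z‖} with hBt
  have hεh : 0 < ε * h := by positivity
  have hDc : IsCompact D := (isCompact_closedBall x (5 * h)).inter_right
    (isClosed_le continuous_norm continuous_const)
  have hBc : IsCompact Bt := hDc.inter_right (isClosed_le continuous_const continuous_norm)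
  have hBD : Bt ⊆ D := fun z hz => hz.1
  have hDB : D ⊆ ball 0 1 := fun z hz => by
    rw [mem_ball_zero_iff]; linarith [hz.2]
  have hBne : Bt.Nonempty := by
    obtain ⟨z, hz, hz'⟩ := exists_norm_eq x (ρ := 1 - ε * h) (by nlinarith)
    exact ⟨z, ⟨by rw [hz']; nlinarith, by rw [hz]; linarith⟩, hz.ge⟩
  have hfD := G.cont.mono hDB
  set q := ∑ k, (c / (2 * Fintype.card κ)) • f (y k) with hq
  set S : Set E := (fun p : E × E => (c / 2) • p.1 + q + (1 - c) • p.2) ''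
    (convexHull ℝ (f '' Bt) ×ˢ convexHull ℝ (f '' D)) with hS
  have hSc : IsCompact S := ((isCompact_hull (hBc.image_of_continuousOn (hfD.mono hBD))).prod
    (isCompact_hull (hDc.image_of_continuousOn hfD))).image (by fun_prop)
  have hSv : Convex ℝ S := by
    rintro _ ⟨⟨p1, p2⟩, ⟨hp1, hp2⟩, rfl⟩ _ ⟨⟨p1', p2'⟩, ⟨hp1', hp2'⟩, rfl⟩ a b ha hb hab
    refine ⟨(a • p1 + b • p1', a • p2 + b • p2'), ⟨convex_convexHull ℝ _ hp1 hp1' ha hb hab,
      convex_convexHull ℝ _ hp2 hp2' ha hb hab⟩, ?_⟩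
    have hb' : b = 1 - a := by linarith
    subst hb'
    simp only
    module
  have hmem : f x ∈ S := by
    by_contra hcon
    obtain ⟨l, u, hl1, hl2⟩ := geometric_hahn_banach_point_closed hSv hSc.isClosed hcon
    set e : E := (InnerProductSpace.toDual ℝ E).symm l with he
    have hle : ∀ v, l v = ⟪e, v⟫ := fun v => by
      rw [he, InnerProductSpace.toDual_symm_apply]
    have hcl : ContinuousOn (fun z => ⟪e, f z⟫) D := ContinuousOn.inner (𝕜 := ℝ) continuousOn_const hfD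
    obtain ⟨z1, hz1, hz1'⟩ := hBc.exists_isMinOn hBne (hcl.mono hBD)
    obtain ⟨z2, hz2, hz2'⟩ := hDc.exists_isMinOn (hBne.mono hBD) hcl
    have a1 := hl2 _ ⟨(f z1, f z2), ⟨subset_convexHull ℝ _ ⟨z1, hz1, rfl⟩,
      subset_convexHull ℝ _ ⟨z2, hz2, rfl⟩⟩, rfl⟩
    simp only [hle, hq, inner_add_right, inner_smul_right, inner_sum] at a1 hl1
    set m := ⟪e, f z2⟫ with hm
    have a2 := G.bot x hx ε hε hε1 e m (⟪e, f z1⟫ - m) (sub_nonneg.2 (hz2' (hBD hz1)))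
      (fun z h1 h2 => hz2' (show z ∈ D from ⟨h1, h2⟩))
      (fun z h1 h2 h3 => by
        have := hz1' (show z ∈ Bt from ⟨⟨h1, h2⟩, h3⟩)
        simpa using this)
    have a3 : ∀ k, m + c * (⟪e, f (y k)⟫ - m) ≤ ⟪e, f x⟫ := fun k =>
      G.int x hx (y k) (hy k) e m fun z hz => hz2' (show z ∈ D from ⟨by linarith, by
        have := norm_le_norm_add_norm_sub' z x
        rw [← dist_eq_norm] at this
        nlinarith⟩)
    have a4 := Finset.sum_le_sum fun k (_ : k ∈ Finset.univ) => a3 k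
    simp only [Finset.sum_add_distrib, Finset.sum_const, Finset.card_univ, nsmul_eq_mul,
      ← Finset.mul_sum, Finset.sum_sub_distrib] at a4 a1
    have hN : (0 : ℝ) < Fintype.card κ := by exact_mod_cast Fintype.card_pos
    set N : ℝ := (Fintype.card κ : ℝ)
    set s := ∑ k, ⟪e, f (y k)⟫
    have a5 : c / (2 * N) * s ≤ (⟪e, f x⟫ - m + c * m) / 2 := by
      rw [div_mul_eq_mul_div, div_le_div_iff₀ (by positivity) (by norm_num)]
      nlinarith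
    nlinarith
  obtain ⟨⟨p1, p2⟩, ⟨hp1, hp2⟩, hp⟩ := hmem
  obtain ⟨w1, y1, a1, a2, a3, a4⟩ := hull4 hp1
  obtain ⟨w2, y2, b1, b2, b3, b4⟩ := hull4 hp2
  choose z1 hz1 hz1' using a3
  choose z2 hz2 hz2' using b3
  refine ⟨w1, w2, z1, z2, a1, a2, b1, b2, hz1, hz2, ?_⟩
  simp only [hz1', hz2', a4, b4]
  exact hp

end Pool.Agent.MP_16e930_an.H98
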